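import Pool.Agent.Helper19.RG.GeoStep
import Pool.Agent.Helper46.LemX

/-!
The four alternatives of Lemma X. (Problem MP_d067c8_co.)
-/

namespace Pool.Agent.Helper19.RG

open Finset Pool.Agent.Helper19.CF Pool.Agent.Helper46.LemX

section

variable {N : ℕ} [NeZero N] {f f' : Equiv.Perm (ZMod N)} {M : Finset (ZMod N ⊕ ZMod N)}

/-- No spoke with both ends in `M` is crossed by a nontrivial 5-edge-cut. -/
def NS (f : Equiv.Perm (ZMod N)) (M : Finset (ZMod N ⊕ ZMod N)) : Prop :=
  ∀ u v, spk f u v → u ∈ M → v ∈ M → ∀ Y, Side f Y → (u ∈ Y ↔ v ∈ Y)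

theorem NS.noStar (h : NS f M) {x : ZMod N} (h1 : (.inl x : ZMod N ⊕ ZMod N) ∈ M)
    (h2 : (.inr (f x) : ZMod N ⊕ ZMod N) ∈ M) : NoStar f x :=
  fun Y hY => h (.inl x) (.inr (f x)) (show f x = f x from rfl) h1 h2 Y hY

theorem NS.im (s : Sym f f') (h : NS f M) : NS f' (im s.φ M) := by
  intro u v huv hu hv Y hY
  rw [mem_im'] at hu hv
  have h1 : spk f (s.φ.symm u) (s.φ.symm v) := by
    rw [s.sp, s.φ.apply_symm_apply, s.φ.apply_symm_apply]
    exact huv
  have h2 := h _ _ h1 hu hv _ (hY.im s.φ.symm)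
  rw [mem_im, mem_im] at h2
  exact h2

variable {c d x0 : ZMod N} {m : ℕ}

/-- Alternative 1. -/
theorem alt1 (hb : Bad f) (hns : NS f M) (hrig : Rig f M) (h : HA f M c d x0 m) {e : ℕ}
    (h1 : MinC m (x0 - c).val (cF f c d) e) (h2 : cF f c d (e + 1) + 1 ≤ m)
    (h3 : cX f c d (cF f c d (e + 1) + 1) + 1 ≠ e) : False := by
  obtain ⟨g1, g2, g3, g4, g5, g6⟩ := h1
  have hN := hb.hN
  have hm := h.mN
  have k1 := h.col g1 (by omega) g3
  have k2 := h.col (i := e + 1) (by omega) (by omega) g4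
  apply hb.noflow
  refine geo_step (by omega) hb.hodd hb.cyc hrig (fun x a1 a2 => hns.noStar a1 a2)
    (C := m + 1) (R := m) (by omega) h.memA h.memB h.other (F := cF f c d) (fun i => rfl)
    (e := e) k1.2.2.2.1 g5 h2 ?_ ?_ ?_
  · rintro ⟨a1, a2⟩
    have := h.starpos
    have := k1.2.2.2.1
    omega
  · intro a a1 a2 a3 a4 a5 a6 a7
    refine g6 a a1 (by omega) ?_ ?_ a5 a6 a7
    · rintro rfl
      apply a3
      rw [ZMod.natCast_zmod_val]
      ring
    · intro a8
      apply a4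
      rw [a8, ZMod.natCast_zmod_val]
      ring
  · intro a1
    apply h3
    have a2 : f (c + ((e + 1 : ℕ) : ZMod N)) = d + (cF f c d (e + 1) : ZMod N) :=
      add_val _ _ _ rfl
    have a3 : f.symm (d + ((cF f c d (e + 1) + 1 : ℕ) : ZMod N)) = c + e - 1 := by
      rw [Equiv.symm_apply_eq, a1, a2]
      push_cast
      ring
    unfold cX
    rw [a3]
    have a4 : c + (e : ZMod N) - 1 = c + ((e - 1 : ℕ) : ZMod N) := by
      rw [Nat.cast_sub g1]
      push_cast
      ring
    rw [a4, val_add _ (by omega)]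
    omega

/-- Alternative 3. -/
theorem alt3 (hb : Bad f) (hns : NS f M) (hrig : Rig f M) (h : HA f M c d x0 m) {b : ℕ}
    (h1 : MinR m (cX f c d) b) (h2 : 2 ≤ cX f c d (b + 1))
    (h3 : ¬ (cX f c d (b + 1) - 1 ≤ (x0 - c).val ∧ (x0 - c).val ≤ cX f c d b))
    (h4 : cF f c d (cX f c d (b + 1) - 1) + 1 ≠ b) : False := by
  obtain ⟨g1, g2, g3, g4⟩ := h1
  have hN := hb.hN
  have hm := h.mN
  have hN1 : 1 < N := by omega
  have hs0 := (h.memA x0).mp h.star1
  have kk : ∀ j, 1 ≤ j → j ≤ m → (rot f (d + (j : ZMod N)) - (-c - ((m + 2 : ℕ) : ZMod N))).val =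
      m + 2 - cX f c d j := by
    intro j a1 a2
    have a3 := h.row a1 a2
    have a4 : rot f (d + (j : ZMod N)) - (-c - ((m + 2 : ℕ) : ZMod N)) =
        ((m + 2 : ℕ) : ZMod N) - (f.symm (d + j) - c) := by
      rw [rot_apply]
      ring
    rw [a4]
    exact val_flip_nat (by omega) (show cX f c d j ≤ m + 2 by omega)
      (show 0 < cX f c d j by omega)
  have kb := kk b g1 (by omega)
  have kb1 := kk (b + 1) (by omega) g2
  have rb := h.row g1 (by omega)
  have rb1 := h.row (j := b + 1) (by omega) g2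
  have hbr : Bad (rot f) := hb.iso (rotIso hN1 f)
  apply hbr.noflow
  refine geo_step (M := im (rotIso hN1 f) M) (by omega) hbr.hodd hbr.cyc (hrig.rot hN1)
    (fun x a1 a2 => (hns.im (rotSym hN1 f)).noStar a1 a2)
    (c := d) (d := -c - ((m + 2 : ℕ) : ZMod N)) (x0 := f x0) (C := m) (R := m + 1) (by omega)
    ?_ ?_ ?_ (F := fun i => (rot f (d + (i : ZMod N)) - (-c - ((m + 2 : ℕ) : ZMod N))).val)
    (fun i => rfl) (e := b) ?_ ?_ ?_ ?_ ?_ ?_
  · intro x
    rw [rot_inl]
    exact h.memB x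
  · intro y
    rw [rot_inr, h.memA]
    have a1 : y - (-c - ((m + 2 : ℕ) : ZMod N)) = ((m + 2 : ℕ) : ZMod N) - (-y - c) := by ring
    rw [a1]
    have a2 := range_flip (N := N) (w := -y - c) (K := m + 2) (by omega)
    omega
  · intro x hx
    rw [rot_inl, rot_inr, rot_apply, neg_neg]
    have a1 : f.symm x ≠ x0 := by
      intro a2
      rw [Equiv.symm_apply_eq] at a2
      exact hx a2
    have a2 := h.other _ a1
    rw [Equiv.apply_symm_apply] at a2
    exact a2.symm
  · show 1 ≤ (rot f (d + (b : ZMod N)) - _).val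
    rw [kb]
    omega
  · show (rot f (d + (b : ZMod N)) - _).val < (rot f (d + ((b + 1 : ℕ) : ZMod N)) - _).val
    rw [kb, kb1]
    omega
  · show (rot f (d + ((b + 1 : ℕ) : ZMod N)) - _).val + 1 ≤ m + 1
    rw [kb1]
    omega
  · show ¬ ((rot f (d + (b : ZMod N)) - _).val ≤ (rot f (f x0) - _).val ∧
      (rot f (f x0) - _).val ≤ (rot f (d + ((b + 1 : ℕ) : ZMod N)) - _).val + 1)
    have a4 : rot f (f x0) - (-c - ((m + 2 : ℕ) : ZMod N)) =
        ((m + 2 : ℕ) : ZMod N) - (x0 - c) := by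
      rw [rot_apply, Equiv.symm_apply_apply]
      ring
    rw [kb, kb1, a4, val_flip_nat (by omega) (by omega) (by omega)]
    omega
  · intro a a1 a2 _ _ a5 a6 a7
    have ka := kk a a1 (by omega)
    have ka1 := kk (a + 1) (by omega) a2
    have ra := h.row a1 (by omega)
    have ra1 := h.row (j := a + 1) (by omega) a2
    beta_reduce at a5 a6 a7
    rw [kb, ka] at a5
    rw [ka, ka1] at a6
    rw [ka1, kb1] at a7
    exact g4 a a1 a2 (by omega) (by omega) (by omega)
  · intro a1
    apply h4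
    rw [rot_apply, rot_apply] at a1
    have a2 : f.symm (d + ((b + 1 : ℕ) : ZMod N)) = c + (cX f c d (b + 1) : ZMod N) :=
      add_val _ _ _ rfl
    rw [a2] at a1
    have a3 : c + ((cX f c d (b + 1) - 1 : ℕ) : ZMod N) = f.symm (d + b - 1) := by
      rw [Nat.cast_sub (by omega)]
      push_cast
      linear_combination a1
    unfold cF
    rw [a3, Equiv.apply_symm_apply]
    have a4 : d + (b : ZMod N) - 1 = d + ((b - 1 : ℕ) : ZMod N) := by
      rw [Nat.cast_sub g1]
      push_cast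
      ring
    rw [a4, val_add _ (by omega)]
    omega

/-- Coordinates after the rotation by 180 degrees. -/
theorem HA.half (hN : 1 < N) (h : HA f M c d x0 m) :
    HA (half f) (im (halfIso hN f) M) (-c - ((m + 2 : ℕ) : ZMod N)) (-d - ((m + 1 : ℕ) : ZMod N))
      (-x0) m := by
  have hm := h.mN
  constructor
  · exact h.m3
  · exact h.mN
  · rw [← h.card]
    exact card_map _
  · intro x
    rw [half_inl, h.memA]
    have a1 : x - (-c - ((m + 2 : ℕ) : ZMod N)) = ((m + 2 : ℕ) : ZMod N) - (-x - c) := by ring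
    rw [a1]
    have a2 := range_flip (N := N) (w := -x - c) (K := m + 2) (by omega)
    omega
  · intro y
    rw [half_inr, h.memB]
    have a1 : y - (-d - ((m + 1 : ℕ) : ZMod N)) = ((m + 1 : ℕ) : ZMod N) - (-y - d) := by ring
    rw [a1]
    have a2 := range_flip (N := N) (w := -y - d) (K := m + 1) (by omega)
    omega
  · rw [half_inl, neg_neg]
    exact h.star1
  · rw [half_inr, half_apply, neg_neg, neg_neg]
    exact h.star2
  · intro x hx
    rw [half_inl, half_inr, half_apply, neg_neg]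
    exact h.other _ (fun h1 => hx (by rw [← h1, neg_neg]))

theorem HA.half_F (h : HA f M c d x0 m) {i : ℕ} (h1 : 1 ≤ i) (h2 : i ≤ m + 1)
    (h3 : i ≠ (x0 - c).val) :
    cF (RG.half f) (-c - ((m + 2 : ℕ) : ZMod N)) (-d - ((m + 1 : ℕ) : ZMod N)) (m + 2 - i) =
      m + 1 - cF f c d i := by
  have hm := h.mN
  have a1 := h.col h1 h2 h3
  unfold cF at a1 ⊢
  rw [half_apply]
  have a2 : -(-c - ((m + 2 : ℕ) : ZMod N) + ((m + 2 - i : ℕ) : ZMod N)) = c + i := by
    rw [Nat.cast_sub (by omega)]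
    ring
  rw [a2]
  have a3 : -f (c + i) - (-d - ((m + 1 : ℕ) : ZMod N)) =
      ((m + 1 : ℕ) : ZMod N) - (f (c + i) - d) := by ring
  rw [a3]
  exact val_flip_nat (by omega) (by omega) (by omega)

theorem HA.half_X (h : HA f M c d x0 m) {j : ℕ} (h1 : 1 ≤ j) (h2 : j ≤ m) :
    cX (RG.half f) (-c - ((m + 2 : ℕ) : ZMod N)) (-d - ((m + 1 : ℕ) : ZMod N)) (m + 1 - j) =
      m + 2 - cX f c d j := by
  have hm := h.mN
  have a1 := h.row h1 h2
  unfold cX at a1 ⊢
  rw [half_symm]
  have a2 : -(-d - ((m + 1 : ℕ) : ZMod N) + ((m + 1 - j : ℕ) : ZMod N)) = d + j := by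
    rw [Nat.cast_sub (by omega)]
    ring
  rw [a2]
  have a3 : -f.symm (d + j) - (-c - ((m + 2 : ℕ) : ZMod N)) =
      ((m + 2 : ℕ) : ZMod N) - (f.symm (d + j) - c) := by ring
  rw [a3]
  exact val_flip_nat (by omega) (by omega) (by omega)

theorem HA.half_s (h : HA f M c d x0 m) :
    (-x0 - (-c - ((m + 2 : ℕ) : ZMod N))).val = m + 2 - (x0 - c).val := by
  have hm := h.mN
  have hs0 := (h.memA x0).mp h.star1
  have a3 : -x0 - (-c - ((m + 2 : ℕ) : ZMod N)) = ((m + 2 : ℕ) : ZMod N) - (x0 - c) := by ring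
  rw [a3]
  exact val_flip_nat (by omega) (by omega) (by omega)

/-- Alternative 2. -/
theorem alt2 (hb : Bad f) (hns : NS f M) (hrig : Rig f M) (h : HA f M c d x0 m) {e : ℕ}
    (h1 : MinC m (x0 - c).val (cF f c d) e) (h2 : 2 ≤ cF f c d e)
    (h3 : cX f c d (cF f c d e - 1) ≠ e + 2) : False := by
  obtain ⟨g1, g2, g3, g4, g5, g6⟩ := h1
  have hN := hb.hN
  have hN1 : 1 < N := by omega
  have hs0 := (h.memA x0).mp h.star1
  have c1 := h.col g1 (by omega) g3
  have c2 := h.col (i := e + 1) (by omega) (by omega) g4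
  have F1 := h.half_F g1 (by omega) g3
  have F2 := h.half_F (i := e + 1) (by omega) (by omega) g4
  have x1 := h.half_X (j := cF f c d e - 1) (by omega) (by omega)
  have hx1 := h.row (j := cF f c d e - 1) (by omega) (by omega)
  have e1 : m + 1 - e + 1 = m + 2 - e := by omega
  have e2 : m + 2 - (e + 1) = m + 1 - e := by omega
  have e3 : m + 1 - (cF f c d e - 1) = m + 1 - cF f c d e + 1 := by omega
  rw [e2] at F2
  rw [e3] at x1
  refine alt1 (hb.iso (halfIso hN1 f)) (hns.im (halfSym hN1 f)) (hrig.half hN1) (h.half hN1)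
    (e := m + 1 - e) ?_ ?_ ?_
  · rw [h.half_s]
    refine ⟨by omega, by omega, by omega, by omega, ?_, ?_⟩
    · rw [e1, F1, F2]
      omega
    · intro a a1 a2 a3 a4 a5 a6 a7
      have Fa := h.half_F (i := m + 2 - a) (by omega) (by omega) (by omega)
      have Fa1 := h.half_F (i := m + 1 - a) (by omega) (by omega) (by omega)
      have ca := h.col (i := m + 2 - a) (by omega) (by omega) (by omega)
      have ca1 := h.col (i := m + 1 - a) (by omega) (by omega) (by omega)
      have e4 : m + 2 - (m + 2 - a) = a := by omega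
      have e5 : m + 2 - (m + 1 - a) = a + 1 := by omega
      have e6 : m + 1 - a + 1 = m + 2 - a := by omega
      rw [e4] at Fa
      rw [e5] at Fa1
      rw [F2, Fa] at a5
      rw [Fa, Fa1] at a6
      rw [e1, F1, Fa1] at a7
      have := g6 (m + 1 - a) (by omega) (by omega) (by omega) (by omega) (by omega)
        (by rw [e6]; omega) (by rw [e6]; omega)
      omega
  · rw [e1, F1]
    omega
  · rw [e1, F1, x1]
    omega

/-- Alternative 4. -/
theorem alt4 (hb : Bad f) (hns : NS f M) (hrig : Rig f M) (h : HA f M c d x0 m) {b : ℕ}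
    (h1 : MinR m (cX f c d) b) (h2 : cX f c d b ≤ m)
    (h3 : ¬ (cX f c d (b + 1) ≤ (x0 - c).val ∧ (x0 - c).val ≤ cX f c d b + 1))
    (h4 : cF f c d (cX f c d b + 1) ≠ b + 2) : False := by
  obtain ⟨g1, g2, g3, g4⟩ := h1
  have hN := hb.hN
  have hN1 : 1 < N := by omega
  have hs0 := (h.memA x0).mp h.star1
  have r1 := h.row g1 (by omega)
  have r2 := h.row (j := b + 1) (by omega) g2
  have X1 := h.half_X g1 (by omega)
  have X2 := h.half_X (j := b + 1) (by omega) g2
  have hne : cX f c d b + 1 ≠ (x0 - c).val := by omega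
  have f1 := h.half_F (i := cX f c d b + 1) (by omega) (by omega) hne
  have hf1 := h.col (i := cX f c d b + 1) (by omega) (by omega) hne
  have e1 : m + 1 - (b + 1) = m - b := by omega
  have e2 : m + 1 - b = m - b + 1 := by omega
  have e3 : m + 2 - (cX f c d b + 1) = m + 2 - cX f c d b - 1 := by omega
  rw [e1] at X2
  rw [e2] at X1
  rw [e3] at f1
  refine alt3 (hb.iso (halfIso hN1 f)) (hns.im (halfSym hN1 f)) (hrig.half hN1) (h.half hN1)
    (b := m - b) ?_ ?_ ?_ ?_
  · refine ⟨by omega, by omega, ?_, ?_⟩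
    · rw [X1, X2]
      omega
    · intro a a1 a2 a3 a4 a5
      have Xa := h.half_X (j := m + 1 - a) (by omega) (by omega)
      have Xa1 := h.half_X (j := m - a) (by omega) (by omega)
      have ra := h.row (j := m + 1 - a) (by omega) (by omega)
      have ra1 := h.row (j := m - a) (by omega) (by omega)
      have e4 : m + 1 - (m + 1 - a) = a := by omega
      have e5 : m + 1 - (m - a) = a + 1 := by omega
      have e6 : m - a + 1 = m + 1 - a := by omega
      rw [e4] at Xa
      rw [e5] at Xa1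
      rw [X1, Xa1] at a3
      rw [Xa, Xa1] at a4
      rw [X2, Xa] at a5
      have := g4 (m - a) (by omega) (by omega) (by rw [e6]; omega) (by rw [e6]; omega) (by omega)
      omega
  · rw [X1]
    omega
  · rw [X1, X2, h.half_s]
    omega
  · rw [X1, f1]
    omega

end

end Pool.Agent.Helper19.RG
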