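import Pool.Agent.Helper19.RG.Touch

/-!
The 5-edge-cuts of cycle permutation graphs: two arcs and one spoke.  (Problem MP_d067c8_co.)
-/

namespace Pool.Agent.Helper19.RG

open Finset Pool.Agent.Helper19.CF

section cyc

variable {N : ℕ} [NeZero N]

/-- A subset of a cycle with two boundary edges is an arc. -/
theorem arc (hN : 2 < N) (P : ZMod N → Prop) [DecidablePred P]
    (h : (∑ x, ∑ y, if (y = x + 1 ∨ x = y + 1) ∧ P x ∧ ¬ P y then 1 else 0) = 2) :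
    ∃ (c : ZMod N) (l : ℕ), 0 < l ∧ l < N ∧ ∀ x, P x ↔ (x - c).val < l := by
  classical
  have e3 : (∑ x : ZMod N, if P x ∧ ¬ P (x - 1) then 1 else 0) =
      ∑ x : ZMod N, if P (x + 1) ∧ ¬ P x then 1 else 0 := by
    rw [← Equiv.sum_comp (Equiv.addRight (1 : ZMod N))]
    refine sum_congr rfl fun x _ => ?_
    simp
  rw [sum_congr rfl fun x _ => inner_sum hN P x, sum_add_distrib, e3] at h
  -- both kinds of boundary edges exist
  have hex : ∃ a b, P a ∧ ¬ P b := by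
    by_contra hcon
    push Not at hcon
    have h1 : ∀ x : ZMod N, ¬ (P x ∧ ¬ P (x + 1)) := fun x hx => hx.2 (hcon x _ hx.1)
    have h2 : ∀ x : ZMod N, ¬ (P (x + 1) ∧ ¬ P x) := fun x hx => hx.2 (hcon _ _ hx.1)
    rw [sum_congr rfl fun x _ => if_neg (h1 x), sum_congr rfl fun x _ => if_neg (h2 x)] at h
    simp at h
  obtain ⟨a, a', ha, ha'⟩ := hex
  obtain ⟨d, hd1, hd2⟩ := exists_up ha ha'
  obtain ⟨c', hc1, hc2⟩ := exists_up (P := fun x => ¬ P x) ha' (by simpa using ha)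
  simp only [not_not] at hc2
  have hone : ∀ (Q : ZMod N → Prop) [DecidablePred Q], (∑ x, if Q x then 1 else 0) =
      (univ.filter Q).card := by
    intro Q _
    rw [card_filter]
  have s1 : 1 ≤ ∑ x : ZMod N, if P x ∧ ¬ P (x + 1) then 1 else 0 := by
    rw [hone]
    exact card_pos.mpr ⟨d, by simp [hd1, hd2]⟩
  have s2 : 1 ≤ ∑ x : ZMod N, if P (x + 1) ∧ ¬ P x then 1 else 0 := by
    rw [hone]
    exact card_pos.mpr ⟨c', by simp [hc1, hc2]⟩
  have s3 : (∑ x : ZMod N, if P (x + 1) ∧ ¬ P x then 1 else 0) = 1 := by omega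
  -- the only start
  have hstart : ∀ x, ¬ P x → P (x + 1) → x = c' := by
    intro x h1 h2
    rw [hone] at s3
    obtain ⟨y, hy⟩ := card_eq_one.mp s3
    have g1 : x ∈ univ.filter (fun x => P (x + 1) ∧ ¬ P x) := by simp [h1, h2]
    have g2 : c' ∈ univ.filter (fun x => P (x + 1) ∧ ¬ P x) := by simp [hc1, hc2]
    rw [hy, mem_singleton] at g1 g2
    rw [g1, g2]
  have hNpos : 0 < N := by omega
  have hexl : ∃ n : ℕ, ¬ P (c' + 1 + n) := by
    refine ⟨(c' - (c' + 1)).val, ?_⟩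
    rw [ZMod.natCast_zmod_val]
    have : c' + 1 + (c' - (c' + 1)) = c' := by ring
    rw [this]
    exact hc1
  have hl0 : Nat.find hexl ≠ 0 := by
    intro h1
    have h2 := Nat.find_spec hexl
    rw [h1, Nat.cast_zero, add_zero] at h2
    exact h2 hc2
  have hlN : Nat.find hexl < N := by
    refine lt_of_le_of_lt (Nat.find_min' hexl (m := N - 1) ?_) (by omega)
    have h1 : ((N - 1 : ℕ) : ZMod N) = -1 := by
      rw [Nat.cast_sub (by omega), Nat.cast_one, ZMod.natCast_self, zero_sub]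
    rw [h1]
    have h2 : c' + 1 + -1 = c' := by ring
    rw [h2]
    exact hc1
  have hafter : ∀ n : ℕ, Nat.find hexl ≤ n → n < N → ¬ P (c' + 1 + n) := by
    intro n hn
    induction n, hn using Nat.le_induction with
    | base => exact fun _ => Nat.find_spec hexl
    | succ n hn ih =>
      intro hnN hP
      have h1 := ih (by omega)
      have h2 : c' + 1 + ((n + 1 : ℕ) : ZMod N) = c' + 1 + n + 1 := by push_cast; ring
      rw [h2] at hP
      have h3 := hstart _ h1 hP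
      have h4 : ((n + 1 : ℕ) : ZMod N) = 0 := by
        push_cast
        linear_combination h3
      have h5 := congrArg ZMod.val h4
      rw [ZMod.val_natCast_of_lt hnN, ZMod.val_zero] at h5
      omega
  refine ⟨c' + 1, Nat.find hexl, by omega, hlN, fun x => ?_⟩
  have hx : c' + 1 + ((x - (c' + 1)).val : ZMod N) = x := by
    rw [ZMod.natCast_zmod_val]
    ring
  constructor
  · intro hP
    by_contra hcon
    have h1 := hafter _ (not_lt.mp hcon) (ZMod.val_lt _)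
    rw [hx] at h1
    exact h1 hP
  · intro hlt
    have h1 := Nat.find_min hexl hlt
    rw [not_not, hx] at h1
    exact h1

end cyc

variable {N : ℕ} [NeZero N] {f : Equiv.Perm (ZMod N)}

/-- The crossing spoke. -/
theorem star {Y : Finset (ZMod N ⊕ ZMod N)} (h : ns f Y = 1) :
    ∃ x0, ¬ ((.inl x0 : ZMod N ⊕ ZMod N) ∈ Y ↔ (.inr (f x0) : ZMod N ⊕ ZMod N) ∈ Y) ∧
      ∀ x, x ≠ x0 → ((.inl x : ZMod N ⊕ ZMod N) ∈ Y ↔ (.inr (f x) : ZMod N ⊕ ZMod N) ∈ Y) := by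
  classical
  unfold ns at h
  have h1 : (univ.filter fun x : ZMod N => ¬ ((.inl x : ZMod N ⊕ ZMod N) ∈ Y ↔
      (.inr (f x) : ZMod N ⊕ ZMod N) ∈ Y)).card = 1 := by
    rw [card_filter]
    refine Eq.trans (sum_congr rfl fun x _ => ?_) h
    by_cases h2 : ((.inl x : ZMod N ⊕ ZMod N) ∈ Y ↔ (.inr (f x) : ZMod N ⊕ ZMod N) ∈ Y)
    · rw [if_pos h2, if_neg (not_not.mpr h2)]
    · rw [if_neg h2, if_pos h2]
  obtain ⟨x0, hx0⟩ := card_eq_one.mp h1
  have hmem : ∀ x, ¬ ((.inl x : ZMod N ⊕ ZMod N) ∈ Y ↔ (.inr (f x) : ZMod N ⊕ ZMod N) ∈ Y) ↔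
      x = x0 := by
    intro x
    have h2 : x ∈ (univ.filter fun x : ZMod N => ¬ ((.inl x : ZMod N ⊕ ZMod N) ∈ Y ↔
      (.inr (f x) : ZMod N ⊕ ZMod N) ∈ Y)) ↔ x ∈ ({x0} : Finset (ZMod N)) := by rw [hx0]
    simpa only [mem_filter, mem_univ, true_and, mem_singleton] using h2
  refine ⟨x0, (hmem x0).mpr rfl, fun x hx => ?_⟩
  by_contra h2
  exact hx ((hmem x).mp h2)

/-- The structure of the nontrivial 5-edge-cuts. -/
theorem cut_arcs (hN : 5 < N) [DecidableRel (permGraph N f).Adj]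
    {Y : Finset (ZMod N ⊕ ZMod N)} (h5 : dd (permGraph N f) Y = 5) (h10 : 4 ≤ Y.card)
    (h11 : 4 ≤ Yᶜ.card) :
    ∃ (c d : ZMod N) (l m : ℕ) (x0 : ZMod N), 0 < l ∧ l < N ∧ 0 < m ∧ m < N ∧
      (∀ x, (.inl x : ZMod N ⊕ ZMod N) ∈ Y ↔ (x - c).val < l) ∧
      (∀ y, (.inr y : ZMod N ⊕ ZMod N) ∈ Y ↔ (y - d).val < m) ∧
      ¬ ((.inl x0 : ZMod N ⊕ ZMod N) ∈ Y ↔ (.inr (f x0) : ZMod N ⊕ ZMod N) ∈ Y) ∧
      ∀ x, x ≠ x0 → ((.inl x : ZMod N ⊕ ZMod N) ∈ Y ↔ (.inr (f x) : ZMod N ⊕ ZMod N) ∈ Y) := by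
  obtain ⟨s1, s2, s3⟩ := shape hN h5 h10 h11
  obtain ⟨c, l, hl1, hl2, hl3⟩ := arc (N := N) (by omega)
    (fun x => (.inl x : ZMod N ⊕ ZMod N) ∈ Y) s1
  obtain ⟨d, m, hm1, hm2, hm3⟩ := arc (N := N) (by omega)
    (fun x => (.inr x : ZMod N ⊕ ZMod N) ∈ Y) s2
  obtain ⟨x0, g1, g2⟩ := star s3
  exact ⟨c, d, l, m, x0, hl1, hl2, hm1, hm2, hl3, hm3, g1, g2⟩

end Pool.Agent.Helper19.RG
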