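import Pool.Agent.Helper19.RG.Corner

/-!
Arcs of the rims and 5-edge-cuts. (Problem MP_d067c8_co.)
-/

namespace Pool.Agent.Helper19.RG

open Finset Pool.Agent.Helper19.CF

section

variable {N : ℕ} [NeZero N] {f : Equiv.Perm (ZMod N)}

theorem nl_eq (Y : Finset (ZMod N ⊕ ZMod N)) : nl Y = nA Y := by
  unfold nl nA
  rw [card_filter]

theorem nr_eq (Y : Finset (ZMod N ⊕ ZMod N)) : nr Y = nB Y := by
  unfold nr nB
  rw [card_filter]

theorem card_arc (c : ZMod N) {l : ℕ} (hl : l ≤ N) :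
    (univ.filter fun x : ZMod N => (x - c).val < l).card = l := by
  have h1 : (univ.filter fun x : ZMod N => (x - c).val < l).card = (range l).card := by
    refine card_bij (fun x _ => (x - c).val) ?_ ?_ ?_
    · intro x hx
      simpa using hx
    · intro x _ y _ h
      have := ZMod.val_injective N h
      linear_combination this
    · intro j hj
      rw [mem_range] at hj
      refine ⟨c + j, ?_, ?_⟩
      · have h2 : (c + (j : ZMod N) - c) = j := by ring
        simp only [mem_filter, mem_univ, true_and]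
        rw [h2, ZMod.val_natCast_of_lt (by omega)]
        exact hj
      · have h2 : (c + (j : ZMod N) - c) = j := by ring
        rw [h2, ZMod.val_natCast_of_lt (by omega)]
  rw [h1, card_range]

/-- The boundary edges of an arc. -/
theorem bd_arc (hN : 2 < N) (P : ZMod N → Prop) [DecidablePred P] {c : ZMod N} {l : ℕ}
    (hl : 0 < l) (hlN : l < N) (hP : ∀ x, P x ↔ (x - c).val < l) :
    (∑ x, ∑ y, if (y = x + 1 ∨ x = y + 1) ∧ P x ∧ ¬ P y then 1 else 0) = 2 := by
  have h1 : ∀ x : ZMod N, (P x ∧ ¬ P (x + 1)) ↔ x = c + ((l - 1 : ℕ) : ZMod N) := by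
    intro x
    rw [hP, hP]
    have h2 : x + 1 - c = (x - c) + 1 := by ring
    rw [h2]
    constructor
    · rintro ⟨g1, g2⟩
      have h3 : x - c ≠ -1 := by
        intro h3
        rw [h3, val_neg_one' (by omega)] at g1
        omega
      rw [val_succ _ h3] at g2
      have h4 : (x - c).val = l - 1 := by omega
      rw [← h4, ZMod.natCast_zmod_val]
      ring
    · rintro rfl
      have h3 : c + ((l - 1 : ℕ) : ZMod N) - c = ((l - 1 : ℕ) : ZMod N) := by ring
      have h4 : (((l - 1 : ℕ) : ZMod N)).val = l - 1 := ZMod.val_natCast_of_lt (by omega)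
      rw [h3, h4]
      refine ⟨by omega, ?_⟩
      rw [val_succ, h4]
      · omega
      · intro h5
        have h6 := congrArg ZMod.val h5
        rw [h4, val_neg_one' (by omega)] at h6
        omega
  have h1' : ∀ x : ZMod N, (P x ∧ ¬ P (x - 1)) ↔ x = c := by
    intro x
    rw [hP, hP]
    have h2 : x - 1 - c = (x - c) - 1 := by ring
    rw [h2, val_sub_one (by omega)]
    constructor
    · rintro ⟨g1, g2⟩
      by_contra h3
      rw [if_neg (sub_ne_zero.mpr h3)] at g2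
      omega
    · rintro rfl
      rw [sub_self, if_pos rfl, ZMod.val_zero]
      omega
  rw [sum_congr rfl fun x _ => inner_sum hN P x, sum_add_distrib]
  have h2 : (∑ x : ZMod N, if P x ∧ ¬ P (x + 1) then 1 else 0) =
      ∑ x : ZMod N, if x = c + ((l - 1 : ℕ) : ZMod N) then 1 else 0 :=
    sum_congr rfl fun x _ => by simp only [h1 x]
  have h3 : (∑ x : ZMod N, if P x ∧ ¬ P (x - 1) then 1 else 0) =
      ∑ x : ZMod N, if x = c then 1 else 0 :=
    sum_congr rfl fun x _ => by simp only [h1' x]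
  rw [h2, h3]
  simp

theorem dd_arcs (hN : 2 < N) [DecidableRel (permGraph N f).Adj]
    {Y : Finset (ZMod N ⊕ ZMod N)} {c d : ZMod N} {l m : ℕ} (hl : 0 < l) (hlN : l < N)
    (hm : 0 < m) (hmN : m < N)
    (hA : ∀ x, (.inl x : ZMod N ⊕ ZMod N) ∈ Y ↔ (x - c).val < l)
    (hB : ∀ y, (.inr y : ZMod N ⊕ ZMod N) ∈ Y ↔ (y - d).val < m) :
    dd (permGraph N f) Y = 4 + ns f Y := by
  rw [dd_perm hN, bd_arc hN (fun x => (.inl x : ZMod N ⊕ ZMod N) ∈ Y) hl hlN hA,
    bd_arc hN (fun x => (.inr x : ZMod N ⊕ ZMod N) ∈ Y) hm hmN hB]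

/-- All spokes of the second rim part end in `Y`. -/
theorem ns_A {Y : Finset (ZMod N ⊕ ZMod N)}
    (h : ∀ x, (.inr (f x) : ZMod N ⊕ ZMod N) ∈ Y → (.inl x : ZMod N ⊕ ZMod N) ∈ Y) :
    ns f Y + nB Y = nA Y := by
  have h1 : nr Y = ∑ x : ZMod N, if (.inr (f x) : ZMod N ⊕ ZMod N) ∈ Y then 1 else 0 :=
    (Equiv.sum_comp f (fun y => if (.inr y : ZMod N ⊕ ZMod N) ∈ Y then 1 else 0)).symm
  rw [← nl_eq, ← nr_eq, h1]
  unfold nl ns
  rw [← sum_add_distrib]
  refine sum_congr rfl fun x _ => ?_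
  by_cases h2 : (.inl x : ZMod N ⊕ ZMod N) ∈ Y
  · by_cases h3 : (.inr (f x) : ZMod N ⊕ ZMod N) ∈ Y <;> simp [h2, h3]
  · have h3 : (.inr (f x) : ZMod N ⊕ ZMod N) ∉ Y := fun h3 => h2 (h x h3)
    simp [h2, h3]

theorem ns_B {Y : Finset (ZMod N ⊕ ZMod N)}
    (h : ∀ x, (.inl x : ZMod N ⊕ ZMod N) ∈ Y → (.inr (f x) : ZMod N ⊕ ZMod N) ∈ Y) :
    ns f Y + nA Y = nB Y := by
  have h1 : nr Y = ∑ x : ZMod N, if (.inr (f x) : ZMod N ⊕ ZMod N) ∈ Y then 1 else 0 :=
    (Equiv.sum_comp f (fun y => if (.inr y : ZMod N ⊕ ZMod N) ∈ Y then 1 else 0)).symm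
  rw [← nl_eq, ← nr_eq, h1]
  unfold nl ns
  rw [← sum_add_distrib]
  refine sum_congr rfl fun x _ => ?_
  by_cases h2 : (.inr (f x) : ZMod N ⊕ ZMod N) ∈ Y
  · by_cases h3 : (.inl x : ZMod N ⊕ ZMod N) ∈ Y <;> simp [h2, h3]
  · have h3 : (.inl x : ZMod N ⊕ ZMod N) ∉ Y := fun h3 => h2 (h x h3)
    simp [h2, h3]

/-- Two arcs whose lengths differ by one. -/
theorem side_A (hN : 2 < N) {Y : Finset (ZMod N ⊕ ZMod N)} {c d : ZMod N} {m : ℕ}
    (hm : 3 ≤ m) (hmN : m + 1 < N) (hmN' : 2 * m + 8 ≤ 2 * N)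
    (hA : ∀ x, (.inl x : ZMod N ⊕ ZMod N) ∈ Y ↔ (x - c).val < m + 1)
    (hB : ∀ y, (.inr y : ZMod N ⊕ ZMod N) ∈ Y ↔ (y - d).val < m)
    (h : ∀ x, (.inr (f x) : ZMod N ⊕ ZMod N) ∈ Y → (.inl x : ZMod N ⊕ ZMod N) ∈ Y) :
    Side f Y ∧ Y.card = 2 * m + 1 := by
  classical
  have h1 : nA Y = m + 1 := by
    unfold nA
    simp only [hA]
    exact card_arc c (by omega)
  have h2 : nB Y = m := by
    unfold nB
    simp only [hB]
    exact card_arc d (by omega)
  have h3 := ns_A h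
  have h4 : Y.card = 2 * m + 1 := by
    rw [card_eq_nl_nr, nl_eq, nr_eq, h1, h2]
    ring
  refine ⟨⟨?_, by omega, ?_⟩, h4⟩
  · rw [cutSize_coe, dd_arcs hN (by omega) (by omega) (by omega) (by omega) hA hB]
    omega
  · rw [card_compl, Fintype.card_sum, ZMod.card, h4]
    omega

theorem side_B (hN : 2 < N) {Y : Finset (ZMod N ⊕ ZMod N)} {c d : ZMod N} {m : ℕ}
    (hm : 3 ≤ m) (hmN : m + 1 < N) (hmN' : 2 * m + 8 ≤ 2 * N)
    (hA : ∀ x, (.inl x : ZMod N ⊕ ZMod N) ∈ Y ↔ (x - c).val < m)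
    (hB : ∀ y, (.inr y : ZMod N ⊕ ZMod N) ∈ Y ↔ (y - d).val < m + 1)
    (h : ∀ x, (.inl x : ZMod N ⊕ ZMod N) ∈ Y → (.inr (f x) : ZMod N ⊕ ZMod N) ∈ Y) :
    Side f Y ∧ Y.card = 2 * m + 1 := by
  classical
  have h1 : nA Y = m := by
    unfold nA
    simp only [hA]
    exact card_arc c (by omega)
  have h2 : nB Y = m + 1 := by
    unfold nB
    simp only [hB]
    exact card_arc d (by omega)
  have h3 := ns_B h
  have h4 : Y.card = 2 * m + 1 := by
    rw [card_eq_nl_nr, nl_eq, nr_eq, h1, h2]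
    ring
  refine ⟨⟨?_, by omega, ?_⟩, h4⟩
  · rw [cutSize_coe, dd_arcs hN (by omega) (by omega) (by omega) (by omega) hA hB]
    omega
  · rw [card_compl, Fintype.card_sum, ZMod.card, h4]
    omega

/-- The set given by two arcs. -/
def arcs (c d : ZMod N) (l m : ℕ) : Finset (ZMod N ⊕ ZMod N) :=
  (univ.filter fun x : ZMod N => (x - c).val < l).disjSum
    (univ.filter fun y : ZMod N => (y - d).val < m)

theorem mem_arcs_l {c d : ZMod N} {l m : ℕ} (x : ZMod N) :
    (.inl x : ZMod N ⊕ ZMod N) ∈ arcs c d l m ↔ (x - c).val < l := by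
  unfold arcs
  simp

theorem mem_arcs_r {c d : ZMod N} {l m : ℕ} (y : ZMod N) :
    (.inr y : ZMod N ⊕ ZMod N) ∈ arcs c d l m ↔ (y - d).val < m := by
  unfold arcs
  simp

/-- A side whose majority is on the first rim. -/
structure HA (f : Equiv.Perm (ZMod N)) (M : Finset (ZMod N ⊕ ZMod N)) (c d x0 : ZMod N)
    (m : ℕ) : Prop where
  m3 : 3 ≤ m
  mN : m + 1 < N
  card : M.card = 2 * m + 1
  memA : ∀ x, (.inl x : ZMod N ⊕ ZMod N) ∈ M ↔ 1 ≤ (x - c).val ∧ (x - c).val ≤ m + 1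
  memB : ∀ y, (.inr y : ZMod N ⊕ ZMod N) ∈ M ↔ 1 ≤ (y - d).val ∧ (y - d).val ≤ m
  star1 : (.inl x0 : ZMod N ⊕ ZMod N) ∈ M
  star2 : (.inr (f x0) : ZMod N ⊕ ZMod N) ∉ M
  other : ∀ x, x ≠ x0 → ((.inl x : ZMod N ⊕ ZMod N) ∈ M ↔ (.inr (f x) : ZMod N ⊕ ZMod N) ∈ M)

theorem shift_arc (hN : 1 < N) {c x : ZMod N} {l : ℕ} (hl : l < N) :
    (x - c).val < l ↔ 1 ≤ (x - (c - 1)).val ∧ (x - (c - 1)).val ≤ l := by
  have h1 : x - (c - 1) = (x - c) + 1 := by ring
  rw [h1]
  by_cases h2 : x - c = -1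
  · rw [h2, neg_add_cancel, ZMod.val_zero, val_neg_one' hN]
    omega
  · rw [val_succ _ h2]
    omega

/-- One of the two forms. -/
theorem side_cases' (hN : 5 < N) {M : Finset (ZMod N ⊕ ZMod N)} (hM : Side f M) :
    (∃ c d x0 m, HA f M c d x0 m) ∨
      ∃ x0, (.inl x0 : ZMod N ⊕ ZMod N) ∉ M ∧ (.inr (f x0) : ZMod N ⊕ ZMod N) ∈ M ∧
        ∀ x, x ≠ x0 → ((.inl x : ZMod N ⊕ ZMod N) ∈ M ↔ (.inr (f x) : ZMod N ⊕ ZMod N) ∈ M) := by
  classical
  obtain ⟨c, d, l, m, x0, h1, h2, h3, h4, h5, h6, h7, h8⟩ :=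
    cut_arcs hN hM.dd (by have := hM.seven; omega) (by have := hM.seven'; omega)
  have nA1 : nA M = l := by
    unfold nA
    simp only [h5]
    exact card_arc c (by omega)
  have nB1 : nB M = m := by
    unfold nB
    simp only [h6]
    exact card_arc d (by omega)
  by_cases hx : (.inl x0 : ZMod N ⊕ ZMod N) ∈ M
  · left
    have hx' : (.inr (f x0) : ZMod N ⊕ ZMod N) ∉ M := fun h => h7 ⟨fun _ => h, fun _ => hx⟩
    have h9 := card_star hx hx' h8
    have h10 : M.card = nA M + nB M := by rw [card_eq_nl_nr, nl_eq, nr_eq]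
    have h11 := hM.seven
    have h12 : l = m + 1 := by omega
    subst h12
    refine ⟨c - 1, d - 1, x0, m, by omega, by omega, by omega, ?_, ?_, hx, hx', h8⟩
    · intro x
      rw [h5]
      exact shift_arc (by omega) h2
    · intro y
      rw [h6]
      exact shift_arc (by omega) h4
  · right
    refine ⟨x0, hx, ?_, h8⟩
    by_contra h
    exact h7 ⟨fun h' => absurd h' hx, fun h' => absurd h' h⟩

theorem side_cases (hN : 5 < N) {M : Finset (ZMod N ⊕ ZMod N)} (hM : Side f M) :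
    (∃ c d x0 m, HA f M c d x0 m) ∨
      ∃ x0, (.inl x0 : ZMod N ⊕ ZMod N) ∉ M ∧ (.inr (f x0) : ZMod N ⊕ ZMod N) ∈ M := by
  rcases side_cases' hN hM with h | ⟨x0, h1, h2, -⟩
  · exact Or.inl h
  · exact Or.inr ⟨x0, h1, h2⟩

section erase

variable {V : Type*} [Fintype V] [DecidableEq V]

/-- Removing a vertex with two outer neighbours. -/
theorem dd_erase (G : SimpleGraph V) [DecidableRel G.Adj] (hreg : ∀ v, G.degree v = 3)
    {M : Finset V} {v u w : V} (hv : v ∈ M) (hu : u ∉ M) (hw : w ∉ M) (huw : u ≠ w)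
    (hvu : G.Adj v u) (hvw : G.Adj v w) : dd G (M.erase v) + 1 ≤ dd G M := by
  have h1 := dd_add G (M.erase v) {v}
  have e1 : M.erase v ∩ {v} = ∅ := by
    ext x
    simp only [mem_inter, mem_erase, mem_singleton, notMem_empty, iff_false]
    rintro ⟨⟨h, _⟩, h'⟩
    exact h h'
  have e2 : M.erase v ∪ {v} = M := by
    ext x
    simp only [mem_union, mem_erase, mem_singleton]
    constructor
    · rintro (⟨_, h⟩ | h)
      · exact h
      · rw [h]; exact hv
    · intro h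
      by_cases h' : x = v
      · exact Or.inr h'
      · exact Or.inl ⟨h', h⟩
  have e3 : M.erase v \ {v} = M.erase v := by
    ext x
    simp only [mem_sdiff, mem_erase, mem_singleton]
    tauto
  have e4 : {v} \ M.erase v = {v} := by
    ext x
    simp only [mem_sdiff, mem_erase, mem_singleton]
    tauto
  have e5 : dd G (∅ : Finset V) = 0 := by unfold dd; simp
  have e6 : dd G {v} = 3 := by
    unfold dd
    rw [sum_singleton]
    have h3 := sum_adj G v
    rw [hreg v, ← sum_add_sum_compl {v}, sum_singleton, if_neg (G.loopless.irrefl v)] at h3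
    rw [zero_add] at h3
    exact h3
  have e7 : eb G (M.erase v) {v} ≤ 1 := by
    rw [eb_comm]
    unfold eb
    rw [sum_singleton]
    have h3 := sum_adj G v
    rw [hreg v, ← sum_add_sum_compl (M.erase v)] at h3
    have h4 : 2 ≤ ∑ x ∈ (M.erase v)ᶜ, (if G.Adj v x then 1 else 0) := by
      have h5 : ({u, w} : Finset V) ⊆ (M.erase v)ᶜ := by
        intro x hx
        rw [mem_insert, mem_singleton] at hx
        rw [mem_compl, mem_erase]
        rintro ⟨_, h6⟩
        rcases hx with rfl | rfl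
        · exact hu h6
        · exact hw h6
      refine le_trans ?_ (sum_le_sum_of_subset h5)
      rw [sum_pair huw]
      simp [hvu, hvw]
    omega
  rw [e1, e2, e3, e4, e5, e6] at h1
  omega

end erase

/-- The star is not at an end. -/
theorem star_inner (hN : 5 < N) (hcyc : CyclicallyEdgeConnected (permGraph N f) 5)
    {M : Finset (ZMod N ⊕ ZMod N)} (hM : Side f M) {x0 u : ZMod N}
    (hu : (permGraph N f).Adj (.inl x0) (.inl u))
    (h1 : (.inl x0 : ZMod N ⊕ ZMod N) ∈ M) (h2 : (.inr (f x0) : ZMod N ⊕ ZMod N) ∉ M) :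
    (.inl u : ZMod N ⊕ ZMod N) ∈ M := by
  classical
  by_contra h3
  have hreg : ∀ v, (permGraph N f).degree v = 3 := permGraph_regular (by omega)
  have h4 := dd_erase (permGraph N f) hreg h1 h2 h3 Sum.inr_ne_inl
    ((adj_lr _ _).mpr rfl) hu
  have h5 := hM.dd
  have h6 := hM.seven
  have h7 := hM.seven'
  have h8 : (M.erase (.inl x0)).card = M.card - 1 := card_erase_of_mem h1
  have h9 : (M.erase (.inl x0))ᶜ.card = Fintype.card (ZMod N ⊕ ZMod N) - (M.card - 1) := by
    rw [card_compl, h8]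
  rw [card_compl] at h7
  have h10 := small_side (permGraph N f) hreg hcyc (M.erase (.inl x0)) (by omega)
  omega

/-- Rigid steps at a set. -/
structure Rig (f : Equiv.Perm (ZMod N)) (M : Finset (ZMod N ⊕ ZMod N)) : Prop where
  hA : ∀ x, ((.inl x : ZMod N ⊕ ZMod N) ∈ M ∨ (.inl (x + 1) : ZMod N ⊕ ZMod N) ∈ M) →
    (f x - f (x + 1)).val % 2 = 1
  hB : ∀ y, ((.inr y : ZMod N ⊕ ZMod N) ∈ M ∨ (.inr (y + 1) : ZMod N ⊕ ZMod N) ∈ M) →
    (f.symm (y + 1) - f.symm y).val % 2 = 1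

theorem rig_of_TM (hN : 5 < N) (hcyc : CyclicallyEdgeConnected (permGraph N f) 5)
    {M : Finset (ZMod N ⊕ ZMod N)} (hM : Side f M) {c d x0 : ZMod N} {m : ℕ}
    (h : HA f M c d x0 m) (ht : ∀ y, (.inr y : ZMod N ⊕ ZMod N) ∈ M → TM f (f.symm y)) :
    Rig f M := by
  have hkept : ∀ x, x ≠ x0 → (.inl x : ZMod N ⊕ ZMod N) ∈ M → TM f x := by
    intro x hx hm
    have := ht _ ((h.other x hx).mp hm)
    rwa [Equiv.symm_apply_apply] at this
  constructor
  · rintro x (hx | hx)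
    · by_cases hx0 : x = x0
      · subst hx0
        have h1 := star_inner hN hcyc hM ((adj_ll (by omega) _ (x + 1)).mpr (Or.inl rfl))
          h.star1 h.star2
        have h2 : x + 1 ≠ x := by
          have : Fact (1 < N) := ⟨by omega⟩
          intro h3
          exact one_ne_zero (α := ZMod N) (by linear_combination h3)
        have h3 := (hkept _ h2 h1).2.1
        rw [add_sub_cancel_right] at h3
        exact h3
      · exact (hkept x hx0 hx).1
    · by_cases hx0 : x + 1 = x0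
      · have h1 := star_inner hN hcyc hM (u := x)
          ((adj_ll (by omega) _ _).mpr (Or.inr hx0.symm)) h.star1 h.star2
        have h2 : x ≠ x0 := by
          have : Fact (1 < N) := ⟨by omega⟩
          intro h3
          exact one_ne_zero (α := ZMod N) (by linear_combination hx0 - h3)
        exact (hkept _ h2 h1).1
      · have h3 := (hkept _ hx0 hx).2.1
        rw [add_sub_cancel_right] at h3
        exact h3
  · rintro y (hy | hy)
    · have h3 := (ht _ hy).2.2.1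
      rw [Equiv.apply_symm_apply] at h3
      exact h3
    · have h3 := (ht _ hy).2.2.2
      rw [Equiv.apply_symm_apply, add_sub_cancel_right] at h3
      exact h3

end

end Pool.Agent.Helper19.RG
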