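import Pool.Agent.Helper19.RG.StepFour
import Pool.Agent.Helper21.RG.Frame
import Pool.Agent.Helper49.RG.Lemma2

/-!
Cyclically 5-edge-connected cycle permutation graphs: assembly. (Problem MP_d067c8_co.)
-/

namespace Pool.Agent.Helper19.RG

open Finset Pool.Agent.Helper19.CF

section

variable {N : ℕ} [NeZero N] {f : Equiv.Perm (ZMod N)}

/-- No nontrivial 5-edge-cut: any near-perfect matching gives a flow. -/
theorem flow_noside (h7 : 7 ≤ N) (hodd : N % 2 = 1)
    (hcyc : CyclicallyEdgeConnected (permGraph N f) 5) (hno : ∀ Y, ¬ Side f Y) :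
    HasFlow (permGraph N f) (9 / 2) := by
  classical
  obtain ⟨Z, s, t, b, hD⟩ := near_all f h7 hodd (noFour_of_cyc f (by omega) hcyc)
  have hreg : ∀ v, (permGraph N f).degree v = 3 := permGraph_regular (by omega)
  refine hasFlow_nine_halves hreg hD ?_
  intro Y hY h1 h2
  have h3 := hcyc _ h1 h2
  rw [cutSize_coe] at h3
  refine ⟨by omega, fun h5 => ?_⟩
  obtain ⟨h7, h7'⟩ := not_thin (by omega) hcyc hD hY h5
  exact hno Y ⟨by rw [cutSize_coe]; exact h5, h7, h7'⟩

/-- The rows of the proof. -/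
structure Rows (N : ℕ) [NeZero N] : Prop where
  nine : ∀ (g : Equiv.Perm (ZMod N)) (c d : ZMod N), Bad g → M7 g c d →
    ∀ X : Finset (ZMod N ⊕ ZMod N), Side g X → X.card = 9 → ¬ m7 c d ⊆ X
  free : ∀ (g : Equiv.Perm (ZMod N)) (S : Finset (ZMod N ⊕ ZMod N)), Bad g → Min9 g S →
    ∀ (Y : Finset (ZMod N ⊕ ZMod N)), Side g Y → ∀ x : ZMod N, Inner g S x →
      ¬ ((.inl x : ZMod N ⊕ ZMod N) ∈ Y ↔ (.inr (g x) : ZMod N ⊕ ZMod N) ∈ Y) → False
  w1 : ∀ (g : Equiv.Perm (ZMod N)) (c d : ZMod N), Bad g → M7 g c d →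
    (g (g.symm (d + 3) - 1) - (d + 3)).val % 2 = 0 → NoStar g (c - 1) → NoStar g (c - 2) →
    NoStar g (g.symm (d + 3)) → False
  w1' : ∀ (g : Equiv.Perm (ZMod N)) (c d : ZMod N), Bad g → M7 g c d →
    (d - 1 - g (g.symm (d - 1) + 1)).val % 2 = 0 → NoStar g (c + 1) → NoStar g (c - 1) →
    NoStar g (c - 2) → NoStar g (g.symm (d - 1)) → False

theorem no_bad (R : Rows N) (hb : Bad f) : False := by
  have hN := hb.hN
  by_cases hside : ∃ Y, Side f Y
  · obtain ⟨Y, hY⟩ := hside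
    have h9 : ∃ X, Side f X ∧ 9 ≤ X.card := by
      have h1 : Y.card + Yᶜ.card = 2 * N := by
        rw [card_add_card_compl, Fintype.card_sum, ZMod.card]
        ring
      rcases Nat.lt_or_ge Y.card 9 with h | h
      · exact ⟨Yᶜ, hY.compl, by omega⟩
      · exact ⟨Y, hY, h⟩
    obtain ⟨X, hX, hX9⟩ := h9
    obtain ⟨S, -, hS⟩ := Pool.Agent.Helper49.RG.exists_min9 hX hX9
    have hnine : ∀ g : Equiv.Perm (ZMod N), Bad g → ∀ X Y : Finset (ZMod N ⊕ ZMod N), Side g X →
        X.card = 9 → Side g Y → Y.card = 7 → ¬ Y ⊆ X := fun g hg X Y h1 h2 h3 h4 =>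
      no_nine_of (fun g c d hb' h X' hX' h9' => R.nine g c d hb' h X' hX' h9') hg h1 h2 h3 h4
    refine step4 hb hS ?_ (fun g hg Y hY h7 => exists_frame hg hY h7) hnine R.w1 R.w1'
    rintro (u | u) (v | v) huv hu hv Y hY
    · exact absurd huv id
    · have h1 : f u = v := huv
      subst h1
      by_contra hc
      exact R.free f S hb hS Y hY u ⟨hu, hv⟩ hc
    · have h1 : f v = u := huv
      subst h1
      by_contra hc
      exact R.free f S hb hS Y hY v ⟨hv, hu⟩ (fun h => hc h.symm)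
    · exact absurd huv id
  · push Not at hside
    exact hb.noflow (flow_noside (by omega) hb.hodd hb.cyc hside)

theorem flow_all (R : Rows N) (hN : 9 ≤ N) (hodd : N % 2 = 1)
    (hcyc : CyclicallyEdgeConnected (permGraph N f) 5) : HasFlow (permGraph N f) (9 / 2) := by
  by_contra hno
  exact no_bad R ⟨hN, hodd, hcyc, hno⟩

end

end Pool.Agent.Helper19.RG
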