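import Pool.Agent.Helper19.RG.Alt

/-!
The rigid block of a side, and the case without seven-vertex sides inside.
(Problem MP_d067c8_co.)
-/

namespace Pool.Agent.Helper19.RG

open Finset Pool.Agent.Helper19.CF Pool.Agent.Helper46.LemX

section

variable {N : ℕ} [NeZero N] {f : Equiv.Perm (ZMod N)} {M : Finset (ZMod N ⊕ ZMod N)}
  {c d x0 : ZMod N} {m : ℕ}

/-- The parity of a difference. -/
theorem diff_val {u v : ℕ} (hu : u < N) (hv : v < N) (w : ZMod N) :
    (w + (u : ZMod N) - (w + (v : ZMod N))).val = if v ≤ u then u - v else N + u - v := by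
  split_ifs with h
  · have h1 : w + (u : ZMod N) - (w + (v : ZMod N)) = ((u - v : ℕ) : ZMod N) := by
      rw [Nat.cast_sub h]
      ring
    rw [h1, ZMod.val_natCast_of_lt (by omega)]
  · have h1 : w + (u : ZMod N) - (w + (v : ZMod N)) = ((N + u - v : ℕ) : ZMod N) := by
      rw [Nat.cast_sub (by omega)]
      push_cast
      rw [ZMod.natCast_self]
      ring
    rw [h1, ZMod.val_natCast_of_lt (by omega)]

theorem HA.star_range (hb : Bad f) (hM : Side f M) (h : HA f M c d x0 m) :
    2 ≤ (x0 - c).val ∧ (x0 - c).val ≤ m := by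
  have hN := hb.hN
  have hm := h.mN
  obtain ⟨h1, h2, -, -⟩ := hM.starA hb h.star1 h.star2
  have hs := (h.memA x0).mp h.star1
  rw [h.memA] at h1 h2
  have e1 : x0 - 1 - c = (x0 - c) - 1 := by ring
  have e2 : x0 + 1 - c = (x0 - c) + 1 := by ring
  rw [e1, val_sub_one (by omega)] at h2
  rw [e2] at h1
  have hne : x0 - c ≠ 0 := by
    intro h0
    rw [h0, ZMod.val_zero] at hs
    omega
  rw [if_neg hne] at h2
  have hne' : x0 - c ≠ -1 := by
    intro h0
    rw [h0, neg_add_cancel, ZMod.val_zero] at h1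
    omega
  rw [val_succ _ hne'] at h1
  omega

theorem blk_of (hb : Bad f) (hM : Side f M) (hrig : Rig f M) (h : HA f M c d x0 m)
    (hm4 : 4 ≤ m) (h7 : ∀ Y, Side f Y → Y.card = 7 → ¬ Y ⊆ M) :
    Blk m (x0 - c).val (cF f c d) (cX f c d) := by
  have hN := hb.hN
  have hm := h.mN
  have hodd := hb.hodd
  obtain ⟨s1, s2⟩ := h.star_range hb hM
  have hF : ∀ i : ℕ, f (c + i) = d + (cF f c d i : ZMod N) := fun i => add_val _ _ _ rfl
  have hX : ∀ j : ℕ, f.symm (d + j) = c + (cX f c d j : ZMod N) := fun j => add_val _ _ _ rfl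
  have hcard : 2 * m + 1 + 7 ≤ 2 * N := by
    have h1 := hM.seven'
    rw [card_compl, h.card, Fintype.card_sum, ZMod.card] at h1
    omega
  have hcol : ∀ i, 1 ≤ i → i ≤ m → i ≠ (x0 - c).val → i + 1 ≠ (x0 - c).val →
      (cF f c d (i + 1) ≤ cF f c d i → (cF f c d i - cF f c d (i + 1)) % 2 = 1) ∧
      (cF f c d i < cF f c d (i + 1) → (N + cF f c d i - cF f c d (i + 1)) % 2 = 1) := by
    intro i g1 g2 g3 g4
    have c1 := h.col g1 (by omega) g3
    have c2 := h.col (i := i + 1) (by omega) (by omega) g4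
    have r1 := hrig.hA (c + i) (Or.inl c1.2.1)
    have e1 : c + (i : ZMod N) + 1 = c + ((i + 1 : ℕ) : ZMod N) := by push_cast; ring
    rw [e1, hF, hF, diff_val (by omega) (by omega)] at r1
    constructor
    · intro g5
      rw [if_pos g5] at r1
      exact r1
    · intro g5
      rw [if_neg (by omega)] at r1
      exact r1
  have hrow : ∀ j, 1 ≤ j → j + 1 ≤ m →
      (cX f c d j ≤ cX f c d (j + 1) → (cX f c d (j + 1) - cX f c d j) % 2 = 1) ∧
      (cX f c d (j + 1) < cX f c d j → (N + cX f c d (j + 1) - cX f c d j) % 2 = 1) := by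
    intro j g1 g2
    have c1 := h.row g1 (by omega)
    have c2 := h.row (j := j + 1) (by omega) g2
    have r1 := hrig.hB (d + j) (Or.inl c1.2.1)
    have e1 : d + (j : ZMod N) + 1 = d + ((j + 1 : ℕ) : ZMod N) := by push_cast; ring
    rw [e1, hX, hX, diff_val (by omega) (by omega)] at r1
    constructor
    · intro g5
      rw [if_pos g5] at r1
      exact r1
    · intro g5
      rw [if_neg (by omega)] at r1
      exact r1
  constructor
  · exact hm4
  · exact s1
  · exact s2
  · intro i g1 g2 g3
    have := h.col g1 g2 g3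
    exact ⟨this.2.2.2.1, this.2.2.2.2⟩
  · intro j g1 g2
    have := h.row g1 g2
    exact ⟨this.2.2.2.1, this.2.2.2.2.1, this.2.2.2.2.2⟩
  · intro i g1 g2 _
    exact h.XF g1 g2
  · intro j g1 g2
    exact h.FX g1 g2
  · intro i g1 g2 g3 g4 g5
    have := (hcol i g1 g2 g3 g4).2 g5
    omega
  · intro i g1 g2 g3 g4 g5
    have := (hcol i g1 g2 g3 g4).1 g5.le
    omega
  · intro j g1 g2 g5
    have := (hrow j g1 g2).1 g5.le
    omega
  · intro j g1 g2 g5
    have c1 := h.row g1 (by omega)
    have := (hrow j g1 g2).2 g5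
    omega
  · intro i g1 g2 g3 g4
    have h4 := noFour_of_cyc f (by omega) hb.cyc (c + i)
    have e1 : c + (i : ZMod N) + 1 = c + ((i + 1 : ℕ) : ZMod N) := by push_cast; ring
    rw [e1, hF, hF] at h4
    constructor
    · intro g5
      apply h4.1
      rw [g5]
      push_cast
      ring
    · intro g5
      apply h4.2
      rw [g5]
      push_cast
      ring
  · intro a b g1 g2 g3 g4 g5
    have hmem : ∀ (w : ZMod N) (k t : ℕ), (w - (c + (k : ZMod N))).val = t →
        w = c + ((k + t : ℕ) : ZMod N) := by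
      intro w k t ht
      rw [add_val _ _ _ ht]
      push_cast
      ring
    have hmem' : ∀ (w : ZMod N) (k t : ℕ), (w - (d + (k : ZMod N))).val = t →
        w = d + ((k + t : ℕ) : ZMod N) := by
      intro w k t ht
      rw [add_val _ _ _ ht]
      push_cast
      ring
    have hside := side_A (f := f) (Y := arcs (c + (a : ZMod N)) (d + (b : ZMod N)) 4 3)
      (c := c + (a : ZMod N)) (d := d + (b : ZMod N)) (m := 3) (by omega) (by omega) (by omega)
      (by omega) (fun x => mem_arcs_l x) (fun y => mem_arcs_r y) (by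
        intro x hx
        rw [mem_arcs_r] at hx
        have e1 := hmem' (f x) b _ rfl
        have e2 : x = f.symm (d + ((b + (f x - (d + (b : ZMod N))).val : ℕ) : ZMod N)) := by
          rw [← e1, Equiv.symm_apply_apply]
        have e3 := g5 (b + (f x - (d + (b : ZMod N))).val) (by omega) (by omega)
        rw [hX] at e2
        rw [mem_arcs_l, e2]
        have e4 := diff_val (N := N)
          (u := cX f c d (b + (f x - (d + (b : ZMod N))).val)) (v := a) (by omega) (by omega) c
        rw [if_pos e3.1] at e4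
        rw [e4]
        omega)
    refine h7 _ hside.1 hside.2 ?_
    rintro (x | x) hx
    · rw [mem_arcs_l] at hx
      rw [hmem x a _ rfl, h.memA, val_add _ (by omega)]
      omega
    · rw [mem_arcs_r] at hx
      rw [hmem' x b _ rfl, h.memB, val_add _ (by omega)]
      omega
  · intro a b g1 g2 g3 g4 g5
    have hmem : ∀ (w : ZMod N) (k t : ℕ), (w - (c + (k : ZMod N))).val = t →
        w = c + ((k + t : ℕ) : ZMod N) := by
      intro w k t ht
      rw [add_val _ _ _ ht]
      push_cast
      ring
    have hmem' : ∀ (w : ZMod N) (k t : ℕ), (w - (d + (k : ZMod N))).val = t →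
        w = d + ((k + t : ℕ) : ZMod N) := by
      intro w k t ht
      rw [add_val _ _ _ ht]
      push_cast
      ring
    have hside := side_B (f := f) (Y := arcs (c + (a : ZMod N)) (d + (b : ZMod N)) 3 4)
      (c := c + (a : ZMod N)) (d := d + (b : ZMod N)) (m := 3) (by omega) (by omega) (by omega)
      (by omega) (fun x => mem_arcs_l x) (fun y => mem_arcs_r y) (by
        intro x hx
        rw [mem_arcs_l] at hx
        have e1 := hmem x a _ rfl
        have e3 := g5 (a + (x - (c + (a : ZMod N))).val) (by omega) (by omega)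
        rw [mem_arcs_r]
        have e2 : f x = d + (cF f c d (a + (x - (c + (a : ZMod N))).val) : ZMod N) := by
          rw [← hF, ← e1]
        rw [e2]
        have e4 := diff_val (N := N)
          (u := cF f c d (a + (x - (c + (a : ZMod N))).val)) (v := b) (by omega) (by omega) d
        rw [if_pos e3.2.1] at e4
        rw [e4]
        omega)
    refine h7 _ hside.1 hside.2 ?_
    rintro (x | x) hx
    · rw [mem_arcs_l] at hx
      rw [hmem x a _ rfl, h.memA, val_add _ (by omega)]
      omega
    · rw [mem_arcs_r] at hx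
      rw [hmem' x b _ rfl, h.memB, val_add _ (by omega)]
      omega

/-- No seven-vertex side inside: contradiction. -/
theorem rigid_false (hb : Bad f) (hns : NS f M) (hM : Side f M) (hrig : Rig f M)
    (h : HA f M c d x0 m) (hm4 : 4 ≤ m) (h7 : ∀ Y, Side f Y → Y.card = 7 → ¬ Y ⊆ M) : False := by
  rcases lemmaX (blk_of hb hM hrig h hm4 h7) with ⟨e, h1, h2, h3⟩ | ⟨e, h1, h2, h3⟩ |
    ⟨b, h1, h2, h3, h4⟩ | ⟨b, h1, h2, h3, h4⟩
  · exact alt1 hb hns hrig h h1 h2 h3
  · exact alt2 hb hns hrig h h1 h2 h3
  · exact alt3 hb hns hrig h h1 h2 h3 h4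
  · exact alt4 hb hns hrig h h1 h2 h3 h4

/-- The types of the inner spokes. -/
theorem types (hb : Bad f) (hns : NS f M) (h : HA f M c d x0 m) :
    (∀ y, (.inr y : ZMod N ⊕ ZMod N) ∈ M → TM f (f.symm y)) ∨
      ∀ y, (.inr y : ZMod N ⊕ ZMod N) ∈ M → TP f (f.symm y) := by
  have hN := hb.hN
  have hm := h.mN
  have hm3 := h.m3
  have hty : ∀ y, (.inr y : ZMod N ⊕ ZMod N) ∈ M → TM f (f.symm y) ∨ TP f (f.symm y) := by
    intro y hy
    apply corner_type (by omega) hb.hodd hb.cyc hb.noflow
    have h1 : f.symm y ≠ x0 := by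
      intro h1
      rw [Equiv.symm_apply_eq] at h1
      rw [h1] at hy
      exact h.star2 hy
    have h2 := h.other _ h1
    rw [Equiv.apply_symm_apply] at h2
    exact hns.noStar (h2.mpr hy) (by rw [Equiv.apply_symm_apply]; exact hy)
  have harc : ∀ y : ZMod N, (y - (d + 1)).val < m ↔ (.inr y : ZMod N ⊕ ZMod N) ∈ M := by
    intro y
    rw [h.memB, shift_arc (by omega) (by omega), add_sub_cancel_right]
  rcases type_arc (f := f) (d := d + 1) (m := m) (by omega)
    (fun y hy => hty y ((harc y).mp hy)) with g | g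
  · exact Or.inl fun y hy => g y ((harc y).mpr hy)
  · exact Or.inr fun y hy => g y ((harc y).mpr hy)

end

end Pool.Agent.Helper19.RG
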