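import Pool.Agent.Helper19.CF.Perm
import Pool.Agent.Helper61.Rigid.Defs

/-!
From a certificate (helper61) to the near-perfect matching of a cycle permutation graph.
(Problem MP_d067c8_co.)
-/

namespace Pool.Agent.Helper19.RG

open Pool.Agent.Helper19.CF Pool.Agent.Helper61.Rigid

section pos

variable {N : ℕ} [NeZero N]

/-- The position `1, ..., N` of `x` after `c`. -/
def pos (c x : ZMod N) : ℕ := if x = c then N else (x - c).val

theorem pos_range (c x : ZMod N) : 1 ≤ pos c x ∧ pos c x ≤ N := by
  unfold pos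
  have hN := Nat.pos_of_ne_zero (NeZero.ne N)
  split_ifs with h
  · exact ⟨hN, le_rfl⟩
  · have h1 : (x - c).val ≠ 0 := by
      rw [Ne, ZMod.val_eq_zero, sub_eq_zero]
      exact h
    have h2 := ZMod.val_lt (x - c)
    omega

theorem pos_spec (c x : ZMod N) : c + (pos c x : ZMod N) = x := by
  unfold pos
  split_ifs with h
  · rw [h]; simp
  · rw [ZMod.natCast_zmod_val]; ring

omit [NeZero N] in
theorem pos_unique (c x : ZMod N) (a : ℕ) (h1 : 1 ≤ a) (h2 : a ≤ N) (h : c + (a : ZMod N) = x) :
    pos c x = a := by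
  subst h
  unfold pos
  rcases Nat.lt_or_ge a N with h3 | h3
  · have h4 : (c + (a : ZMod N) - c) = a := by ring
    rw [if_neg, h4, ZMod.val_natCast_of_lt h3]
    intro h5
    have h6 : (a : ZMod N) = 0 := by simpa using h5
    have h7 := congrArg ZMod.val h6
    rw [ZMod.val_natCast_of_lt h3, ZMod.val_zero] at h7
    omega
  · have h4 : a = N := by omega
    rw [h4, if_pos]
    simp

theorem pos_succ (c x : ZMod N) : pos c (x + 1) = nx N (pos c x) := by
  have h1 := pos_range c x
  have h2 := pos_spec c x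
  unfold nx
  split_ifs with h3
  · apply pos_unique c _ 1 le_rfl (Nat.pos_of_ne_zero (NeZero.ne N))
    rw [h3] at h2
    rw [← h2]
    simp
  · apply pos_unique c _ _ (by omega) (by omega)
    have h4 : c + ((pos c x + 1 : ℕ) : ZMod N) = c + (pos c x : ZMod N) + 1 := by
      push_cast
      ring
    rw [h4, h2]

theorem pos_pred (c x : ZMod N) : pos c (x - 1) = pv N (pos c x) := by
  have h1 := pos_range c x
  have h2 := pos_spec c x
  unfold pv
  split_ifs with h3
  · apply pos_unique c _ N (Nat.pos_of_ne_zero (NeZero.ne N)) le_rfl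
    rw [h3] at h2
    rw [← h2]
    simp
  · apply pos_unique c _ _ (by omega) (by omega)
    have h4 : c + ((pos c x - 1 : ℕ) : ZMod N) = c + (pos c x : ZMod N) - 1 := by
      rw [Nat.cast_sub h1.1]
      push_cast
      ring
    rw [h4, h2]

theorem pos_inj {c x y : ZMod N} (h : pos c x = pos c y) : x = y := by
  rw [← pos_spec c x, ← pos_spec c y, h]

end pos

/-- The matching of a certificate. -/
def cZ {N : ℕ} (f : Equiv.Perm (ZMod N)) (e : ZMod N) (zA zB X : ℕ → Prop) :
    ZMod N ⊕ ZMod N → ZMod N ⊕ ZMod N → Prop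
  | .inl x, .inl y => (y = x + 1 ∧ zA (pos e x)) ∨ (x = y + 1 ∧ zA (pos e y))
  | .inr x, .inr y => (y = x + 1 ∧ zB (pos (f e) x)) ∨ (x = y + 1 ∧ zB (pos (f e) y))
  | .inl x, .inr y => f x = y ∧ ¬ X (pos e x)
  | .inr y, .inl x => f x = y ∧ ¬ X (pos e x)

/-- The colour of a vertex. -/
def cC {N : ℕ} (f : Equiv.Perm (ZMod N)) (e : ZMod N) (cA cB : ℕ → ℕ) : ZMod N ⊕ ZMod N → ℕ
  | .inl x => cA (pos e x)
  | .inr y => cB (pos (f e) y)

/-- The vertex of a pair. -/
def vx {N : ℕ} (f : Equiv.Perm (ZMod N)) (e : ZMod N) (s : Bool × ℕ) : ZMod N ⊕ ZMod N :=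
  if s.1 = true then .inl (e + s.2) else .inr (f (e + s.2))

section

variable {N : ℕ} [NeZero N] {f : Equiv.Perm (ZMod N)} {e : ZMod N} {sig : ℕ → ℕ}
  {zA zB X : ℕ → Prop} {cA cB : ℕ → ℕ} {s t : Bool × ℕ}

omit [NeZero N] in
theorem cZ_symm (u v : ZMod N ⊕ ZMod N) (h : cZ f e zA zB X u v) : cZ f e zA zB X v u := by
  rcases u with x | x <;> rcases v with y | y
  · exact h.symm
  · exact h
  · exact h
  · exact h.symm

theorem row_eq (hsig : ∀ a, 1 ≤ a → a ≤ N → 1 ≤ sig a ∧ sig a ≤ N)
    (hf : ∀ a : ℕ, 1 ≤ a → a ≤ N → f (e + a) = f e + sig a) (x : ZMod N) :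
    pos (f e) (f x) = sig (pos e x) := by
  have h1 := pos_range e x
  have h2 := hsig _ h1.1 h1.2
  apply pos_unique _ _ _ h2.1 h2.2
  rw [← hf _ h1.1 h1.2, pos_spec]

theorem nearData_of_cert (hN : 2 < N) (h : Cert N sig zA zB X cA cB s t)
    (hsig : ∀ a, 1 ≤ a → a ≤ N → 1 ≤ sig a ∧ sig a ≤ N)
    (hf : ∀ a : ℕ, 1 ≤ a → a ≤ N → f (e + a) = f e + sig a) :
    NearData (permGraph N f) (cZ f e zA zB X) (vx f e s) (vx f e t)
      (fun v => if (cC f e cA cB v + cC f e cA cB (vx f e s)) % 2 = 0 then 1 else -1) := by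
  have hrow := row_eq hsig hf
  have h11 : (1 : ZMod N) ≠ 0 := by
    have : Fact (1 < N) := ⟨by omega⟩
    exact one_ne_zero
  -- a missed vertex has no partner
  have hno : ∀ s : Bool × ℕ, 1 ≤ s.2 → s.2 ≤ N → X s.2 →
      (s.1 = true → ¬ (zA (pv N s.2) ∨ zA s.2)) →
      (s.1 = false → ¬ (zB (pv N (sig s.2)) ∨ zB (sig s.2))) →
      ∀ v, ¬ cZ f e zA zB X (vx f e s) v := by
    intro s h1 h2 h3 h4 h5 v hz
    have h6 : pos e (e + (s.2 : ZMod N)) = s.2 := pos_unique _ _ _ h1 h2 rfl
    have h7 : pos (f e) (f (e + (s.2 : ZMod N))) = sig s.2 := by rw [hrow, h6]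
    unfold vx at hz
    rcases hs : s.1 with _ | _
    · rw [hs, if_neg (by simp)] at hz
      rcases v with y | y
      · have h8 : f y = f (e + (s.2 : ZMod N)) := hz.1
        have h9 := f.injective h8
        have h10 : ¬ X (pos e y) := hz.2
        rw [h9, h6] at h10
        exact h10 h3
      · rcases hz with hz | hz
        · rw [h7] at hz
          exact h5 hs (Or.inr hz.2)
        · have h8 : y = f (e + (s.2 : ZMod N)) - 1 := by rw [hz.1]; ring
          rw [h8, pos_pred, h7] at hz
          exact h5 hs (Or.inl hz.2)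
    · rw [hs, if_pos rfl] at hz
      rcases v with y | y
      · rcases hz with hz | hz
        · rw [h6] at hz
          exact h4 hs (Or.inr hz.2)
        · have h8 : y = e + (s.2 : ZMod N) - 1 := by rw [hz.1]; ring
          rw [h8, pos_pred, h6] at hz
          exact h4 hs (Or.inl hz.2)
      · rw [show cZ f e zA zB X (.inl (e + (s.2 : ZMod N))) (.inr y) =
          (f (e + (s.2 : ZMod N)) = y ∧ ¬ X (pos e (e + (s.2 : ZMod N)))) from rfl, h6] at hz
        exact hz.2 h3
  have hcovA : ∀ s' : Bool × ℕ, (s' = s ∨ s' = t) → 1 ≤ s'.2 → s'.2 ≤ N → X s'.2 →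
      s'.1 = true → ¬ (zA (pv N s'.2) ∨ zA s'.2) := by
    intro s' h1 h2 h3 h4 h5 h6
    have h7 := (h.covA _ h2 h3 h4).mp h6
    have h8 : (true, s'.2) = s' := by rw [← h5]
    rw [h8] at h7
    rcases h1 with h1 | h1
    · exact h7.1 h1
    · exact h7.2 h1
  have hcovB : ∀ s' : Bool × ℕ, (s' = s ∨ s' = t) → 1 ≤ s'.2 → s'.2 ≤ N → X s'.2 →
      s'.1 = false → ¬ (zB (pv N (sig s'.2)) ∨ zB (sig s'.2)) := by
    intro s' h1 h2 h3 h4 h5 h6
    have h7 := (h.covB _ h2 h3 h4).mp h6
    have h8 : (false, s'.2) = s' := by rw [← h5]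
    rw [h8] at h7
    rcases h1 with h1 | h1
    · exact h7.1 h1
    · exact h7.2 h1
  constructor
  · -- the missed vertices are different
    intro h1
    apply h.st
    have hpe : ∀ s' : Bool × ℕ, 1 ≤ s'.2 → s'.2 ≤ N →
        pos e (e + (s'.2 : ZMod N)) = s'.2 := fun s' g1 g2 => pos_unique _ _ _ g1 g2 rfl
    have hs := hpe s h.smem.1 h.smem.2.1
    have ht := hpe t h.tmem.1 h.tmem.2.1
    have key : ∀ g : (ZMod N), ∀ g' : ZMod N, g = g' → pos e g = pos e g' := by
      intro g g' hg; rw [hg]
    unfold vx at h1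
    rcases hs1 : s.1 with _ | _ <;> rcases ht1 : t.1 with _ | _
    · simp only [hs1, ht1, Bool.false_eq_true, if_false, Sum.inr.injEq] at h1
      have h2 := key _ _ (f.injective h1)
      rw [hs, ht] at h2
      exact Prod.ext (hs1.trans ht1.symm) h2
    · simp [hs1, ht1] at h1
    · simp [hs1, ht1] at h1
    · simp only [hs1, ht1, if_true, Sum.inl.injEq] at h1
      have h2 := key _ _ h1
      rw [hs, ht] at h2
      exact Prod.ext (hs1.trans ht1.symm) h2
  · exact cZ_symm
  · rintro (x | x) (y | y) hz
    · rw [adj_ll (by omega)]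
      rcases hz with hz | hz
      · exact Or.inl hz.1
      · exact Or.inr hz.1
    · rw [adj_lr]; exact hz.1
    · rw [adj_rl]; exact hz.1
    · rw [adj_rr (by omega)]
      rcases hz with hz | hz
      · exact Or.inl hz.1
      · exact Or.inr hz.1
  · exact hno s h.smem.1 h.smem.2.1 h.smem.2.2
      (hcovA s (Or.inl rfl) h.smem.1 h.smem.2.1 h.smem.2.2)
      (hcovB s (Or.inl rfl) h.smem.1 h.smem.2.1 h.smem.2.2)
  · exact hno t h.tmem.1 h.tmem.2.1 h.tmem.2.2
      (hcovA t (Or.inr rfl) h.tmem.1 h.tmem.2.1 h.tmem.2.2)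
      (hcovB t (Or.inr rfl) h.tmem.1 h.tmem.2.1 h.tmem.2.2)
  · rintro (x | x) hs ht
    · have hr := pos_range e x
      have hvx : vx f e (true, pos e x) = .inl x := by
        unfold vx
        rw [if_pos rfl]
        show Sum.inl (e + (pos e x : ZMod N)) = _
        rw [pos_spec]
      by_cases hX : X (pos e x)
      · have hne : (true, pos e x) ≠ s ∧ (true, pos e x) ≠ t := by
          constructor
          · intro h1; apply hs; rw [← h1, hvx]
          · intro h1; apply ht; rw [← h1, hvx]
        have hone := h.oneA _ hr.1 hr.2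
        rcases (h.covA _ hr.1 hr.2 hX).mpr hne with h1 | h1
        · refine ⟨.inl (x - 1), Or.inr ⟨by ring, by rw [pos_pred]; exact h1⟩, ?_⟩
          rintro (y | y) hy
          · rcases hy with hy | hy
            · exact absurd ⟨h1, hy.2⟩ hone
            · rw [hy.1]; simp
          · exact absurd hX hy.2
        · refine ⟨.inl (x + 1), Or.inl ⟨rfl, h1⟩, ?_⟩
          rintro (y | y) hy
          · rcases hy with hy | hy
            · rw [hy.1]
            · exfalso
              have h2 : y = x - 1 := by rw [hy.1]; ring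
              rw [h2, pos_pred] at hy
              exact hone ⟨hy.2, h1⟩
          · exact absurd hX hy.2
      · have hn := h.notX _ hr.1 hr.2 hX
        refine ⟨.inr (f x), ⟨rfl, hX⟩, ?_⟩
        rintro (y | y) hy
        · rcases hy with hy | hy
          · exact absurd hy.2 hn.1
          · have h2 : y = x - 1 := by rw [hy.1]; ring
            rw [h2, pos_pred] at hy
            exact absurd hy.2 hn.2.1
        · rw [hy.1]
    · set w := f.symm x with hw
      have hfx : f w = x := by simp [hw]
      have hr := pos_range e w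
      have hrw : pos (f e) x = sig (pos e w) := by rw [← hfx, hrow]
      have hvx : vx f e (false, pos e w) = .inr x := by
        unfold vx
        rw [if_neg (by simp)]
        show Sum.inr (f (e + (pos e w : ZMod N))) = _
        rw [pos_spec, hfx]
      by_cases hX : X (pos e w)
      · have hne : (false, pos e w) ≠ s ∧ (false, pos e w) ≠ t := by
          constructor
          · intro h1; apply hs; rw [← h1, hvx]
          · intro h1; apply ht; rw [← h1, hvx]
        have hsr := hsig _ hr.1 hr.2
        have hone := h.oneB _ hsr.1 hsr.2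
        rcases (h.covB _ hr.1 hr.2 hX).mpr hne with h1 | h1
        · refine ⟨.inr (x - 1), Or.inr ⟨by ring, by rw [pos_pred, hrw]; exact h1⟩, ?_⟩
          rintro (y | y) hy
          · have h3 : y = w := by rw [hw, ← hy.1]; simp
            rw [h3] at hy
            exact absurd hX hy.2
          · rcases hy with hy | hy
            · rw [hrw] at hy
              exact absurd ⟨h1, hy.2⟩ hone
            · rw [hy.1]; simp
        · refine ⟨.inr (x + 1), Or.inl ⟨rfl, by rw [hrw]; exact h1⟩, ?_⟩
          rintro (y | y) hy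
          · have h3 : y = w := by rw [hw, ← hy.1]; simp
            rw [h3] at hy
            exact absurd hX hy.2
          · rcases hy with hy | hy
            · rw [hy.1]
            · exfalso
              have h2 : y = x - 1 := by rw [hy.1]; ring
              rw [h2, pos_pred, hrw] at hy
              exact hone ⟨hy.2, h1⟩
      · have hn := h.notX _ hr.1 hr.2 hX
        refine ⟨.inl w, ⟨hfx, hX⟩, ?_⟩
        rintro (y | y) hy
        · have h3 : y = w := by rw [hw, ← hy.1]; simp
          rw [h3]
        · rcases hy with hy | hy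
          · rw [hrw] at hy
            exact absurd hy.2 hn.2.2.1
          · have h2 : y = x - 1 := by rw [hy.1]; ring
            rw [h2, pos_pred, hrw] at hy
            exact absurd hy.2 hn.2.2.2
  · intro v
    by_cases h1 : (cC f e cA cB v + cC f e cA cB (vx f e s)) % 2 = 0
    · left; exact if_pos h1
    · right; exact if_neg h1
  · have key : ∀ u v, (permGraph N f).Adj u v → ¬ cZ f e zA zB X u v →
        (cC f e cA cB u + cC f e cA cB v) % 2 = 1 := by
      have kA : ∀ x, ¬ cZ f e zA zB X (.inl x) (.inl (x + 1)) →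
          (cC f e cA cB (.inl x) + cC f e cA cB (.inl (x + 1))) % 2 = 1 := by
        intro x hz
        have hr := pos_range e x
        show (cA (pos e x) + cA (pos e (x + 1))) % 2 = 1
        rw [pos_succ]
        exact h.colA _ hr.1 hr.2 fun h1 => hz (Or.inl ⟨rfl, h1⟩)
      have kB : ∀ x, ¬ cZ f e zA zB X (.inr x) (.inr (x + 1)) →
          (cC f e cA cB (.inr x) + cC f e cA cB (.inr (x + 1))) % 2 = 1 := by
        intro x hz
        have hr := pos_range (f e) x
        show (cB (pos (f e) x) + cB (pos (f e) (x + 1))) % 2 = 1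
        rw [pos_succ]
        exact h.colB _ hr.1 hr.2 fun h1 => hz (Or.inl ⟨rfl, h1⟩)
      have kS : ∀ x, ¬ cZ f e zA zB X (.inl x) (.inr (f x)) →
          (cC f e cA cB (.inl x) + cC f e cA cB (.inr (f x))) % 2 = 1 := by
        intro x hz
        have hr := pos_range e x
        show (cA (pos e x) + cB (pos (f e) (f x))) % 2 = 1
        rw [hrow]
        refine h.colX _ hr.1 hr.2 ?_
        by_contra h1
        exact hz ⟨rfl, h1⟩
      rintro (x | x) (y | y) hadj hz
      · rw [adj_ll (by omega)] at hadj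
        rcases hadj with rfl | rfl
        · exact kA x hz
        · rw [add_comm]
          exact kA y (fun h1 => hz (cZ_symm _ _ h1))
      · rw [adj_lr] at hadj
        subst hadj
        exact kS x hz
      · rw [adj_rl] at hadj
        subst hadj
        rw [add_comm]
        exact kS y (fun h1 => hz (cZ_symm _ _ h1))
      · rw [adj_rr (by omega)] at hadj
        rcases hadj with rfl | rfl
        · exact kB x hz
        · rw [add_comm]
          exact kB y (fun h1 => hz (cZ_symm _ _ h1))
    intro u v hadj hz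
    have h1 := key u v hadj hz
    show (if (cC f e cA cB v + cC f e cA cB (vx f e s)) % 2 = 0 then (1 : ℤ) else -1) =
      -(if (cC f e cA cB u + cC f e cA cB (vx f e s)) % 2 = 0 then (1 : ℤ) else -1)
    split_ifs <;> first | rfl | omega
  · show (if _ then (1 : ℤ) else -1) = 1
    rw [if_pos (by omega)]

end

end Pool.Agent.Helper19.RG
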