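import Pool.Agent.Helper19.RG.Word

/-!
Corners: words with three spokes. (Problem MP_d067c8_co.)
-/

namespace Pool.Agent.Helper19.RG

open Finset Pool.Agent.Helper19.CF

section

variable {N : ℕ} [NeZero N] {f : Equiv.Perm (ZMod N)}

/-- The spokes of a corner. -/
def cq (f : Equiv.Perm (ZMod N)) (x ε η : ZMod N) (i : ℤ) : ZMod N :=
  if i = 0 then x + ε else if i = 1 then x else f.symm (f x + η)

theorem corner_wd {x ε η p r : ZMod N} (hε : x + ε ≠ x) (hη : f x + η ≠ f x)
    (hp : (x + ε = p ∧ x = p + 1) ∨ (x + ε = p + 1 ∧ x = p))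
    (hr : (f x = r ∧ f x + η = r + 1) ∨ (f x = r + 1 ∧ f x + η = r))
    (h4 : f (x + ε) ≠ f x + η)
    (h0 : ((x + ε - p - 1).val + (f (x + ε) - r - 1).val) % 2 =
      ((x - p - 1).val + (f x - r - 1).val) % 2)
    (h2 : ((f.symm (f x + η) - p - 1).val + (f x + η - r - 1).val) % 2 =
      ((x - p - 1).val + (f x - r - 1).val) % 2) :
    Wd f 0 2 (cq f x ε η) p r 0 1 := by
  have q0 : cq f x ε η 0 = x + ε := by simp [cq]
  have q1 : cq f x ε η 1 = x := by simp [cq]
  have q2 : cq f x ε η 2 = f.symm (f x + η) := by simp [cq]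
  have n1 : f.symm (f x + η) ≠ x := by
    intro h
    rw [Equiv.symm_apply_eq] at h
    exact hη h
  have n2 : f.symm (f x + η) ≠ x + ε := by
    intro h
    rw [Equiv.symm_apply_eq] at h
    exact h4 h.symm
  have hcase : ∀ i : ℤ, 0 ≤ i → i ≤ 2 → i = 0 ∨ i = 1 ∨ i = 2 := by
    intro i h1 h2
    omega
  constructor
  · intro i i' h1 h3 h1' h3' h
    rcases hcase i h1 h3 with rfl | rfl | rfl <;> rcases hcase i' h1' h3' with rfl | rfl | rfl
    · rfl
    · rw [q0, q1] at h; exact absurd h hε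
    · rw [q0, q2] at h; exact absurd h.symm n2
    · rw [q0, q1] at h; exact absurd h.symm hε
    · rfl
    · rw [q1, q2] at h; exact absurd h.symm n1
    · rw [q0, q2] at h; exact absurd h n2
    · rw [q1, q2] at h; exact absurd h n1
    · rfl
  · intro i h1 h3 h5
    have h6 : i = 0 := by omega
    subst h6
    rw [zero_add, q0, q1]
    rcases hp with ⟨g1, g2⟩ | ⟨g1, g2⟩
    · left; rw [g1]; exact g2
    · right; rw [g1, g2]
  · intro i h1 h3 h5
    have h6 : i = 1 := by omega
    subst h6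
    rw [one_add_one_eq_two, q1, q2, Equiv.apply_symm_apply]
    rcases hr with ⟨g1, g2⟩ | ⟨g1, g2⟩
    · left; rw [g2, g1]
    · right; rw [g2, g1]
  · norm_num
  · norm_num
  · norm_num
  · rw [zero_add, q0, q1]; exact hp
  · norm_num
  · norm_num
  · norm_num
  · rw [one_add_one_eq_two, q1, q2, Equiv.apply_symm_apply]; exact hr
  · refine ⟨(x - p - 1).val + (f x - r - 1).val, fun i h1 h3 => ?_⟩
    rcases hcase i h1 h3 with rfl | rfl | rfl
    · rw [q0]; exact h0
    · rw [q1]
    · rw [q2, Equiv.apply_symm_apply]; exact h2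

/-- No nontrivial 5-edge-cut contains the spoke `x`. -/
def NoStar (f : Equiv.Perm (ZMod N)) (x : ZMod N) : Prop :=
  ∀ Y, Side f Y → ((.inl x : ZMod N ⊕ ZMod N) ∈ Y ↔ (.inr (f x) : ZMod N ⊕ ZMod N) ∈ Y)

theorem no_corner (hN : 5 < N) (hodd : N % 2 = 1)
    (hcyc : CyclicallyEdgeConnected (permGraph N f) 5)
    (hno : ¬ HasFlow (permGraph N f) (9 / 2)) {x ε η p r : ZMod N}
    (hx : NoStar f x) (h : Wd f 0 2 (cq f x ε η) p r 0 1) : False := by
  obtain ⟨e, Y, k, hk⟩ := h.kill hN hodd hcyc hno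
  have h1 : k = 1 := by
    have := hk.between
    omega
  subst h1
  have h2 := hk.entIn 1 (by norm_num) le_rfl
  have h3 := hk.exOut 1 le_rfl (by norm_num)
  have q1 : cq f x ε η 1 = x := by simp [cq]
  unfold ent at h2
  unfold ext at h3
  rw [if_neg (by norm_num), q1] at h2 h3
  exact h3 ((hx Y hk.side).mp h2)

/-- The two rigid types. -/
def TM (f : Equiv.Perm (ZMod N)) (x : ZMod N) : Prop :=
  (f x - f (x + 1)).val % 2 = 1 ∧ (f (x - 1) - f x).val % 2 = 1 ∧
    (f.symm (f x + 1) - x).val % 2 = 1 ∧ (x - f.symm (f x - 1)).val % 2 = 1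

def TP (f : Equiv.Perm (ZMod N)) (x : ZMod N) : Prop :=
  (f x - f (x + 1)).val % 2 = 0 ∧ (f (x - 1) - f x).val % 2 = 0 ∧
    (f.symm (f x + 1) - x).val % 2 = 0 ∧ (x - f.symm (f x - 1)).val % 2 = 0

theorem val_flip (hodd : N % 2 = 1) {u v : ZMod N} (h : u ≠ v) :
    ((u - v).val + (v - u).val) % 2 = 1 := by
  have h1 : v - u = -(u - v) := by ring
  rw [h1, val_neg' _ (sub_ne_zero.mpr h)]
  have := ZMod.val_lt (u - v)
  omega

theorem corner_type (hN : 5 < N) (hodd : N % 2 = 1)
    (hcyc : CyclicallyEdgeConnected (permGraph N f) 5)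
    (hno : ¬ HasFlow (permGraph N f) (9 / 2)) {x : ZMod N} (hx : NoStar f x) :
    TM f x ∨ TP f x := by
  have : Fact (1 < N) := ⟨by omega⟩
  have h11 : (1 : ZMod N) ≠ 0 := one_ne_zero
  have e1 : (1 : ZMod N) = 1 ∨ (1 : ZMod N) = -1 := Or.inl rfl
  have e2 : (-1 : ZMod N) = 1 ∨ (-1 : ZMod N) = -1 := Or.inr rfl
  have hm1 : (-1 : ZMod N).val = N - 1 := val_neg_one' (by omega)
  have hn1 : ∀ u : ZMod N, u + 1 ≠ u := fun u h => h11 (by linear_combination h)
  have hn2 : ∀ u : ZMod N, u + -1 ≠ u := fun u h => h11 (by linear_combination -h)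
  have hsub : ∀ w : ZMod N, w ≠ 0 → (w - 1).val + 1 = w.val := by
    intro w hw
    rw [val_sub_one (by omega), if_neg hw]
    have : w.val ≠ 0 := by rw [Ne, ZMod.val_eq_zero]; exact hw
    omega
  have hfa : f (x + 1) - f x ≠ 0 := by
    rw [sub_ne_zero]
    exact fun h => hn1 x (f.injective h)
  have hfb : f (x - 1) - f x ≠ 0 := by
    rw [sub_ne_zero]
    exact fun h => hn2 x (by rw [← sub_eq_add_neg]; exact f.injective h)
  have hga : f.symm (f x + 1) - x ≠ 0 := by
    rw [sub_ne_zero]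
    intro h
    rw [Equiv.symm_apply_eq] at h
    exact hn1 _ h
  have hgb : f.symm (f x - 1) - x ≠ 0 := by
    rw [sub_ne_zero]
    intro h
    rw [Equiv.symm_apply_eq] at h
    exact hn2 (f x) (by rw [← sub_eq_add_neg]; exact h)
  -- (+,+)
  have c1 : ¬ ((f (x + 1) - f x).val % 2 = 1 ∧ (f.symm (f x + 1) - x).val % 2 = 1) := by
    rintro ⟨g1, g2⟩
    refine no_corner hN hodd hcyc hno (x := x) (ε := 1) (η := 1) (p := x) (r := f x) hx
      (corner_wd (hn1 _) (hn1 _) (Or.inr ⟨rfl, rfl⟩) (Or.inl ⟨rfl, rfl⟩)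
        (no_four (by omega) hcyc e1 e1) ?_ ?_)
    · have a1 : x + 1 - x - 1 = 0 := by ring
      have a2 : x - x - 1 = -1 := by ring
      have a3 : f x - f x - 1 = -1 := by ring
      have a4 := hsub _ hfa
      rw [a1, a2, a3, hm1, ZMod.val_zero]
      omega
    · have a1 : f x + 1 - f x - 1 = 0 := by ring
      have a2 : x - x - 1 = -1 := by ring
      have a3 : f x - f x - 1 = -1 := by ring
      have a4 := hsub _ hga
      rw [a1, a2, a3, hm1, ZMod.val_zero]
      omega
  -- (+,-)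
  have c2 : ¬ ((f (x + 1) - f x).val % 2 = 0 ∧ (f.symm (f x - 1) - x).val % 2 = 1) := by
    rintro ⟨g1, g2⟩
    refine no_corner hN hodd hcyc hno (x := x) (ε := 1) (η := -1) (p := x) (r := f x - 1) hx
      (corner_wd (hn1 _) (hn2 _) (Or.inr ⟨rfl, rfl⟩) (Or.inr ⟨by ring, by ring⟩)
        (no_four (by omega) hcyc e1 e2) ?_ ?_)
    · have a1 : x + 1 - x - 1 = 0 := by ring
      have a2 : x - x - 1 = -1 := by ring
      have a3 : f x - (f x - 1) - 1 = 0 := by ring
      have a4 : f (x + 1) - (f x - 1) - 1 = f (x + 1) - f x := by ring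
      rw [a1, a2, a3, a4, hm1, ZMod.val_zero]
      omega
    · have a1 : f x + -1 - (f x - 1) - 1 = -1 := by ring
      have a2 : x - x - 1 = -1 := by ring
      have a3 : f x - (f x - 1) - 1 = 0 := by ring
      have a4 := hsub _ hgb
      rw [a1, a2, a3, hm1, ZMod.val_zero, ← sub_eq_add_neg]
      omega
  -- (-,+)
  have c3 : ¬ ((f (x - 1) - f x).val % 2 = 1 ∧ (f.symm (f x + 1) - x).val % 2 = 0) := by
    rintro ⟨g1, g2⟩
    refine no_corner hN hodd hcyc hno (x := x) (ε := -1) (η := 1) (p := x - 1) (r := f x) hx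
      (corner_wd (hn2 _) (hn1 _) (Or.inl ⟨by ring, by ring⟩) (Or.inl ⟨rfl, rfl⟩)
        (no_four (by omega) hcyc e2 e1) ?_ ?_)
    · have a1 : x + -1 - (x - 1) - 1 = -1 := by ring
      have a2 : x - (x - 1) - 1 = 0 := by ring
      have a3 : f x - f x - 1 = -1 := by ring
      have a4 := hsub _ hfb
      rw [a1, a2, a3, hm1, ZMod.val_zero, ← sub_eq_add_neg]
      omega
    · have a1 : f x + 1 - f x - 1 = 0 := by ring
      have a2 : x - (x - 1) - 1 = 0 := by ring
      have a3 : f x - f x - 1 = -1 := by ring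
      have a4 : f.symm (f x + 1) - (x - 1) - 1 = f.symm (f x + 1) - x := by ring
      rw [a1, a2, a3, a4, hm1, ZMod.val_zero]
      omega
  -- (-,-)
  have c4 : ¬ ((f (x - 1) - f x).val % 2 = 0 ∧ (f.symm (f x - 1) - x).val % 2 = 0) := by
    rintro ⟨g1, g2⟩
    refine no_corner hN hodd hcyc hno (x := x) (ε := -1) (η := -1) (p := x - 1) (r := f x - 1) hx
      (corner_wd (hn2 _) (hn2 _) (Or.inl ⟨by ring, by ring⟩) (Or.inr ⟨by ring, by ring⟩)
        (no_four (by omega) hcyc e2 e2) ?_ ?_)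
    · have a1 : x + -1 - (x - 1) - 1 = -1 := by ring
      have a2 : x - (x - 1) - 1 = 0 := by ring
      have a3 : f x - (f x - 1) - 1 = 0 := by ring
      have a4 : f (x - 1) - (f x - 1) - 1 = f (x - 1) - f x := by ring
      rw [a1, a2, a3, ← sub_eq_add_neg, a4, hm1, ZMod.val_zero]
      omega
    · have a1 : f x + -1 - (f x - 1) - 1 = -1 := by ring
      have a2 : x - (x - 1) - 1 = 0 := by ring
      have a3 : f x - (f x - 1) - 1 = 0 := by ring
      have a4 : f.symm (f x - 1) - (x - 1) - 1 = f.symm (f x - 1) - x := by ring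
      rw [a1, a2, a3, ← sub_eq_add_neg, a4, hm1, ZMod.val_zero]
      omega
  have v1 := val_flip hodd (sub_ne_zero.mp hfa)
  have v4 := val_flip hodd (sub_ne_zero.mp hgb)
  unfold TM TP
  omega

/-- Neighbouring spokes on the second rim have the same type. -/
theorem tm_up {x : ZMod N} (h : TM f x) : ¬ TP f (f.symm (f x + 1)) := by
  intro h1
  have h2 := h1.2.2.2
  rw [Equiv.apply_symm_apply, add_sub_cancel_right, Equiv.symm_apply_apply] at h2
  have h3 := h.2.2.1
  omega

theorem tp_up {x : ZMod N} (h : TP f x) : ¬ TM f (f.symm (f x + 1)) := by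
  intro h1
  have h2 := h1.2.2.2
  rw [Equiv.apply_symm_apply, add_sub_cancel_right, Equiv.symm_apply_apply] at h2
  have h3 := h.2.2.1
  omega

/-- Along an arc of the second rim. -/
theorem type_arc {d : ZMod N} {m : ℕ} (hm : 0 < m)
    (h : ∀ y : ZMod N, (y - d).val < m → TM f (f.symm y) ∨ TP f (f.symm y)) :
    (∀ y : ZMod N, (y - d).val < m → TM f (f.symm y)) ∨
      ∀ y : ZMod N, (y - d).val < m → TP f (f.symm y) := by
  have hmN : ∀ j : ℕ, j < N → ((d + j : ZMod N) - d).val = j := by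
    intro j hj
    have : (d + j : ZMod N) - d = j := by ring
    rw [this, ZMod.val_natCast_of_lt hj]
  have key : ∀ (Q R : ZMod N → Prop), (∀ x, Q x → ¬ R (f.symm (f x + 1))) →
      (∀ y : ZMod N, (y - d).val < m → Q (f.symm y) ∨ R (f.symm y)) → Q (f.symm d) →
      ∀ j : ℕ, j < m → j < N → Q (f.symm (d + j)) := by
    intro Q R h1 h2 h3 j
    induction j with
    | zero =>
      intro _ _
      rw [Nat.cast_zero, add_zero]
      exact h3
    | succ j ih =>
      intro g1 g2
      have g3 := ih (by omega) (by omega)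
      have g4 := h1 _ g3
      rw [Equiv.apply_symm_apply, add_assoc, ← Nat.cast_succ] at g4
      rcases h2 (d + (j + 1 : ℕ)) (by rw [hmN _ g2]; exact g1) with g5 | g5
      · exact g5
      · exact absurd g5 g4
  have hy : ∀ y : ZMod N, d + ((y - d).val : ZMod N) = y := by
    intro y
    rw [ZMod.natCast_zmod_val]
    ring
  have h0 := h d (by rw [sub_self, ZMod.val_zero]; exact hm)
  rcases h0 with h0 | h0
  · left
    intro y hy1
    have := key (TM f) (TP f) (fun x => tm_up) h h0 _ hy1 (ZMod.val_lt _)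
    rw [hy] at this
    exact this
  · right
    intro y hy1
    have := key (TP f) (TM f) (fun x => tp_up) (fun y hy => (h y hy).symm) h0 _ hy1
      (ZMod.val_lt _)
    rw [hy] at this
    exact this

end

end Pool.Agent.Helper19.RG
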