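import Pool.Agent.Helper19.RG.Final

/-!
Small edge cuts of cyclically 5-edge-connected cubic graphs.  (Problem MP_d067c8_co.)
-/

namespace Pool.Agent.Helper19.RG

open Finset Pool.Agent.Helper19.CF

variable {V : Type*} [Fintype V] [DecidableEq V]

/-- The number of edges between two disjoint sets. -/
def eb (G : SimpleGraph V) [DecidableRel G.Adj] (X Y : Finset V) : ℕ :=
  ∑ u ∈ X, ∑ v ∈ Y, if G.Adj u v then 1 else 0

omit [Fintype V] [DecidableEq V] in
theorem eb_comm (G : SimpleGraph V) [DecidableRel G.Adj] (X Y : Finset V) :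
    eb G X Y = eb G Y X := by
  unfold eb
  rw [sum_comm]
  refine sum_congr rfl fun u _ => sum_congr rfl fun v _ => ?_
  simp only [G.adj_comm u v]

theorem eb_univ (G : SimpleGraph V) [DecidableRel G.Adj] (X Y : Finset V) :
    eb G X Y = ∑ u, ∑ v, if G.Adj u v ∧ u ∈ X ∧ v ∈ Y then 1 else 0 := by
  unfold eb
  rw [← sum_filter_add_sum_filter_not univ (fun u => u ∈ X)]
  have h1 : (univ.filter fun u => u ∈ X) = X := by ext u; simp
  have h2 : ∑ u ∈ univ.filter (fun u => ¬ u ∈ X),
      ∑ v, (if G.Adj u v ∧ u ∈ X ∧ v ∈ Y then 1 else 0) = 0 := by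
    refine sum_eq_zero fun u hu => sum_eq_zero fun v _ => ?_
    rw [mem_filter] at hu
    rw [if_neg]
    exact fun h => hu.2 h.2.1
  rw [h1, h2, add_zero]
  refine sum_congr rfl fun u hu => ?_
  rw [← sum_filter_add_sum_filter_not univ (fun v => v ∈ Y)]
  have h3 : (univ.filter fun v => v ∈ Y) = Y := by ext v; simp
  have h4 : ∑ v ∈ univ.filter (fun v => ¬ v ∈ Y),
      (if G.Adj u v ∧ u ∈ X ∧ v ∈ Y then 1 else 0) = 0 := by
    refine sum_eq_zero fun v hv => ?_
    rw [mem_filter] at hv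
    rw [if_neg]
    exact fun h => hv.2 h.2.2
  rw [h3, h4, add_zero]
  refine sum_congr rfl fun v hv => ?_
  by_cases h : G.Adj u v
  · rw [if_pos h, if_pos ⟨h, hu, hv⟩]
  · rw [if_neg h, if_neg fun h' => h h'.1]

theorem dd_eq_eb (G : SimpleGraph V) [DecidableRel G.Adj] (X : Finset V) :
    dd G X = eb G X Xᶜ := rfl

/-- Submodularity with the error term. -/
theorem dd_add (G : SimpleGraph V) [DecidableRel G.Adj] (M Y : Finset V) :
    dd G M + dd G Y = dd G (M ∩ Y) + dd G (M ∪ Y) + 2 * eb G (M \ Y) (Y \ M) := by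
  have h1 : 2 * eb G (M \ Y) (Y \ M) = eb G (M \ Y) (Y \ M) + eb G (Y \ M) (M \ Y) := by
    rw [eb_comm G (Y \ M)]
    ring
  rw [h1]
  simp only [dd_eq_eb, eb_univ]
  simp only [← sum_add_distrib]
  refine sum_congr rfl fun u _ => sum_congr rfl fun v _ => ?_
  simp only [mem_compl, mem_inter, mem_union, mem_sdiff]
  by_cases h : G.Adj u v
  · by_cases ha : u ∈ M <;> by_cases hb : u ∈ Y <;> by_cases hc : v ∈ M <;>
      by_cases hd : v ∈ Y <;> simp [h, ha, hb, hc, hd]
  · simp [h]

/-- The other form of submodularity. -/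
theorem dd_add' (G : SimpleGraph V) [DecidableRel G.Adj] (M Y : Finset V) :
    dd G M + dd G Y = dd G (M \ Y) + dd G (Y \ M) + 2 * eb G (M ∩ Y) (M ∪ Y)ᶜ := by
  have h := dd_add G M Yᶜ
  rw [dd_compl] at h
  have h1 : M ∩ Yᶜ = M \ Y := by ext x; simp
  have h2 : (M ∪ Yᶜ)ᶜ = Y \ M := by
    ext x
    simp only [mem_compl, mem_union, mem_sdiff]
    tauto
  have h3 : M \ Yᶜ = M ∩ Y := by ext x; simp
  have h4 : Yᶜ \ M = (M ∪ Y)ᶜ := by
    ext x
    simp only [mem_compl, mem_union, mem_sdiff]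
    tauto
  rw [h1, h3, h4, ← dd_compl G (M ∪ Yᶜ), h2] at h
  exact h

section cyc

variable (G : SimpleGraph V) [DecidableRel G.Adj] (hreg : ∀ v, G.degree v = 3)

include hreg

theorem parity (Y : Finset V) : (Y.card + dd G Y) % 2 = 0 := by
  have h := even_card_add_dd hreg Y
  omega

/-- Small cuts have a small side. -/
theorem small_side (hcyc : CyclicallyEdgeConnected G 5) (Y : Finset V) (h : dd G Y ≤ 4) :
    Y.card ≤ 2 ∨ Yᶜ.card ≤ 2 := by
  by_contra hcon
  push Not at hcon
  have key : ∀ X : Finset V, dd G X ≤ 4 → 2 < X.card → HasCycleIn G (X : Set V) := by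
    intro X hX hc
    have hp := parity G hreg X
    refine hasCycleIn_of_dd_le G hreg X (card_pos.mp (by omega)) ?_
    omega
  have h1 := key Y h hcon.1
  have h2 := key Yᶜ (by rw [dd_compl]; exact h) hcon.2
  rw [coe_compl] at h2
  have h3 := hcyc _ h1 h2
  rw [cutSize_coe] at h3
  omega

theorem five_le (hcyc : CyclicallyEdgeConnected G 5) (Y : Finset V) (h1 : 3 ≤ Y.card)
    (h2 : 3 ≤ Yᶜ.card) : 5 ≤ dd G Y := by
  by_contra hcon
  rcases small_side G hreg hcyc Y (by omega) with h | h <;> omega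

/-- Uncrossing a minimal side of a 5-edge-cut. -/
theorem uncross (hcyc : CyclicallyEdgeConnected G 5) (M Y : Finset V) (hM : dd G M = 5)
    (hY : dd G Y = 5) (hM7 : 7 ≤ M.card) (hM7' : 7 ≤ Mᶜ.card) (hY7 : 7 ≤ Y.card)
    (hY7' : 7 ≤ Yᶜ.card) (hmin : ∀ X ⊆ M, dd G X = 5 → 7 ≤ X.card → X = M)
    (hodd : (M ∩ Y).card % 2 = 1) :
    M ⊆ Y ∨ ((M ∩ Y).card = 5 ∧ ((M \ Y).card = 2 ∨ (Y \ M).card = 2) ∧ dd G (M ∩ Y) = 5 ∧
      dd G (M ∪ Y) = 5 ∧ eb G (M \ Y) (Y \ M) = 0) := by
  set A := M ∩ Y with hA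
  set B := M \ Y with hB
  set C := Y \ M with hC
  set D := (M ∪ Y)ᶜ with hD
  have e1 := dd_add G M Y
  have e2 := dd_add' G M Y
  rw [← hA, ← hB, ← hC] at e1
  rw [← hA, ← hB, ← hC, ← hD] at e2
  have c1 : A.card + B.card = M.card := by
    rw [hA, hB]
    exact card_inter_add_card_sdiff M Y
  have c2 : A.card + C.card = Y.card := by
    rw [hA, hC, inter_comm]
    exact card_inter_add_card_sdiff Y M
  have c3 : D.card + C.card = Mᶜ.card := by
    have h1 : Mᶜ = D ∪ C := by
      ext x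
      simp only [hD, hC, mem_compl, mem_union, mem_sdiff]
      tauto
    rw [h1, card_union_of_disjoint]
    rw [disjoint_left]
    intro x
    simp only [hD, hC, mem_compl, mem_union, mem_sdiff]
    tauto
  have c4 : D.card + B.card = Yᶜ.card := by
    have h1 : Yᶜ = D ∪ B := by
      ext x
      simp only [hD, hB, mem_compl, mem_union, mem_sdiff]
      tauto
    rw [h1, card_union_of_disjoint]
    rw [disjoint_left]
    intro x
    simp only [hD, hB, mem_compl, mem_union, mem_sdiff]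
    tauto
  have pM := parity G hreg M
  have pY := parity G hreg Y
  have pA := parity G hreg A
  have pB := parity G hreg B
  have pC := parity G hreg C
  have pD := parity G hreg D
  have dD : dd G D = dd G (M ∪ Y) := by rw [hD, dd_compl]
  have cA : A.card + Aᶜ.card = Fintype.card V := card_add_card_compl A
  have cB : B.card + Bᶜ.card = Fintype.card V := card_add_card_compl B
  have cC : C.card + Cᶜ.card = Fintype.card V := card_add_card_compl C
  have cD : D.card + Dᶜ.card = Fintype.card V := card_add_card_compl D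
  have cM : M.card + Mᶜ.card = Fintype.card V := card_add_card_compl M
  have fA : 3 ≤ A.card → 3 ≤ Aᶜ.card → 5 ≤ dd G A := five_le G hreg hcyc A
  have fB : 3 ≤ B.card → 3 ≤ Bᶜ.card → 5 ≤ dd G B := five_le G hreg hcyc B
  have fC : 3 ≤ C.card → 3 ≤ Cᶜ.card → 5 ≤ dd G C := five_le G hreg hcyc C
  have fD : 3 ≤ D.card → 3 ≤ Dᶜ.card → 5 ≤ dd G D := five_le G hreg hcyc D
  have hAM : A ⊆ M := inter_subset_left
  -- one of the even quadrants is small
  have hsmall : B.card ≤ 2 ∨ C.card ≤ 2 := by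
    by_contra hcon
    push Not at hcon
    have g1 := fB (by omega) (by omega)
    have g2 := fC (by omega) (by omega)
    omega
  have hA5 : 5 ≤ A.card := by omega
  have hD5 : 5 ≤ D.card := by omega
  have gA := fA (by omega) (by omega)
  have gD := fD (by omega) (by omega)
  have hdA : dd G A = 5 := by omega
  by_cases hA7 : 7 ≤ A.card
  · left
    have h1 := hmin A hAM hdA hA7
    rw [← h1]
    exact inter_subset_right
  · right
    refine ⟨by omega, ?_, hdA, by omega, by omega⟩
    omega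

end cyc

end Pool.Agent.Helper19.RG
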