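import Pool.Agent.Helper19.CF.Perm

/-!
Perfect matchings with a bipartite complement give nowhere-zero flows.  (Problem MP_d067c8_co.)
-/

namespace Pool.Agent.Helper19.RG

open Finset Pool.Agent.Helper19.CF

variable {V : Type*} [Fintype V] [DecidableEq V]

/-- If the edges outside a perfect matching `Z` are bichromatic, the colour classes are balanced
on every vertex set up to half the size of its cut. -/
theorem bis_perfect (G : SimpleGraph V) [DecidableRel G.Adj] (hreg : ∀ v, G.degree v = 3)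
    {Z : V → V → Prop} [DecidableRel Z] {b : V → ℤ} (symm : ∀ u v, Z u v → Z v u)
    (adj : ∀ u v, Z u v → G.Adj u v) (one : ∀ v, ∃! w, Z v w)
    (val : ∀ v, b v = 1 ∨ b v = -1) (bip : ∀ u v, G.Adj u v → ¬ Z u v → b v = - b u)
    (Y : Finset V) : 2 * ∑ u ∈ Y, b u ≤ dd G Y := by
  have hsplit : ∀ u v, ind (G.Adj u v ∧ ¬ Z u v) = ind (G.Adj u v) - ind (Z u v) := by
    intro u v
    by_cases h1 : Z u v
    · have h2 := adj u v h1
      simp [ind, h1, h2]
    · by_cases h2 : G.Adj u v <;> simp [ind, h1, h2]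
  have hsym : ∀ u v, ind (G.Adj u v ∧ ¬ Z u v) = ind (G.Adj v u ∧ ¬ Z v u) := by
    intro u v
    have : (G.Adj u v ∧ ¬ Z u v) ↔ (G.Adj v u ∧ ¬ Z v u) :=
      ⟨fun ⟨h1, h2⟩ => ⟨h1.symm, fun h3 => h2 (symm _ _ h3)⟩,
        fun ⟨h1, h2⟩ => ⟨h1.symm, fun h3 => h2 (symm _ _ h3)⟩⟩
    simp only [ind, this]
  have hsumZ : ∀ u, ∑ v, ind (Z u v) = 1 := by
    intro u
    obtain ⟨w, hw, huniq⟩ := one u
    rw [sum_eq_single w]
    · simp [ind, hw]
    · intro v _ hv
      simp only [ind, ite_eq_right_iff, one_ne_zero, imp_false]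
      exact fun hz => hv (huniq v hz)
    · intro hw'
      exact absurd (mem_univ w) hw'
  have hin : ∑ u ∈ Y, ∑ v ∈ Y, ind (G.Adj u v ∧ ¬ Z u v) * b u = 0 := by
    have h1 : ∑ u ∈ Y, ∑ v ∈ Y, ind (G.Adj u v ∧ ¬ Z u v) * b u =
        - ∑ u ∈ Y, ∑ v ∈ Y, ind (G.Adj u v ∧ ¬ Z u v) * b u := by
      conv_lhs => rw [sum_comm]
      rw [← sum_neg_distrib]
      refine sum_congr rfl fun u _ => ?_
      rw [← sum_neg_distrib]
      refine sum_congr rfl fun v _ => ?_
      rw [hsym v u]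
      by_cases h2 : G.Adj u v ∧ ¬ Z u v
      · rw [bip u v h2.1 h2.2]
        ring
      · simp [ind, h2]
    linarith
  have hall : ∑ u ∈ Y, ∑ v, ind (G.Adj u v ∧ ¬ Z u v) * b u = ∑ u ∈ Y, 2 * b u := by
    refine sum_congr rfl fun u _ => ?_
    rw [← sum_mul]
    simp_rw [hsplit]
    rw [sum_sub_distrib, sum_Adj hreg, hsumZ]
    ring
  have hdec : ∑ u ∈ Y, ∑ v, ind (G.Adj u v ∧ ¬ Z u v) * b u =
      ∑ u ∈ Y, ∑ v ∈ Y, ind (G.Adj u v ∧ ¬ Z u v) * b u +
      ∑ u ∈ Y, ∑ v ∈ Yᶜ, ind (G.Adj u v ∧ ¬ Z u v) * b u := by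
    rw [← sum_add_distrib]
    exact sum_congr rfl fun u _ => (sum_add_sum_compl Y _).symm
  rw [hin, zero_add, hall, ← mul_sum] at hdec
  rw [hdec]
  unfold dd
  push_cast
  refine sum_le_sum fun u _ => sum_le_sum fun v _ => ?_
  by_cases h1 : G.Adj u v
  · rw [if_pos h1]
    rcases val u with h2 | h2 <;> rw [h2] <;> simp only [ind] <;> split_ifs <;> norm_num
  · simp [ind, h1]

theorem flow_perfect (G : SimpleGraph V) [DecidableRel G.Adj] (hreg : ∀ v, G.degree v = 3)
    {Z : V → V → Prop} {b : V → ℤ} (symm : ∀ u v, Z u v → Z v u)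
    (adj : ∀ u v, Z u v → G.Adj u v) (one : ∀ v, ∃! w, Z v w)
    (val : ∀ v, b v = 1 ∨ b v = -1) (bip : ∀ u v, G.Adj u v → ¬ Z u v → b v = - b u) :
    HasFlow G (9 / 2) := by
  classical
  have h1 := bis_perfect G hreg symm adj one val bip
  have h2 := bis_perfect G hreg (b := fun v => - b v) symm adj one
    (fun v => by rcases val v with h | h <;> rw [h] <;> norm_num)
    (fun u v h3 h4 => by rw [bip u v h3 h4])
  have hsum : ∑ v, b v = 0 := by
    have h3 := h1 univ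
    have h4 := h2 univ
    rw [sum_neg_distrib] at h4
    have h5 : dd G univ = 0 := by simp [dd]
    rw [h5] at h3 h4
    push_cast at h3 h4
    omega
  have h3 := hasFlow_of_bisection G hreg 2 (by norm_num) b val hsum (fun Y => by
    have h4 := h1 Y
    have h5 : (0 : ℤ) ≤ dd G Y := Int.natCast_nonneg _
    push_cast
    linarith)
  norm_num at h3 ⊢
  exact h3

end Pool.Agent.Helper19.RG
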