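import Pool.Agent.Helper19.RG.Fstate

/-!
Circular flow numbers of cubic graphs with a 2-factor consisting of two chordless cycles.
(Problem MP_d067c8_co.)
-/

namespace Pool.Agent.Helper19.RG

open Finset Pool.Agent.Helper19.CF

section general

variable {V : Type*} [Fintype V] [DecidableEq V]

/-- A vertex with two neighbours in `X` has at most one neighbour outside. -/
theorem le_one (G : SimpleGraph V) [DecidableRel G.Adj] (hreg : ∀ v, G.degree v = 3)
    (X : Finset V) {u p q : V} (hp : p ∈ X) (hq : q ∈ X) (hpq : p ≠ q) (h1 : G.Adj u p)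
    (h2 : G.Adj u q) : (∑ v ∈ Xᶜ, if G.Adj u v then 1 else 0) ≤ 1 := by
  have h3 := sum_adj G u
  rw [hreg u, ← sum_add_sum_compl X] at h3
  have h4 : 2 ≤ ∑ v ∈ X, (if G.Adj u v then 1 else 0) := by
    have h5 : ({p, q} : Finset _) ⊆ X := by
      intro v hv
      rw [mem_insert, mem_singleton] at hv
      rcases hv with rfl | rfl
      · exact hp
      · exact hq
    refine le_trans ?_ (sum_le_sum_of_subset h5)
    rw [sum_pair hpq]
    simp [h1, h2]
  omega

theorem dd_le_card (G : SimpleGraph V) [DecidableRel G.Adj] (hreg : ∀ v, G.degree v = 3)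
    (X : Finset V)
    (h : ∀ u ∈ X, ∃ p ∈ X, ∃ q ∈ X, p ≠ q ∧ G.Adj u p ∧ G.Adj u q) : dd G X ≤ X.card := by
  have h1 : ∀ u ∈ X, (∑ v ∈ Xᶜ, if G.Adj u v then 1 else 0) ≤ 1 := by
    intro u hu
    obtain ⟨p, hp, q, hq, hpq, h2, h3⟩ := h u hu
    exact le_one G hreg X hp hq hpq h2 h3
  calc dd G X ≤ ∑ u ∈ X, 1 := sum_le_sum h1
    _ = X.card := by simp

/-- Cyclically 5-edge-connected cubic graphs have no 4-cycle. -/
theorem no_C4 (G : SimpleGraph V) [DecidableRel G.Adj] (hreg : ∀ v, G.degree v = 3)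
    (hcyc : CyclicallyEdgeConnected G 5) (hcard : 8 ≤ Fintype.card V) (a b c d : V)
    (h1 : G.Adj a b) (h2 : G.Adj b c) (h3 : G.Adj c d) (h4 : G.Adj d a) : a = c ∨ b = d := by
  by_contra hcon
  push Not at hcon
  obtain ⟨hac, hbd⟩ := hcon
  let X : Finset V := {a, b, c, d}
  have hX : X.card = 4 := by
    simp only [X]
    rw [card_insert_of_notMem, card_insert_of_notMem, card_pair h3.ne]
    · simp only [mem_insert, mem_singleton, not_or]
      exact ⟨h2.ne, hbd⟩
    · simp only [mem_insert, mem_singleton, not_or]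
      exact ⟨h1.ne, hac, h4.ne'⟩
  have ha : a ∈ X := by simp [X]
  have hb : b ∈ X := by simp [X]
  have hc : c ∈ X := by simp [X]
  have hd : d ∈ X := by simp [X]
  have hdd : dd G X ≤ 4 := by
    rw [← hX]
    refine dd_le_card G hreg X fun u hu => ?_
    simp only [X, mem_insert, mem_singleton] at hu
    rcases hu with rfl | rfl | rfl | rfl
    · exact ⟨b, hb, d, hd, hbd, h1, h4.symm⟩
    · exact ⟨a, ha, c, hc, hac, h1.symm, h2⟩
    · exact ⟨b, hb, d, hd, hbd, h2.symm, h3⟩
    · exact ⟨a, ha, c, hc, hac, h4, h3.symm⟩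
  have hcomp : 4 ≤ Xᶜ.card := by
    rw [card_compl, hX]
    omega
  have g1 : HasCycleIn G (X : Set _) := hasCycleIn_of_dd_le _ hreg X ⟨a, ha⟩ (by omega)
  have g2 : HasCycleIn G (X : Set _)ᶜ := by
    rw [← coe_compl]
    refine hasCycleIn_of_dd_le _ hreg Xᶜ (card_pos.mp (by omega)) ?_
    rw [dd_compl]
    omega
  have g3 := hcyc (X : Set _) g1 g2
  rw [cutSize_coe] at g3
  omega

end general

theorem hasFlow_iso {V W : Type*} [Fintype V] [Fintype W] {G : SimpleGraph V}
    {G' : SimpleGraph W} (φ : G ≃g G') {r : ℝ} (h : HasFlow G' r) : HasFlow G r := by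
  obtain ⟨f, h1, h2, h3, h4⟩ := h
  refine ⟨fun u v => f (φ u) (φ v), fun u v => h1 _ _, fun u v huv => h2 _ _ ?_,
    fun u v huv => h3 _ _ (φ.map_adj_iff.mpr huv), fun v => ?_⟩
  · intro h5
    exact huv (φ.map_adj_iff.mp h5)
  · have h5 := Equiv.sum_comp φ.toEquiv (fun w => f (φ v) w)
    rw [← h4 (φ v)]
    exact h5

section perm

variable {N : ℕ} [NeZero N] {f : Equiv.Perm (ZMod N)}

/-- The spokes. -/
def spk {N : ℕ} (f : Equiv.Perm (ZMod N)) : ZMod N ⊕ ZMod N → ZMod N ⊕ ZMod N → Prop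
  | .inl _, .inl _ => False
  | .inr _, .inr _ => False
  | .inl x, .inr y => f x = y
  | .inr y, .inl x => f x = y

/-- The alternating colouring of the rims. -/
def alt {N : ℕ} : ZMod N ⊕ ZMod N → ℤ
  | .inl x => if x.val % 2 = 0 then 1 else -1
  | .inr y => if y.val % 2 = 0 then 1 else -1

theorem alt_succ (hN : 1 < N) (heven : N % 2 = 0) (x : ZMod N) :
    (if (x + 1).val % 2 = 0 then (1 : ℤ) else -1) = -(if x.val % 2 = 0 then (1 : ℤ) else -1) := by
  by_cases hx : x = -1
  · have h1 := val_neg_one' (N := N) hN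
    rw [hx, neg_add_cancel, ZMod.val_zero, h1, if_pos (by omega), if_neg (by omega)]
    norm_num
  · rw [val_succ x hx]
    split_ifs <;> first | rfl | omega

theorem flow_even (hN : 2 < N) (heven : N % 2 = 0) : HasFlow (permGraph N f) (9 / 2) := by
  classical
  have hreg : ∀ v, (permGraph N f).degree v = 3 := permGraph_regular hN
  refine flow_perfect (permGraph N f) hreg (Z := spk f) (b := alt) ?_ ?_ ?_ ?_ ?_
  · rintro (x | x) (y | y) h
    · exact h
    · exact h
    · exact h
    · exact h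
  · rintro (x | x) (y | y) h
    · exact absurd h id
    · rw [adj_lr]; exact h
    · rw [adj_rl]; exact h
    · exact absurd h id
  · rintro (x | x)
    · refine ⟨.inr (f x), rfl, ?_⟩
      rintro (y | y) hy
      · exact absurd hy id
      · exact congrArg _ (show f x = y from hy).symm
    · refine ⟨.inl (f.symm x), f.apply_symm_apply x, ?_⟩
      rintro (y | y) hy
      · have h1 : f y = x := hy
        rw [← h1, f.symm_apply_apply]
      · exact absurd hy id
  · rintro (x | x) <;> simp only [alt] <;> split_ifs <;> simp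
  · rintro (x | x) (y | y) h hz
    · rw [adj_ll (by omega)] at h
      simp only [alt]
      rcases h with rfl | rfl
      · exact alt_succ (by omega) heven x
      · rw [alt_succ (by omega) heven y, neg_neg]
    · rw [adj_lr] at h
      exact absurd h hz
    · rw [adj_rl] at h
      exact absurd h hz
    · rw [adj_rr (by omega)] at h
      simp only [alt]
      rcases h with rfl | rfl
      · exact alt_succ (by omega) heven x
      · rw [alt_succ (by omega) heven y, neg_neg]

end perm

section main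

variable {V : Type*} [Fintype V] [DecidableEq V]

theorem noFour_of_iso {N : ℕ} {f : Equiv.Perm (ZMod N)} {G : SimpleGraph V} (hN : 2 < N)
    (φ : permGraph N f ≃g G)
    (h4 : ∀ a b c d, G.Adj a b → G.Adj b c → G.Adj c d → G.Adj d a → a = c ∨ b = d) :
    NoFour f := by
  intro i
  have key : ∀ x : ZMod N, (x = f i + 1 ∨ f i = x + 1) → f (i + 1) ≠ x := by
    intro x hx h1
    have g1 : (permGraph N f).Adj (.inl i) (.inl (i + 1)) := (adj_ll (by omega) _ _).mpr (Or.inl rfl)
    have g2 : (permGraph N f).Adj (.inl (i + 1)) (.inr x) := (adj_lr _ _).mpr h1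
    have g3 : (permGraph N f).Adj (.inr x) (.inr (f i)) :=
      (adj_rr (by omega) _ _).mpr hx.symm
    have g4 : (permGraph N f).Adj (.inr (f i)) (.inl i) := (adj_rl _ _).mpr rfl
    rcases h4 _ _ _ _ (φ.map_adj_iff.mpr g1) (φ.map_adj_iff.mpr g2) (φ.map_adj_iff.mpr g3)
      (φ.map_adj_iff.mpr g4) with h | h
    · exact absurd (φ.injective h) Sum.inl_ne_inr
    · exact absurd (φ.injective h) Sum.inl_ne_inr
  exact ⟨key _ (Or.inl rfl), key _ (Or.inr (by ring))⟩

/-- The length of the rims bounds the cyclic connectivity. -/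
theorem le_rim {N : ℕ} {f : Equiv.Perm (ZMod N)} {G : SimpleGraph V} [DecidableRel G.Adj]
    (hreg : ∀ v, G.degree v = 3) (hN : 2 < N) (φ : permGraph N f ≃g G) {k : ℕ}
    (hcyc : CyclicallyEdgeConnected G k) : k ≤ N := by
  have : NeZero N := ⟨by omega⟩
  let Y : Finset V := univ.image fun i : ZMod N => φ (.inl i)
  have hYc : Y.card = N := by
    rw [card_image_of_injective _ (fun i j h => Sum.inl_injective (φ.injective h)), card_univ,
      ZMod.card]
  have hV : Fintype.card V = 2 * N := by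
    rw [← Fintype.card_congr φ.toEquiv, Fintype.card_sum, ZMod.card]
    ring
  have hpm : ∀ i : ZMod N, i + 1 ≠ i - 1 := by
    intro i h
    apply two_ne (N := N) hN
    have : (2 : ZMod N) = (i + 1) - (i - 1) := by ring
    rw [this, h, sub_self]
  have hmem : ∀ i : ZMod N, φ (.inl i) ∈ Y := fun i => mem_image.mpr ⟨i, mem_univ _, rfl⟩
  have hdd : dd G Y ≤ N := by
    rw [← hYc]
    refine dd_le_card G hreg Y fun u hu => ?_
    obtain ⟨i, -, rfl⟩ := mem_image.mp hu
    refine ⟨_, hmem (i + 1), _, hmem (i - 1), ?_, ?_, ?_⟩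
    · intro h
      exact hpm i (Sum.inl_injective (φ.injective h))
    · exact φ.map_adj_iff.mpr ((adj_ll (by omega) _ _).mpr (Or.inl rfl))
    · exact φ.map_adj_iff.mpr ((adj_ll (by omega) _ _).mpr (Or.inr (by ring)))
  have h1 : HasCycleIn G (Y : Set V) :=
    hasCycleIn_of_dd_le G hreg Y (card_pos.mp (by omega)) (by omega)
  have h2 : HasCycleIn G (Y : Set V)ᶜ := by
    rw [← coe_compl]
    refine hasCycleIn_of_dd_le _ hreg Yᶜ (card_pos.mp (by rw [card_compl]; omega)) ?_
    rw [dd_compl, card_compl]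
    omega
  have h3 := hcyc _ h1 h2
  rw [cutSize_coe] at h3
  omega

/-- The case in which the rims have length `3` modulo `4`: no condition on the 5-edge-cuts. -/
theorem flow_three {N : ℕ} [NeZero N] {f : Equiv.Perm (ZMod N)} (G H : SimpleGraph V)
    (hG : ∀ v, (G.neighborSet v).ncard = 3) (hHG : H ≤ G)
    (hH : ∀ v, (H.neighborSet v).ncard = 2) (h2 : Nat.card H.ConnectedComponent = 2)
    (hK : ∀ K : H.ConnectedComponent, K.supp.ncard = N) (hN : 5 < N) (h3 : N % 4 = 3)
    (φ : permGraph N f ≃g G) (hφ : ∀ x y, ¬ H.Adj (φ (.inl x)) (φ (.inr y)))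
    (hcyc : CyclicallyEdgeConnected (permGraph N f) 5) : HasFlow (permGraph N f) (9 / 2) := by
  classical
  have hall : H.oddComponents = Set.univ := by
    ext K
    refine ⟨fun _ => trivial, fun _ => ?_⟩
    show Odd K.supp.ncard
    rw [hK K, Nat.odd_iff]
    omega
  have hodd : H.oddComponents.ncard = 2 := by
    rw [hall, Set.ncard_univ, h2]
  obtain ⟨v⟩ : Nonempty V := ⟨φ (.inl 0)⟩
  obtain ⟨Z, hZ1, hZ2, ⟨s, t, hst, hv⟩, hbip⟩ := TT.main_matching G hG H hHG hH hodd
    ⟨H.connectedComponentMk v, by rw [hall]; trivial, by rw [hK]; exact h3⟩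
  obtain ⟨c'⟩ := hbip
  let c : V → Bool := fun v => decide (c' v = 0)
  have hc : ∀ u v, G.Adj u v → ¬ Z.Adj u v → c u ≠ c v := by
    intro u v huv hz
    have h1 : (G.deleteEdges Z.edgeSet).Adj u v := by
      rw [SimpleGraph.deleteEdges_adj]
      exact ⟨huv, fun h => hz h⟩
    have h2 := c'.valid h1
    simp only [c, ne_eq, decide_eq_decide]
    omega
  have hD := nearData_of_matching G Z hZ1 hst hv c hc
  exact flow_fstate hN hcyc (nearData_iso φ hD) fun x hz => hφ _ _ (hZ2 _ _ hz)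

theorem hasCycleIn_iso {V W : Type*} {G : SimpleGraph V} {G' : SimpleGraph W}
    (φ : G ≃g G') {S : Set V} (h : HasCycleIn G S) : HasCycleIn G' (φ '' S) := by
  obtain ⟨u, p, hp, hS⟩ := h
  refine ⟨φ u, p.map φ.toHom, ?_, ?_⟩
  · exact (SimpleGraph.Walk.isCycle_map_iff_of_injective φ.injective).mpr hp
  · intro x hx
    rw [SimpleGraph.Walk.support_map, List.mem_map] at hx
    obtain ⟨y, hy, rfl⟩ := hx
    exact ⟨y, hS y hy, rfl⟩

/-- Cyclic connectivity along an isomorphism. -/
theorem cyc_iso {V W : Type*} {G : SimpleGraph V} {G' : SimpleGraph W}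
    (φ : G ≃g G') {k : ℕ} (h : CyclicallyEdgeConnected G' k) : CyclicallyEdgeConnected G k := by
  intro S h1 h2
  have h3 : HasCycleIn G' (φ '' S)ᶜ := by
    rw [← Set.image_compl_eq φ.bijective]
    exact hasCycleIn_iso φ h2
  have h4 := h _ (hasCycleIn_iso φ h1) h3
  have h5 : cutSize G S = cutSize G' (φ '' S) := by
    unfold cutSize
    refine Nat.card_congr (Equiv.subtypeEquiv (Equiv.prodCongr φ.toEquiv φ.toEquiv) ?_)
    rintro ⟨a, b⟩
    show (a ∈ S ∧ b ∉ S ∧ G.Adj a b) ↔ (φ a ∈ φ '' S ∧ φ b ∉ φ '' S ∧ G'.Adj (φ a) (φ b))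
    rw [φ.injective.mem_set_image, φ.injective.mem_set_image, φ.map_adj_iff]
  rw [h5]
  exact h4

/-- The main theorem. -/
theorem main_graph (G H : SimpleGraph V) [DecidableRel G.Adj] [DecidableRel H.Adj]
    (hG : G.IsRegularOfDegree 3) (hHG : H ≤ G) (hH : H.IsRegularOfDegree 2)
    (h2 : Nat.card H.ConnectedComponent = 2)
    (hch : ∀ u v, G.Adj u v → ¬ H.Adj u v → ¬ H.Reachable u v) :
    (Odd (Fintype.card V / 2) → 14 ≤ Fintype.card V →
      (∀ a b c d, G.Adj a b → G.Adj b c → G.Adj c d → G.Adj d a → a = c ∨ b = d) →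
      HasZ G) ∧
    (CyclicallyEdgeConnected G 5 → Fintype.card V ≠ 10 →
      (Fintype.card V % 8 = 2 →
        ∀ S : Set V, HasCycleIn G S → HasCycleIn G Sᶜ → cutSize G S = 5 →
          S.ncard = 5 ∨ Sᶜ.ncard = 5) → circularFlowNumber G ≤ 9 / 2) ∧
    (CyclicallyEdgeConnected G 6 → circularFlowNumber G ≤ 9 / 2) := by
  classical
  have hnc : ∀ (F : SimpleGraph V) [DecidableRel F.Adj] (v : V),
      (F.neighborSet v).ncard = F.degree v := by
    intro F _ v
    rw [Set.ncard_eq_toFinset_card', ← SimpleGraph.card_neighborFinset_eq_degree]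
    rfl
  have hG' : ∀ v, (G.neighborSet v).ncard = 3 := fun v => by rw [hnc, hG v]
  have hH' : ∀ v, (H.neighborSet v).ncard = 2 := fun v => by rw [hnc, hH v]
  obtain ⟨N, hN, hV, hK, f, φ, hφ⟩ := exists_iso G H hG' hHG hH' h2 hch
  have : NeZero N := ⟨by omega⟩
  have hreg : ∀ v, G.degree v = 3 := hG
  have hZ : 7 ≤ N → N % 2 = 1 →
      (∀ a b c d, G.Adj a b → G.Adj b c → G.Adj c d → G.Adj d a → a = c ∨ b = d) →
      HasZ G := by
    intro h7 hodd h4
    obtain ⟨Z, s, t, b, h⟩ := near_all f h7 hodd (noFour_of_iso (by omega) φ h4)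
    exact hasZ_of_nearData (nearData_iso φ.symm h)
  have hne : ∃ u v, G.Adj u v := exists_adj G hreg (φ (.inl 0))
  have h5 : CyclicallyEdgeConnected G 5 → Fintype.card V ≠ 10 →
      (Fintype.card V % 8 = 2 →
        ∀ S : Set V, HasCycleIn G S → HasCycleIn G Sᶜ → cutSize G S = 5 →
          S.ncard = 5 ∨ Sᶜ.ncard = 5) → circularFlowNumber G ≤ 9 / 2 := by
    intro hcyc hcard hthin
    have h6 := le_rim hreg (by omega) φ hcyc
    rcases Nat.mod_two_eq_zero_or_one N with heven | hodd
    · exact circularFlowNumber_le G hne (hasFlow_iso φ.symm (flow_even (by omega) heven))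
    by_cases h3 : N % 4 = 3
    · exact circularFlowNumber_le G hne (hasFlow_iso φ.symm
        (flow_three G H hG' hHG hH' h2 hK (by omega) h3 φ hφ (cyc_iso φ hcyc)))
    · obtain ⟨Z, hZ1, ⟨s, t, hst, hv⟩, hbip⟩ :=
        hZ (by omega) hodd (no_C4 G hreg hcyc (by omega))
      exact TT.flow_part G hG Z hZ1 s t hst hv hbip hcyc (hthin (by omega))
  refine ⟨?_, h5, ?_⟩
  · intro hodd h14 h4
    have h6 : Fintype.card V / 2 = N := by omega
    rw [h6] at hodd
    exact hZ (by omega) (Nat.odd_iff.mp hodd) h4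
  · intro hcyc
    have h6 := le_rim hreg (by omega) φ hcyc
    refine h5 (fun S h7 h8 => ?_) (by omega) (fun _ S h7 h8 h9 => ?_)
    · have := hcyc S h7 h8
      omega
    · have := hcyc S h7 h8
      omega

end main

end Pool.Agent.Helper19.RG
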