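import Pool.Agent.Helper19.RG.Main

/-!
The cyclically 5-edge-connected cycle permutation graph on ten vertices is the Petersen graph.
(Problem MP_d067c8_co.)
-/

namespace Pool.Agent.Helper19.RG

open Pool.Agent.Helper19.CF

/-- The Petersen graph: the 2-subsets of a set with five elements, adjacent if disjoint. -/
def Petersen : SimpleGraph {s : Finset (Fin 5) // s.card = 2} :=
  SimpleGraph.fromRel (fun s t : {s : Finset (Fin 5) // s.card = 2} => Disjoint s.1 t.1)

instance : DecidableRel Petersen.Adj := fun s t =>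
  decidable_of_iff (s ≠ t ∧ (Disjoint s.1 t.1 ∨ Disjoint t.1 s.1)) Iff.rfl

def gA (i : ZMod 5) : {s : Finset (Fin 5) // s.card = 2} :=
  match i.val with
  | 0 => ⟨{0, 1}, rfl⟩
  | 1 => ⟨{2, 3}, rfl⟩
  | 2 => ⟨{0, 4}, rfl⟩
  | 3 => ⟨{1, 2}, rfl⟩
  | _ => ⟨{3, 4}, rfl⟩

def gB (i : ZMod 5) : {s : Finset (Fin 5) // s.card = 2} :=
  match i.val with
  | 0 => ⟨{2, 4}, rfl⟩
  | 1 => ⟨{0, 3}, rfl⟩
  | 2 => ⟨{1, 4}, rfl⟩
  | 3 => ⟨{0, 2}, rfl⟩
  | _ => ⟨{1, 3}, rfl⟩

theorem pet_AA : ∀ i j : ZMod 5, Petersen.Adj (gA i) (gA j) ↔ (j = i + 1 ∨ i = j + 1) := by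
  decide

theorem pet_BB : ∀ i j : ZMod 5, Petersen.Adj (gB i) (gB j) ↔ (j = i + 1 ∨ i = j + 1) := by
  decide

theorem pet_AB : ∀ i j : ZMod 5, Petersen.Adj (gA i) (gB j) ↔ 2 * i = j := by
  decide

theorem pet_iA : ∀ i j : ZMod 5, gA i = gA j → i = j := by decide
theorem pet_iB : ∀ i j : ZMod 5, gB i = gB j → i = j := by decide
theorem pet_ne : ∀ i j : ZMod 5, gA i ≠ gB j := by decide

theorem petersen_iso (f : Equiv.Perm (ZMod 5)) (u : ZMod 5 → ZMod 5)
    (hu : Function.Injective u) (hu1 : ∀ i j, (u j = u i + 1 ∨ u i = u j + 1) ↔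
      (j = i + 1 ∨ i = j + 1)) (hf : ∀ i, 2 * i = u (f i)) :
    Nonempty (permGraph 5 f ≃g Petersen) := by
  let φ : ZMod 5 ⊕ ZMod 5 → {s : Finset (Fin 5) // s.card = 2} :=
    Sum.elim gA (fun j => gB (u j))
  have hinj : Function.Injective φ := by
    rintro (i | i) (j | j) h
    · exact congrArg _ (pet_iA i j h)
    · exact absurd h (pet_ne i _)
    · exact absurd h.symm (pet_ne j _)
    · exact congrArg _ (hu (pet_iB _ _ h))
  have hcard : Fintype.card (ZMod 5 ⊕ ZMod 5) =
      Fintype.card {s : Finset (Fin 5) // s.card = 2} := by decide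
  have hbij := (Fintype.bijective_iff_injective_and_card φ).mpr ⟨hinj, hcard⟩
  refine ⟨⟨Equiv.ofBijective φ hbij, ?_⟩⟩
  rintro (i | i) (j | j)
  · show Petersen.Adj (gA i) (gA j) ↔ _
    rw [pet_AA, adj_ll (by norm_num)]
  · show Petersen.Adj (gA i) (gB (u j)) ↔ _
    rw [pet_AB, adj_lr, hf]
    exact ⟨fun h => hu h, fun h => congrArg _ h⟩
  · show Petersen.Adj (gB (u i)) (gA j) ↔ _
    rw [Petersen.adj_comm, pet_AB, adj_rl, hf]
    exact ⟨fun h => hu h, fun h => congrArg _ h⟩
  · show Petersen.Adj (gB (u i)) (gB (u j)) ↔ _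
    rw [pet_BB, hu1, adj_rr (by norm_num)]

theorem petersen_of_noFour (f : Equiv.Perm (ZMod 5)) (h4 : NoFour f) :
    Nonempty (permGraph 5 f ≃g Petersen) := by
  have hw : ∀ w : ZMod 5, w ≠ 0 → w ≠ 1 → w ≠ -1 → w = 2 ∨ w = -2 := by decide
  have h1 : ∀ i, f (i + 1) - f i = 2 ∨ f (i + 1) - f i = -2 := by
    intro i
    apply hw
    · intro h
      have h2 := f.injective (sub_eq_zero.mp h)
      have h3 : (1 : ZMod 5) = 0 := by linear_combination h2
      exact absurd h3 (by decide)
    · intro h
      exact (h4 i).1 (by linear_combination h)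
    · intro h
      exact (h4 i).2 (by linear_combination h)
  have h2 : ∀ i, f (i + 1 + 1) ≠ f i := by
    intro i h
    have h3 := f.injective h
    have h4 : (2 : ZMod 5) = 0 := by linear_combination h3
    exact absurd h4 (by decide)
  have key : ∀ w : ZMod 5, (w = 2 ∨ w = -2) → f (0 + 1) - f 0 = w →
      ∀ n : ℕ, f ((n : ZMod 5) + 1) - f n = w ∧ f n = f 0 + n * w := by
    intro w hw' h0 n
    induction n with
    | zero => exact ⟨by simpa using h0, by simp⟩
    | succ n ih =>
      obtain ⟨a1, a2⟩ := ih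
      have a3 := h1 ((n : ZMod 5) + 1)
      have a4 := h2 n
      have a5 : f ((n : ZMod 5) + 1 + 1) - f ((n : ZMod 5) + 1) = w := by
        rcases hw' with rfl | rfl <;> rcases a3 with a3 | a3
        · exact a3
        · exact absurd (by linear_combination a3 + a1) a4
        · exact absurd (by linear_combination a3 + a1) a4
        · exact a3
      push_cast
      exact ⟨a5, by linear_combination a1 + a2⟩
  have hval : ∀ i : ZMod 5, ((i.val : ℕ) : ZMod 5) = i := fun i => ZMod.natCast_zmod_val i
  rcases h1 0 with h0 | h0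
  · refine petersen_iso f (fun j => j - f 0) (fun a b h => by simpa using h) ?_ ?_
    · intro i j
      constructor
      · rintro (h | h)
        · left; linear_combination h
        · right; linear_combination h
      · rintro (h | h)
        · left; rw [h]; ring
        · right; rw [h]; ring
    · intro i
      have a1 := (key 2 (Or.inl rfl) h0 i.val).2
      rw [hval] at a1
      show 2 * i = f i - f 0
      rw [a1]
      ring
  · refine petersen_iso f (fun j => f 0 - j) (fun a b h => by simpa using h) ?_ ?_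
    · intro i j
      constructor
      · rintro (h | h)
        · right; linear_combination h
        · left; linear_combination h
      · rintro (h | h)
        · right; rw [h]; ring
        · left; rw [h]; ring
    · intro i
      have a1 := (key (-2) (Or.inr rfl) h0 i.val).2
      rw [hval] at a1
      show 2 * i = f 0 - f i
      rw [a1]
      ring

end Pool.Agent.Helper19.RG
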