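import Pool.Agent.Helper19.RG.Assembly
import Pool.Agent.Helper19.RG.Petersen

/-!
Circular flow numbers of cyclically 5-edge-connected cubic graphs with a 2-factor consisting of
two chordless cycles: the complete statement. (Problem MP_d067c8_co.)
-/

namespace Pool.Agent.Helper19.RG

open Finset Pool.Agent.Helper19.CF

variable {V : Type*} [Fintype V] [DecidableEq V]

theorem main_all (R : ∀ (N : ℕ) [NeZero N], Rows N) (G H : SimpleGraph V) [DecidableRel G.Adj]
    [DecidableRel H.Adj] (hG : G.IsRegularOfDegree 3) (hHG : H ≤ G) (hH : H.IsRegularOfDegree 2)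
    (h2 : Nat.card H.ConnectedComponent = 2)
    (hch : ∀ u v, G.Adj u v → ¬ H.Adj u v → ¬ H.Reachable u v) :
    (CyclicallyEdgeConnected G 5 → circularFlowNumber G ≤ 9 / 2 ∨
      Nonempty (G ≃g SimpleGraph.fromRel
        (fun s t : {s : Finset (Fin 5) // s.card = 2} => Disjoint s.1 t.1))) ∧
    (Odd (Fintype.card V / 2) → 14 ≤ Fintype.card V →
      (∀ a b c d, G.Adj a b → G.Adj b c → G.Adj c d → G.Adj d a → a = c ∨ b = d) →
      HasZ G) := by
  classical
  have hnc : ∀ (F : SimpleGraph V) [DecidableRel F.Adj] (v : V),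
      (F.neighborSet v).ncard = F.degree v := by
    intro F _ v
    rw [Set.ncard_eq_toFinset_card', ← SimpleGraph.card_neighborFinset_eq_degree]
    rfl
  have hG' : ∀ v, (G.neighborSet v).ncard = 3 := fun v => by rw [hnc, hG v]
  have hH' : ∀ v, (H.neighborSet v).ncard = 2 := fun v => by rw [hnc, hH v]
  refine ⟨fun hcyc => ?_, (main_graph G H hG hHG hH h2 hch).1⟩
  obtain ⟨N, hN, hV, hK, f, φ, hφ⟩ := exists_iso G H hG' hHG hH' h2 hch
  have : NeZero N := ⟨by omega⟩
  have hreg : ∀ v, G.degree v = 3 := hG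
  have hne : ∃ u v, G.Adj u v := exists_adj G hreg (φ (.inl 0))
  have h6 := le_rim hreg (by omega) φ hcyc
  have hcyc' := cyc_iso φ hcyc
  by_cases h5 : N = 5
  · right
    subst h5
    obtain ⟨ψ⟩ := petersen_of_noFour f (noFour_of_cyc f le_rfl hcyc')
    exact ⟨φ.symm.trans ψ⟩
  · left
    rcases Nat.mod_two_eq_zero_or_one N with heven | hodd
    · exact circularFlowNumber_le G hne (hasFlow_iso φ.symm (flow_even (by omega) heven))
    by_cases h3 : N % 4 = 3
    · exact circularFlowNumber_le G hne (hasFlow_iso φ.symm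
        (flow_three G H hG' hHG hH' h2 hK (by omega) h3 φ hφ hcyc'))
    · exact circularFlowNumber_le G hne (hasFlow_iso φ.symm
        (flow_all (R N) (by omega) hodd hcyc'))

end Pool.Agent.Helper19.RG
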