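import Pool.Agent.Helper19.RG.Step

/-!
Sides in coordinates, and rotations of permutation graphs. (Problem MP_d067c8_co.)
-/

namespace Pool.Agent.Helper19.RG

open Finset Pool.Agent.Helper19.CF

section iso

variable {N : ℕ} [NeZero N] {f f' : Equiv.Perm (ZMod N)}

theorem cutSize_iso {V W : Type*} {G : SimpleGraph V} {G' : SimpleGraph W}
    (φ : G ≃g G') (S : Set V) : cutSize G' (φ '' S) = cutSize G S := by
  symm
  unfold cutSize
  refine Nat.card_congr (Equiv.subtypeEquiv (Equiv.prodCongr φ.toEquiv φ.toEquiv) ?_)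
  rintro ⟨a, b⟩
  show (a ∈ S ∧ b ∉ S ∧ G.Adj a b) ↔ (φ a ∈ φ '' S ∧ φ b ∉ φ '' S ∧ G'.Adj (φ a) (φ b))
  rw [φ.injective.mem_set_image, φ.injective.mem_set_image, φ.map_adj_iff]

/-- The image of a set. -/
def im (φ : permGraph N f ≃g permGraph N f') (Y : Finset (ZMod N ⊕ ZMod N)) :
    Finset (ZMod N ⊕ ZMod N) := Y.map φ.toEquiv.toEmbedding

omit [NeZero N] in
theorem mem_im (φ : permGraph N f ≃g permGraph N f') (Y : Finset (ZMod N ⊕ ZMod N))
    (v : ZMod N ⊕ ZMod N) : φ v ∈ im φ Y ↔ v ∈ Y := by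
  unfold im
  rw [Finset.mem_map]
  constructor
  · rintro ⟨w, hw, h⟩
    have := φ.injective h
    rwa [← this]
  · exact fun h => ⟨v, h, rfl⟩

theorem mem_im' (φ : permGraph N f ≃g permGraph N f') (Y : Finset (ZMod N ⊕ ZMod N))
    (v : ZMod N ⊕ ZMod N) : v ∈ im φ Y ↔ φ.symm v ∈ Y := by
  have h := mem_im φ Y (φ.symm v)
  rwa [φ.apply_symm_apply] at h

theorem Side.im (φ : permGraph N f ≃g permGraph N f') {Y : Finset (ZMod N ⊕ ZMod N)}
    (h : Side f Y) : Side f' (im φ Y) := by
  have h1 : ((RG.im φ Y : Finset (ZMod N ⊕ ZMod N)) : Set (ZMod N ⊕ ZMod N)) = φ '' Y := by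
    ext v
    rw [Finset.mem_coe, mem_im']
    constructor
    · intro hv
      exact ⟨_, hv, φ.apply_symm_apply v⟩
    · rintro ⟨w, hw, rfl⟩
      rw [φ.symm_apply_apply]
      exact hw
  have h2 : (RG.im φ Y).card = Y.card := card_map _
  refine ⟨?_, ?_, ?_⟩
  · rw [h1, cutSize_iso]
    exact h.cut
  · rw [h2]
    exact h.seven
  · have h3 := h.seven'
    rw [card_compl] at h3 ⊢
    rw [h2]
    exact h3

/-- The situation of a minimal side in a graph without sides with seven vertices. -/
structure Ctx (f : Equiv.Perm (ZMod N)) (M : Finset (ZMod N ⊕ ZMod N)) : Prop where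
  cyc : CyclicallyEdgeConnected (permGraph N f) 5
  noflow : ¬ HasFlow (permGraph N f) (9 / 2)
  side : Side f M
  min : ∀ X ⊆ M, Side f X → X = M
  no7 : ∀ Y, Side f Y → Y.card ≠ 7

theorem Ctx.im (φ : permGraph N f ≃g permGraph N f') {M : Finset (ZMod N ⊕ ZMod N)}
    (h : Ctx f M) : Ctx f' (im φ M) := by
  have hback : ∀ X, RG.im φ (RG.im φ.symm X) = X := by
    intro X
    ext v
    rw [mem_im', mem_im']
    show φ (φ.symm v) ∈ X ↔ v ∈ X
    rw [φ.apply_symm_apply]
  refine ⟨cyc_iso φ.symm h.cyc, fun h1 => h.noflow (hasFlow_iso φ h1), h.side.im φ, ?_, ?_⟩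
  · intro X hX hs
    have h1 : RG.im φ.symm X ⊆ M := by
      intro v hv
      rw [mem_im'] at hv
      have := hX hv
      rw [mem_im'] at this
      have h2 : φ.symm (φ.symm.symm v) = v := φ.symm.apply_symm_apply v
      rwa [h2] at this
    have h2 := h.min _ h1 (hs.im φ.symm)
    rw [← h2, hback]
  · intro Y hY h7
    have h1 := h.no7 _ (hY.im φ.symm)
    apply h1
    rw [← h7]
    exact card_map _

theorem Ctx.uncrossed (hN : 5 < N) {M : Finset (ZMod N ⊕ ZMod N)} (h : Ctx f M) :
    ∀ Y, Side f Y → M ⊆ Y ∨ M ⊆ Yᶜ := by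
  classical
  intro Y hY
  have hreg : ∀ v, (permGraph N f).degree v = 3 := permGraph_regular (by omega)
  have hM := h.side
  have h1 := hM.seven
  have h2 := parity (permGraph N f) hreg M
  rw [hM.dd] at h2
  have h3 := h.no7 M hM
  have hc : ∀ X : Finset (ZMod N ⊕ ZMod N), X.card + Xᶜ.card = 2 * N := by
    intro X
    rw [card_add_card_compl, Fintype.card_sum, ZMod.card]
    ring
  refine RG.uncrossed (permGraph N f) hreg h.cyc hM.dd (by omega) hM.seven' ?_ ?_ hY.dd hY.seven
    hY.seven'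
  · intro X hX h4 h5
    refine h.min X hX ⟨by rw [cutSize_coe]; exact h4, h5, ?_⟩
    have h6 := card_le_card hX
    have h7 := hM.seven'
    have := hc X
    have := hc M
    omega
  · intro X h4 h5
    by_cases h6 : 7 ≤ Xᶜ.card
    · exact h.no7 X ⟨by rw [cutSize_coe]; exact h4, by omega, h6⟩ h5
    · have h7 := hc X
      have h8 := hc M
      have h9 := hM.seven'
      omega

end iso

section rot

variable {N : ℕ} [NeZero N]

/-- The rotation by 90 degrees. -/
def rot (f : Equiv.Perm (ZMod N)) : Equiv.Perm (ZMod N) := f.symm.trans (Equiv.neg (ZMod N))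

omit [NeZero N] in
theorem rot_apply (f : Equiv.Perm (ZMod N)) (x : ZMod N) : rot f x = - f.symm x := rfl

omit [NeZero N] in
theorem rot_symm (f : Equiv.Perm (ZMod N)) (y : ZMod N) : (rot f).symm y = f (-y) := rfl

def rotIso (hN : 1 < N) (f : Equiv.Perm (ZMod N)) : permGraph N f ≃g permGraph N (rot f) where
  toEquiv := (Equiv.sumComm _ _).trans (Equiv.sumCongr (Equiv.refl _) (Equiv.neg _))
  map_rel_iff' := by
    rintro (x | x) (y | y)
    · show (permGraph N (rot f)).Adj (.inr (-x)) (.inr (-y)) ↔ _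
      rw [adj_rr hN, adj_ll hN]
      constructor
      · rintro (h | h)
        · right
          linear_combination h
        · left
          linear_combination h
      · rintro (h | h)
        · right
          rw [h]; ring
        · left
          rw [h]; ring
    · show (permGraph N (rot f)).Adj (.inr (-x)) (.inl y) ↔ _
      rw [adj_rl, adj_lr, rot_apply, neg_inj, Equiv.symm_apply_eq]
      exact eq_comm
    · show (permGraph N (rot f)).Adj (.inl x) (.inr (-y)) ↔ _
      rw [adj_lr, adj_rl, rot_apply, neg_inj, Equiv.symm_apply_eq]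
      exact eq_comm
    · show (permGraph N (rot f)).Adj (.inl x) (.inl y) ↔ _
      rw [adj_ll hN, adj_rr hN]

/-- The rotation by 180 degrees. -/
def half (f : Equiv.Perm (ZMod N)) : Equiv.Perm (ZMod N) :=
  (Equiv.neg (ZMod N)).trans (f.trans (Equiv.neg (ZMod N)))

omit [NeZero N] in
theorem half_apply (f : Equiv.Perm (ZMod N)) (x : ZMod N) : half f x = - f (-x) := rfl

omit [NeZero N] in
theorem half_symm (f : Equiv.Perm (ZMod N)) (y : ZMod N) : (half f).symm y = - f.symm (-y) := rfl

def halfIso (hN : 1 < N) (f : Equiv.Perm (ZMod N)) : permGraph N f ≃g permGraph N (half f) where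
  toEquiv := Equiv.sumCongr (Equiv.neg _) (Equiv.neg _)
  map_rel_iff' := by
    rintro (x | x) (y | y)
    · show (permGraph N (half f)).Adj (.inl (-x)) (.inl (-y)) ↔ _
      rw [adj_ll hN, adj_ll hN]
      constructor
      · rintro (h | h)
        · right
          linear_combination h
        · left
          linear_combination h
      · rintro (h | h)
        · right
          rw [h]; ring
        · left
          rw [h]; ring
    · show (permGraph N (half f)).Adj (.inl (-x)) (.inr (-y)) ↔ _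
      rw [adj_lr, adj_lr, half_apply, neg_inj, neg_neg]
    · show (permGraph N (half f)).Adj (.inr (-x)) (.inl (-y)) ↔ _
      rw [adj_rl, adj_rl, half_apply, neg_inj, neg_neg]
    · show (permGraph N (half f)).Adj (.inr (-x)) (.inr (-y)) ↔ _
      rw [adj_rr hN, adj_rr hN]
      constructor
      · rintro (h | h)
        · right
          linear_combination h
        · left
          linear_combination h
      · rintro (h | h)
        · right
          rw [h]; ring
        · left
          rw [h]; ring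

variable {f : Equiv.Perm (ZMod N)} {M : Finset (ZMod N ⊕ ZMod N)}

theorem rot_inl (hN : 1 < N) (x : ZMod N) :
    (.inl x : ZMod N ⊕ ZMod N) ∈ im (rotIso hN f) M ↔ (.inr x : ZMod N ⊕ ZMod N) ∈ M := by
  rw [mem_im']
  rfl

theorem rot_inr (hN : 1 < N) (x : ZMod N) :
    (.inr x : ZMod N ⊕ ZMod N) ∈ im (rotIso hN f) M ↔ (.inl (-x) : ZMod N ⊕ ZMod N) ∈ M := by
  rw [mem_im']
  rfl

theorem half_inl (hN : 1 < N) (x : ZMod N) :
    (.inl x : ZMod N ⊕ ZMod N) ∈ im (halfIso hN f) M ↔ (.inl (-x) : ZMod N ⊕ ZMod N) ∈ M := by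
  rw [mem_im']
  rfl

theorem half_inr (hN : 1 < N) (x : ZMod N) :
    (.inr x : ZMod N ⊕ ZMod N) ∈ im (halfIso hN f) M ↔ (.inr (-x) : ZMod N ⊕ ZMod N) ∈ M := by
  rw [mem_im']
  rfl

theorem mir_inl (hN : 1 < N) (x : ZMod N) :
    (.inl x : ZMod N ⊕ ZMod N) ∈ im (mirIso hN f) M ↔ (.inl x : ZMod N ⊕ ZMod N) ∈ M := by
  rw [mem_im']
  rfl

theorem mir_inr (hN : 1 < N) (x : ZMod N) :
    (.inr x : ZMod N ⊕ ZMod N) ∈ im (mirIso hN f) M ↔ (.inr (-x) : ZMod N ⊕ ZMod N) ∈ M := by
  rw [mem_im']
  rfl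

theorem Rig.rot (hN : 1 < N) (h : Rig f M) : Rig (rot f) (im (rotIso hN f) M) := by
  constructor
  · intro x hx
    rw [rot_inl, rot_inl] at hx
    rw [rot_apply, rot_apply]
    have h1 : - f.symm x - -f.symm (x + 1) = f.symm (x + 1) - f.symm x := by ring
    rw [h1]
    exact h.hB x hx
  · intro y hy
    rw [rot_inr, rot_inr] at hy
    rw [rot_symm, rot_symm]
    have h1 : -y = -(y + 1) + 1 := by ring
    rw [h1] at hy ⊢
    exact h.hA _ hy.symm

theorem Rig.half (hN : 1 < N) (h : Rig f M) : Rig (half f) (im (halfIso hN f) M) := by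
  constructor
  · intro x hx
    rw [half_inl, half_inl] at hx
    rw [half_apply, half_apply]
    have h1 : - f (-x) - -f (-(x + 1)) = f (-(x + 1)) - f (-(x + 1) + 1) := by
      have h2 : -x = -(x + 1) + 1 := by ring
      rw [h2]
      ring
    rw [h1]
    have h2 : -x = -(x + 1) + 1 := by ring
    rw [h2] at hx
    exact h.hA _ hx.symm
  · intro y hy
    rw [half_inr, half_inr] at hy
    rw [half_symm, half_symm]
    have h2 : -y = -(y + 1) + 1 := by ring
    have h1 : - f.symm (-(y + 1)) - -f.symm (-y) =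
        f.symm (-(y + 1) + 1) - f.symm (-(y + 1)) := by
      rw [h2]
      ring
    rw [h1]
    rw [h2] at hy
    exact h.hB _ hy.symm

end rot

end Pool.Agent.Helper19.RG
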