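import Pool.Agent.Helper19.RG.WordQ
import Pool.Agent.Helper19.RG.Geo

/-!
Sides with seven vertices: the frame, and the local facts on killing cuts.
(Problem MP_d067c8_co.)
-/

namespace Pool.Agent.Helper19.RG

open Finset Pool.Agent.Helper19.CF

section mono

variable {N : ℕ} [NeZero N]

/-- A two-colouring of a cycle of odd length has an odd number of monochromatic edges. -/
theorem mono_total (c : ZMod N → Bool) :
    (univ.filter fun x : ZMod N => c x = c (x + 1)).card % 2 = N % 2 := by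
  have h1 : ∑ x : ZMod N, (if c (x + 1) = true then 1 else 0) =
      ∑ x : ZMod N, (if c x = true then 1 else 0) :=
    Equiv.sum_comp (Equiv.addRight (1 : ZMod N)) fun x => if c x = true then 1 else 0
  have h2 : ∀ x : ZMod N, ((if c x = c (x + 1) then 1 else 0) + (if c x = true then 1 else 0) +
      (if c (x + 1) = true then 1 else 0)) % 2 = 1 := by
    intro x
    cases c x <;> cases c (x + 1) <;> simp
  have h3 : ∀ s : Finset (ZMod N), (∑ x ∈ s, ((if c x = c (x + 1) then 1 else 0) +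
      (if c x = true then 1 else 0) + (if c (x + 1) = true then 1 else 0))) % 2 = s.card % 2 := by
    intro s
    induction s using Finset.induction_on with
    | empty => simp
    | insert x s hx ih =>
      rw [sum_insert hx, card_insert_of_notMem hx]
      have := h2 x
      omega
  have h4 := h3 univ
  rw [sum_add_distrib, sum_add_distrib, h1, card_univ, ZMod.card] at h4
  rw [card_filter]
  omega

end mono

section bad

variable {N : ℕ} [NeZero N]

/-- The standing assumption. -/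
structure Bad (f : Equiv.Perm (ZMod N)) : Prop where
  hN : 9 ≤ N
  hodd : N % 2 = 1
  cyc : CyclicallyEdgeConnected (permGraph N f) 5
  noflow : ¬ HasFlow (permGraph N f) (9 / 2)

theorem Bad.iso {f f' : Equiv.Perm (ZMod N)} (φ : permGraph N f ≃g permGraph N f') (h : Bad f) :
    Bad f' :=
  ⟨h.hN, h.hodd, cyc_iso φ.symm h.cyc, fun h1 => h.noflow (hasFlow_iso φ h1)⟩

variable {f : Equiv.Perm (ZMod N)} {X Y : Finset (ZMod N ⊕ ZMod N)}

/-- No vertex of a side has two neighbours outside. -/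
theorem Side.two_out (hb : Bad f) (hY : Side f Y) {v u w : ZMod N ⊕ ZMod N} (hv : v ∈ Y)
    (hu : u ∉ Y) (hw : w ∉ Y) (huw : u ≠ w) (hvu : (permGraph N f).Adj v u)
    (hvw : (permGraph N f).Adj v w) : False := by
  classical
  have hN := hb.hN
  have hreg : ∀ v, (permGraph N f).degree v = 3 := permGraph_regular (by omega)
  have h4 := dd_erase (permGraph N f) hreg hv hu hw huw hvu hvw
  have h5 := hY.dd
  have h6 := hY.seven
  have h7 := hY.seven'
  have h8 : (Y.erase v).card = Y.card - 1 := card_erase_of_mem hv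
  have h9 : (Y.erase v)ᶜ.card = Fintype.card (ZMod N ⊕ ZMod N) - (Y.card - 1) := by
    rw [card_compl, h8]
  rw [card_compl] at h7
  have h10 := small_side (permGraph N f) hreg hb.cyc (Y.erase v) (by omega)
  omega

/-- No vertex outside a side has two neighbours inside. -/
theorem Side.two_in (hb : Bad f) (hY : Side f Y) {v u w : ZMod N ⊕ ZMod N} (hv : v ∉ Y)
    (hu : u ∈ Y) (hw : w ∈ Y) (huw : u ≠ w) (hvu : (permGraph N f).Adj v u)
    (hvw : (permGraph N f).Adj v w) : False :=
  hY.compl.two_out hb (mem_compl.mpr hv) (notMem_compl.mpr hu) (notMem_compl.mpr hw) huw hvu hvw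

theorem adjA (hb : Bad f) (x : ZMod N) : (permGraph N f).Adj (.inl x) (.inl (x + 1)) :=
  (adj_ll (by have := hb.hN; omega) _ _).mpr (Or.inl rfl)

theorem adjA' (hb : Bad f) (x : ZMod N) : (permGraph N f).Adj (.inl x) (.inl (x - 1)) :=
  (adj_ll (by have := hb.hN; omega) _ _).mpr (Or.inr (by ring))

theorem adjB (hb : Bad f) (x : ZMod N) : (permGraph N f).Adj (.inr x) (.inr (x + 1)) :=
  (adj_rr (by have := hb.hN; omega) _ _).mpr (Or.inl rfl)

theorem adjB' (hb : Bad f) (x : ZMod N) : (permGraph N f).Adj (.inr x) (.inr (x - 1)) :=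
  (adj_rr (by have := hb.hN; omega) _ _).mpr (Or.inr (by ring))

theorem adjS (x : ZMod N) : (permGraph N f).Adj (.inl x) (.inr (f x)) := (adj_lr _ _).mpr rfl

/-- The neighbours of the ends of the crossing spoke. -/
theorem Side.starA (hb : Bad f) (hY : Side f Y) {x : ZMod N}
    (h1 : (.inl x : ZMod N ⊕ ZMod N) ∈ Y) (h2 : (.inr (f x) : ZMod N ⊕ ZMod N) ∉ Y) :
    (.inl (x + 1) : ZMod N ⊕ ZMod N) ∈ Y ∧ (.inl (x - 1) : ZMod N ⊕ ZMod N) ∈ Y ∧
      (.inr (f x + 1) : ZMod N ⊕ ZMod N) ∉ Y ∧ (.inr (f x - 1) : ZMod N ⊕ ZMod N) ∉ Y := by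
  refine ⟨?_, ?_, ?_, ?_⟩
  · by_contra h
    exact hY.two_out hb h1 h2 h Sum.inr_ne_inl (adjS x) (adjA hb x)
  · by_contra h
    exact hY.two_out hb h1 h2 h Sum.inr_ne_inl (adjS x) (adjA' hb x)
  · intro h
    exact hY.two_in hb h2 h1 h Sum.inl_ne_inr (adjS x).symm (adjB hb _)
  · intro h
    exact hY.two_in hb h2 h1 h Sum.inl_ne_inr (adjS x).symm (adjB' hb _)

theorem Side.starB (hb : Bad f) (hY : Side f Y) {x : ZMod N}
    (h1 : (.inl x : ZMod N ⊕ ZMod N) ∉ Y) (h2 : (.inr (f x) : ZMod N ⊕ ZMod N) ∈ Y) :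
    (.inl (x + 1) : ZMod N ⊕ ZMod N) ∉ Y ∧ (.inl (x - 1) : ZMod N ⊕ ZMod N) ∉ Y ∧
      (.inr (f x + 1) : ZMod N ⊕ ZMod N) ∈ Y ∧ (.inr (f x - 1) : ZMod N ⊕ ZMod N) ∈ Y := by
  refine ⟨?_, ?_, ?_, ?_⟩
  · intro h
    exact hY.two_in hb h1 h2 h Sum.inr_ne_inl (adjS x) (adjA hb x)
  · intro h
    exact hY.two_in hb h1 h2 h Sum.inr_ne_inl (adjS x) (adjA' hb x)
  · by_contra h
    exact hY.two_out hb h2 h1 h Sum.inl_ne_inr (adjS x).symm (adjB hb _)
  · by_contra h
    exact hY.two_out hb h2 h1 h Sum.inl_ne_inr (adjS x).symm (adjB' hb _)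

variable {a b : ℤ} {q : ℤ → ZMod N} {cA cB : ZMod N → Bool}

/-- The cut spoke is an interior spoke of the word. -/
theorem KillQ.interior (hb : Bad f) {k : ℤ} (h : KillQ f a b q cA cB Y k)
    (hq : QZ f a b q cA cB) : a < k ∧ k < b := by
  have hodd := hb.hodd
  have hA := h.parA
  have hB := h.parB
  constructor
  · by_contra hk
    have hk : k = a := by have := h.ak; omega
    have e1 : (univ.filter fun x : ZMod N => cA x = cA (x + 1) ∧
        (.inl x : ZMod N ⊕ ZMod N) ∈ Y) = ∅ := by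
      rw [filter_eq_empty_iff]
      rintro x - ⟨g1, g2⟩
      obtain ⟨i, g3, g4, g5, g6⟩ := hq.mA x g1
      have g7 := h.stepA g3 g4 g5
      rcases g6 with ⟨g8, g9⟩ | ⟨g8, g9⟩
      · rw [g8] at g7
        have := g7.1.mp g2
        omega
      · rw [g9] at g7
        have := g7.2.mp g2
        omega
    have e2 : (univ.filter fun x : ZMod N => cB x = cB (x + 1) ∧
        (.inr x : ZMod N ⊕ ZMod N) ∈ Y) = ∅ := by
      rw [filter_eq_empty_iff]
      rintro x - ⟨g1, g2⟩
      obtain ⟨i, g3, g4, g5, g6⟩ := hq.mB x g1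
      have g7 := h.stepB g3 g4 g5
      rcases g6 with ⟨g8, g9⟩ | ⟨g8, g9⟩
      · rw [g8] at g7
        have := g7.1.mp g2
        omega
      · rw [g9] at g7
        have := g7.2.mp g2
        omega
    rw [e1, card_empty] at hA
    rw [e2, card_empty] at hB
    rcases Int.emod_two_eq_zero_or_one k with g | g
    · have := h.heavy.1 g
      omega
    · have := h.heavy.2 g
      omega
  · by_contra hk
    have hk : k = b := by have := h.kb; omega
    have e1 : (univ.filter fun x : ZMod N => cA x = cA (x + 1) ∧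
        (.inl x : ZMod N ⊕ ZMod N) ∈ Y) = univ.filter fun x : ZMod N => cA x = cA (x + 1) := by
      ext x
      simp only [mem_filter, mem_univ, true_and, and_iff_left_iff_imp]
      intro g1
      obtain ⟨i, g3, g4, g5, g6⟩ := hq.mA x g1
      have g7 := h.stepA g3 g4 g5
      rcases g6 with ⟨g8, g9⟩ | ⟨g8, g9⟩
      · rw [g8] at g7
        exact g7.1.mpr (by omega)
      · rw [g9] at g7
        exact g7.2.mpr (by omega)
    have e2 : (univ.filter fun x : ZMod N => cB x = cB (x + 1) ∧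
        (.inr x : ZMod N ⊕ ZMod N) ∈ Y) = univ.filter fun x : ZMod N => cB x = cB (x + 1) := by
      ext x
      simp only [mem_filter, mem_univ, true_and, and_iff_left_iff_imp]
      intro g1
      obtain ⟨i, g3, g4, g5, g6⟩ := hq.mB x g1
      have g7 := h.stepB g3 g4 g5
      rcases g6 with ⟨g8, g9⟩ | ⟨g8, g9⟩
      · rw [g8] at g7
        exact g7.1.mpr (by omega)
      · rw [g9] at g7
        exact g7.2.mpr (by omega)
    rw [e1] at hA
    rw [e2] at hB
    have t1 := mono_total cA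
    have t2 := mono_total cB
    rcases Int.emod_two_eq_zero_or_one k with g | g
    · have := h.heavy.1 g
      omega
    · have := h.heavy.2 g
      omega

/-- A boundary vertex outside has the other colour. -/
theorem KillQ.bd' (hb : Bad f) {k : ℤ} (h : KillQ f a b q cA cB Y k)
    (hq : QZ f a b q cA cB) : ∀ u ∈ Y, ∀ v ∉ Y, (permGraph N f).Adj u v →
      qC cA cB v ≠ qC cA cB (endB f q b) := by
  classical
  intro u hu v hv huv
  have hN := hb.hN
  have h1 := h.bd u hu v hv huv
  have hD := nearData_of_QZ (by omega) hq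
  -- the edge is not in the matching
  have hz : ¬ qZ f a b q u v := by
    intro hz
    rcases u with u | u <;> rcases v with v | v
    · obtain ⟨i, g1, g2, g3, g4, g5, g6⟩ := hz
      rw [g5] at hu
      rw [g6] at hv
      unfold pa at g3 g4 hv
      split_ifs at g3 g4 hv with g7
      · have := h.stepA g1 (by omega) g7
        exact hv (this.2.mpr (this.1.mp hu))
      · have := h.stepA (i := i - 1) g3 (by omega) (by omega)
        rw [sub_add_cancel] at this
        exact hv (this.1.mpr (this.2.mp hu))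
    · have g1 := h.other u (hz.2 k h.ak h.kb)
      rw [hz.1] at g1
      exact hv (g1.mp hu)
    · have g1 := h.other v (hz.2 k h.ak h.kb)
      rw [hz.1] at g1
      exact hv (g1.mpr hu)
    · obtain ⟨i, g1, g2, g3, g4, g5, g6⟩ := hz
      rw [g5] at hu
      rw [g6] at hv
      unfold pb at g3 g4 hv
      split_ifs at g3 g4 hv with g7
      · have := h.stepB g1 (by omega) g7
        exact hv (this.2.mpr (this.1.mp hu))
      · have := h.stepB (i := i - 1) g3 (by omega) (by omega)
        rw [sub_add_cancel] at this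
        exact hv (this.1.mpr (this.2.mp hu))
  have h2 := hD.bip u v huv hz
  rw [if_pos h1] at h2
  intro h3
  rw [if_pos h3] at h2
  norm_num at h2

/-- The neighbours of the cut spoke. -/
theorem KillQ.nbr (hb : Bad f) {k : ℤ} (h : KillQ f a b q cA cB Y k) :
    (k % 2 = 0 → (.inl (q k + 1) : ZMod N ⊕ ZMod N) ∉ Y ∧ (.inl (q k - 1) : ZMod N ⊕ ZMod N) ∉ Y ∧
      (.inr (f (q k) + 1) : ZMod N ⊕ ZMod N) ∈ Y ∧ (.inr (f (q k) - 1) : ZMod N ⊕ ZMod N) ∈ Y) ∧
    (k % 2 = 1 → (.inl (q k + 1) : ZMod N ⊕ ZMod N) ∈ Y ∧ (.inl (q k - 1) : ZMod N ⊕ ZMod N) ∈ Y ∧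
      (.inr (f (q k) + 1) : ZMod N ⊕ ZMod N) ∉ Y ∧ (.inr (f (q k) - 1) : ZMod N ⊕ ZMod N) ∉ Y) := by
  constructor
  · intro g
    have := h.cut.1 g
    exact h.side.starB hb this.2 this.1
  · intro g
    have := h.cut.2 g
    exact h.side.starA hb this.1 this.2

/-- Words in a bad graph. -/
theorem Bad.kill (hb : Bad f) (hq : QZ f a b q cA cB) :
    ∃ (Y : Finset (ZMod N ⊕ ZMod N)) (k : ℤ), KillQ f a b q cA cB Y k ∧ a < k ∧ k < b := by
  obtain ⟨Y, k, h⟩ := hq.kill (by have := hb.hN; omega) hb.cyc hb.noflow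
  exact ⟨Y, k, h, h.interior hb hq⟩

/-- Colours given as functions of the positions relative to a base point. -/
theorem qz_pos {c d : ZMod N} (A B : ℕ → ℕ) (hle : a ≤ b)
    (inj : ∀ i i', a ≤ i → i ≤ b → a ≤ i' → i' ≤ b → q i = q i' → i = i')
    (hA : ∀ i, a ≤ i → i + 1 ≤ b → i % 2 = 0 → q (i + 1) = q i + 1 ∨ q i = q (i + 1) + 1)
    (hB : ∀ i, a ≤ i → i + 1 ≤ b → i % 2 = 1 →
      f (q (i + 1)) = f (q i) + 1 ∨ f (q i) = f (q (i + 1)) + 1)
    (col : ∀ i, a ≤ i → i ≤ b → (A (q i - c).val + B (f (q i) - d).val) % 2 = 1)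
    (mA : ∀ u : ℕ, u < N → (A u + A (if u + 1 = N then 0 else u + 1)) % 2 = 0 →
      ∃ i, a ≤ i ∧ i + 1 ≤ b ∧ i % 2 = 0 ∧
        ((q i = c + u ∧ q (i + 1) = c + u + 1) ∨ (q i = c + u + 1 ∧ q (i + 1) = c + u)))
    (mB : ∀ u : ℕ, u < N → (B u + B (if u + 1 = N then 0 else u + 1)) % 2 = 0 →
      ∃ i, a ≤ i ∧ i + 1 ≤ b ∧ i % 2 = 1 ∧
        ((f (q i) = d + u ∧ f (q (i + 1)) = d + u + 1) ∨
          (f (q i) = d + u + 1 ∧ f (q (i + 1)) = d + u))) :
    QZ f a b q (fun x => decide (A (x - c).val % 2 = 0))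
      (fun y => decide (B (y - d).val % 2 = 0)) := by
  have hN : 0 < N := Nat.pos_of_ne_zero (NeZero.ne N)
  have hstep : ∀ w : ZMod N, (w + 1).val = if w.val + 1 = N then 0 else w.val + 1 := by
    intro w
    split_ifs with h
    · have h1 : w + 1 = ((w.val + 1 : ℕ) : ZMod N) := by
        push_cast
        rw [ZMod.natCast_zmod_val]
      rw [h1, h, ZMod.natCast_self, ZMod.val_zero]
    · have h1 : w + 1 = ((w.val + 1 : ℕ) : ZMod N) := by
        push_cast
        rw [ZMod.natCast_zmod_val]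
      have := ZMod.val_lt w
      rw [h1, ZMod.val_natCast_of_lt (by omega)]
  constructor
  · exact hle
  · exact inj
  · exact hA
  · exact hB
  · intro i h1 h2
    have h3 := col i h1 h2
    rw [Ne, decide_eq_decide]
    omega
  · intro x hx
    rw [decide_eq_decide] at hx
    have h1 : x + 1 - c = (x - c) + 1 := by ring
    rw [h1, hstep] at hx
    have h2 := mA (x - c).val (ZMod.val_lt _) (by omega)
    have h3 : c + (((x - c).val : ℕ) : ZMod N) = x := by
      rw [ZMod.natCast_zmod_val]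
      ring
    rw [h3] at h2
    exact h2
  · intro x hx
    rw [decide_eq_decide] at hx
    have h1 : x + 1 - d = (x - d) + 1 := by ring
    rw [h1, hstep] at hx
    have h2 := mB (x - d).val (ZMod.val_lt _) (by omega)
    have h3 : d + (((x - d).val : ℕ) : ZMod N) = x := by
      rw [ZMod.natCast_zmod_val]
      ring
    rw [h3] at h2
    exact h2

end bad

section frame

variable {N : ℕ} [NeZero N] {f : Equiv.Perm (ZMod N)} {X : Finset (ZMod N ⊕ ZMod N)}

/-- The frame of helper51: columns `c - 2, ..., c + 1`, rows `d, d + 1, d + 2`, star column `c`. -/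
structure M7 (f : Equiv.Perm (ZMod N)) (c d : ZMod N) : Prop where
  a : f (c - 2) = d + 2
  b : f (c - 1) = d
  g : f (c + 1) = d + 1

/-- The vertex set. -/
def m7 (c d : ZMod N) : Finset (ZMod N ⊕ ZMod N) := arcs (c - 2) d 4 3

theorem mem_m7_l (hN : 9 ≤ N) {c d : ZMod N} (x : ZMod N) :
    (.inl x : ZMod N ⊕ ZMod N) ∈ m7 c d ↔ x = c - 2 ∨ x = c - 1 ∨ x = c ∨ x = c + 1 := by
  unfold m7
  rw [mem_arcs_l]
  have key : ∀ (j : ℕ), j < 4 → ((x - (c - 2)).val = j ↔ x = c - 2 + j) := by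
    intro j hj
    constructor
    · intro h
      rw [← h, ZMod.natCast_zmod_val]
      ring
    · intro h
      have h1 : x - (c - 2) = j := by rw [h]; ring
      rw [h1, ZMod.val_natCast_of_lt (by omega)]
  have k0 := key 0 (by omega)
  have k1 := key 1 (by omega)
  have k2 := key 2 (by omega)
  have k3 := key 3 (by omega)
  have e0 : c - 2 + ((0 : ℕ) : ZMod N) = c - 2 := by simp
  have e1 : c - 2 + ((1 : ℕ) : ZMod N) = c - 1 := by push_cast; ring
  have e2 : c - 2 + ((2 : ℕ) : ZMod N) = c := by push_cast; ring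
  have e3 : c - 2 + ((3 : ℕ) : ZMod N) = c + 1 := by push_cast; ring
  rw [e0] at k0
  rw [e1] at k1
  rw [e2] at k2
  rw [e3] at k3
  rw [← k0, ← k1, ← k2, ← k3]
  omega

theorem mem_m7_r (hN : 9 ≤ N) {c d : ZMod N} (y : ZMod N) :
    (.inr y : ZMod N ⊕ ZMod N) ∈ m7 c d ↔ y = d ∨ y = d + 1 ∨ y = d + 2 := by
  unfold m7
  rw [mem_arcs_r]
  have key : ∀ (j : ℕ), j < 3 → ((y - d).val = j ↔ y = d + j) := by
    intro j hj
    constructor
    · intro h
      rw [← h, ZMod.natCast_zmod_val]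
      ring
    · intro h
      have h1 : y - d = j := by rw [h]; ring
      rw [h1, ZMod.val_natCast_of_lt (by omega)]
  have k0 := key 0 (by omega)
  have k1 := key 1 (by omega)
  have k2 := key 2 (by omega)
  have e0 : d + ((0 : ℕ) : ZMod N) = d := by simp
  have e1 : d + ((1 : ℕ) : ZMod N) = d + 1 := by push_cast; ring
  have e2 : d + ((2 : ℕ) : ZMod N) = d + 2 := by push_cast; ring
  rw [e0] at k0
  rw [e1] at k1
  rw [e2] at k2
  rw [← k0, ← k1, ← k2]
  omega

theorem M7.side (hN : 9 ≤ N) {c d : ZMod N} (h : M7 f c d) :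
    Side f (m7 c d) ∧ (m7 c d).card = 7 := by
  refine side_A (c := c - 2) (d := d) (m := 3) (by omega) (by omega) (by omega) (by omega)
    (fun x => mem_arcs_l x) (fun y => mem_arcs_r y) ?_
  intro x hx
  show (.inl x : ZMod N ⊕ ZMod N) ∈ m7 c d
  have hx' : (.inr (f x) : ZMod N ⊕ ZMod N) ∈ m7 c d := hx
  rw [mem_m7_r hN] at hx'
  rw [mem_m7_l hN]
  rcases hx' with h1 | h1 | h1
  · rw [← h.b] at h1
    have := f.injective h1
    tauto
  · rw [← h.g] at h1
    have := f.injective h1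
    tauto
  · rw [← h.a] at h1
    have := f.injective h1
    tauto

/-- A side in coordinates which does not contain the base points. -/
structure Box (X : Finset (ZMod N ⊕ ZMod N)) (c d : ZMod N) (p q r s : ℕ) : Prop where
  p1 : 1 ≤ p
  r1 : 1 ≤ r
  pq : p ≤ q
  rs : r ≤ s
  qN : q < N
  sN : s < N
  memA : ∀ x, (.inl x : ZMod N ⊕ ZMod N) ∈ X ↔ p ≤ (x - c).val ∧ (x - c).val ≤ q
  memB : ∀ y, (.inr y : ZMod N ⊕ ZMod N) ∈ X ↔ r ≤ (y - d).val ∧ (y - d).val ≤ s
  cardA : nA X = q + 1 - p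
  cardB : nB X = s + 1 - r

theorem arc_box {c c' : ZMod N} {l : ℕ} (hl : 0 < l) (hlN : l < N)
    (hc : ¬ (c - c').val < l) : ∃ p q, 1 ≤ p ∧ p ≤ q ∧ q < N ∧ q + 1 - p = l ∧
      ∀ x : ZMod N, (x - c').val < l ↔ p ≤ (x - c).val ∧ (x - c).val ≤ q := by
  have hp : (c' - c).val + (c - c').val = N := by
    have hne : c' ≠ c := by
      rintro rfl
      rw [sub_self, ZMod.val_zero] at hc
      omega
    exact Pool.Agent.KR56.Rigid.val_swap hne
  have hlt := ZMod.val_lt (c - c')
  refine ⟨(c' - c).val, (c' - c).val + l - 1, by omega, by omega, by omega, by omega, ?_⟩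
  intro x
  have h1 := ZMod.val_lt (x - c')
  have h2 := ZMod.val_lt (x - c)
  have h3 : (x - c).val = (c' - c).val + (x - c').val ∨
      (x - c).val + N = (c' - c).val + (x - c').val := by
    have h4 : x - c = (((c' - c).val + (x - c').val : ℕ) : ZMod N) := by
      push_cast
      rw [ZMod.natCast_zmod_val, ZMod.natCast_zmod_val]
      ring
    rcases Nat.lt_or_ge ((c' - c).val + (x - c').val) N with h5 | h5
    · left
      rw [h4, ZMod.val_natCast_of_lt h5]
    · right
      have h6 : x - c = (((c' - c).val + (x - c').val - N : ℕ) : ZMod N) := by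
        rw [Nat.cast_sub h5, ZMod.natCast_self, sub_zero]
        exact h4
      rw [h6, ZMod.val_natCast_of_lt (by omega)]
      omega
  omega

theorem Side.box (hN : 9 ≤ N) (h : Side f X) {c d : ZMod N}
    (hc : (.inl c : ZMod N ⊕ ZMod N) ∉ X) (hd : (.inr d : ZMod N ⊕ ZMod N) ∉ X) :
    ∃ p q r s, Box X c d p q r s := by
  classical
  obtain ⟨c', d', l, m, x0, h1, h2, h3, h4, h5, h6, h7, h8⟩ :=
    cut_arcs (by omega) h.dd (by have := h.seven; omega) (by have := h.seven'; omega)
  have nA1 : nA X = l := by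
    unfold nA
    simp only [h5]
    exact card_arc c' (by omega)
  have nB1 : nB X = m := by
    unfold nB
    simp only [h6]
    exact card_arc d' (by omega)
  rw [h5] at hc
  rw [h6] at hd
  obtain ⟨p, q, e1, e2, e3, e4, e5⟩ := arc_box h1 h2 hc
  obtain ⟨r, s, g1, g2, g3, g4, g5⟩ := arc_box h3 h4 hd
  exact ⟨p, q, r, s, e1, g1, e2, g2, e3, g3, fun x => by rw [h5, e5], fun y => by rw [h6, g5],
    by rw [nA1, e4], by rw [nB1, g4]⟩

end frame

end Pool.Agent.Helper19.RG
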