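import Pool.Agent.Helper19.RG.Rows2
import Pool.Agent.Helper19.RG.Main3
import Pool.Agent.Helper46.M7.W0

/-!
Cyclically 5-edge-connected cubic graphs with a 2-factor consisting of two chordless cycles: the
final form. (Problem MP_d067c8_co.)
-/

namespace Pool.Agent.Helper19.RG

open Finset Pool.Agent.Helper19.CF

theorem rows (N : ℕ) [NeZero N] : Rows N :=
  rows_of_w0 fun _ _ _ hg hm hw => Pool.Agent.Helper46.M7.w0 hg hm hw

/-- The main theorem. -/
theorem main_final {V : Type*} [Fintype V] [DecidableEq V] (G H : SimpleGraph V)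
    [DecidableRel G.Adj] [DecidableRel H.Adj] (hG : G.IsRegularOfDegree 3) (hHG : H ≤ G)
    (hH : H.IsRegularOfDegree 2) (h2 : Nat.card H.ConnectedComponent = 2)
    (hch : ∀ u v, G.Adj u v → ¬ H.Adj u v → ¬ H.Reachable u v) :
    (CyclicallyEdgeConnected G 5 → circularFlowNumber G ≤ 9 / 2 ∨
      Nonempty (G ≃g SimpleGraph.fromRel
        (fun s t : {s : Finset (Fin 5) // s.card = 2} => Disjoint s.1 t.1))) ∧
    (Odd (Fintype.card V / 2) → 14 ≤ Fintype.card V →
      (∀ a b c d, G.Adj a b → G.Adj b c → G.Adj c d → G.Adj d a → a = c ∨ b = d) →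
      HasZ G) :=
  main_all (fun N _ => rows N) G H hG hHG hH h2 hch

end Pool.Agent.Helper19.RG
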