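import Pool.Agent.Helper19.RG.Graph

/-!
Near-perfect matchings contained in the rims: no tight 5-edge-cuts.  (Problem MP_d067c8_co.)
-/

namespace Pool.Agent.Helper19.RG

open Finset Pool.Agent.Helper19.CF

section cyc

variable {N : ℕ} [NeZero N]

theorem exists_up {P : ZMod N → Prop} {a b : ZMod N} (ha : P a) (hb : ¬ P b) :
    ∃ x, P x ∧ ¬ P (x + 1) := by
  by_contra hcon
  push Not at hcon
  have h1 : ∀ n : ℕ, P (a + n) := by
    intro n
    induction n with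
    | zero => simpa using ha
    | succ n ih =>
      have h2 := hcon _ ih
      rw [add_assoc] at h2
      push_cast
      exact h2
  have h2 := h1 (b - a).val
  rw [ZMod.natCast_zmod_val, add_sub_cancel] at h2
  exact hb h2

theorem exists_down {P : ZMod N → Prop} {a b : ZMod N} (ha : P a) (hb : ¬ P b) :
    ∃ x, P x ∧ ¬ P (x - 1) := by
  obtain ⟨x, hx1, hx2⟩ := exists_up (P := fun x => P (-x)) (a := -a) (b := -b)
    (by simpa using ha) (by simpa using hb)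
  refine ⟨-x, hx1, ?_⟩
  have h1 : -(x + 1) = -x - 1 := by ring
  rw [h1] at hx2
  exact hx2

/-- A set of vertices of a cycle which is neither empty nor everything has two boundary edges. -/
theorem two_le_rim (hN : 2 < N) (P : ZMod N → Prop) [DecidablePred P] {a b : ZMod N} (ha : P a)
    (hb : ¬ P b) :
    2 ≤ ∑ x, ∑ y, if (y = x + 1 ∨ x = y + 1) ∧ P x ∧ ¬ P y then 1 else 0 := by
  obtain ⟨x, hx1, hx2⟩ := exists_up ha hb
  obtain ⟨x', hx1', hx2'⟩ := exists_down ha hb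
  have hne : ((x, x + 1) : ZMod N × ZMod N) ≠ (x', x' - 1) := by
    intro h
    have h1 := congrArg Prod.fst h
    have h2 := congrArg Prod.snd h
    simp only at h1 h2
    rw [h1] at h2
    apply two_ne hN
    linear_combination h2
  rw [← sum_product' (f := fun x y =>
    if (y = x + 1 ∨ x = y + 1) ∧ P x ∧ ¬ P y then 1 else 0)]
  refine le_trans ?_ (sum_le_sum_of_subset (s := {(x, x + 1), (x', x' - 1)}) ?_)
  · rw [sum_pair hne]
    have g1 : (x + 1 = x + 1 ∨ x = x + 1 + 1) ∧ P x ∧ ¬ P (x + 1) := ⟨Or.inl rfl, hx1, hx2⟩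
    have g2 : (x' - 1 = x' + 1 ∨ x' = x' - 1 + 1) ∧ P x' ∧ ¬ P (x' - 1) :=
      ⟨Or.inr (by ring), hx1', hx2'⟩
    show 2 ≤ (if (x + 1 = x + 1 ∨ x = x + 1 + 1) ∧ P x ∧ ¬ P (x + 1) then 1 else 0) +
      (if (x' - 1 = x' + 1 ∨ x' = x' - 1 + 1) ∧ P x' ∧ ¬ P (x' - 1) then 1 else 0)
    rw [if_pos g1, if_pos g2]
  · intro p _
    exact mem_product.mpr ⟨mem_univ _, mem_univ _⟩

end cyc

variable {N : ℕ} [NeZero N] {f : Equiv.Perm (ZMod N)}

/-- The number of vertices of the rims in `Y`. -/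
def nl (Y : Finset (ZMod N ⊕ ZMod N)) : ℕ := ∑ x : ZMod N, if (.inl x : ZMod N ⊕ ZMod N) ∈ Y then 1 else 0
def nr (Y : Finset (ZMod N ⊕ ZMod N)) : ℕ := ∑ x : ZMod N, if (.inr x : ZMod N ⊕ ZMod N) ∈ Y then 1 else 0

/-- The number of spokes leaving `Y`. -/
def ns (f : Equiv.Perm (ZMod N)) (Y : Finset (ZMod N ⊕ ZMod N)) : ℕ :=
  ∑ x : ZMod N, if ((.inl x : ZMod N ⊕ ZMod N) ∈ Y ↔ (.inr (f x) : ZMod N ⊕ ZMod N) ∈ Y)
    then 0 else 1

theorem card_eq_nl_nr (Y : Finset (ZMod N ⊕ ZMod N)) : Y.card = nl Y + nr Y := by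
  have h1 : Y.card = ∑ v : ZMod N ⊕ ZMod N, if v ∈ Y then 1 else 0 := by
    rw [← card_filter]
    congr 1
    ext v
    simp
  rw [h1, Fintype.sum_sum_type]
  rfl

theorem nl_le (Y : Finset (ZMod N ⊕ ZMod N)) : nl Y ≤ N := by
  calc nl Y ≤ ∑ x : ZMod N, 1 := sum_le_sum fun x _ => by split_ifs <;> omega
    _ = N := by simp

theorem nr_le (Y : Finset (ZMod N ⊕ ZMod N)) : nr Y ≤ N := by
  calc nr Y ≤ ∑ x : ZMod N, 1 := sum_le_sum fun x _ => by split_ifs <;> omega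
    _ = N := by simp

theorem nl_le_add (Y : Finset (ZMod N ⊕ ZMod N)) : nl Y ≤ nr Y + ns f Y ∧ nr Y ≤ nl Y + ns f Y := by
  have h1 : nr Y = ∑ x : ZMod N, if (.inr (f x) : ZMod N ⊕ ZMod N) ∈ Y then 1 else 0 :=
    (Equiv.sum_comp f (fun y => if (.inr y : ZMod N ⊕ ZMod N) ∈ Y then 1 else 0)).symm
  rw [h1]
  unfold nl ns
  rw [← sum_add_distrib, ← sum_add_distrib]
  constructor
  · refine sum_le_sum fun x _ => ?_
    by_cases h2 : (.inl x : ZMod N ⊕ ZMod N) ∈ Y <;>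
      by_cases h3 : (.inr (f x) : ZMod N ⊕ ZMod N) ∈ Y <;> simp [h2, h3]
  · refine sum_le_sum fun x _ => ?_
    by_cases h2 : (.inl x : ZMod N ⊕ ZMod N) ∈ Y <;>
      by_cases h3 : (.inr (f x) : ZMod N ⊕ ZMod N) ∈ Y <;> simp [h2, h3]

theorem nl_cases (Y : Finset (ZMod N ⊕ ZMod N)) :
    nl Y = 0 ∨ nl Y = N ∨ ∃ a b : ZMod N, (.inl a : ZMod N ⊕ ZMod N) ∈ Y ∧
      (.inl b : ZMod N ⊕ ZMod N) ∉ Y := by
  by_cases h1 : ∃ a : ZMod N, (.inl a : ZMod N ⊕ ZMod N) ∈ Y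
  · by_cases h2 : ∃ b : ZMod N, (.inl b : ZMod N ⊕ ZMod N) ∉ Y
    · obtain ⟨a, ha⟩ := h1
      obtain ⟨b, hb⟩ := h2
      exact Or.inr (Or.inr ⟨a, b, ha, hb⟩)
    · push Not at h2
      right; left
      unfold nl
      rw [sum_congr rfl fun x _ => if_pos (h2 x)]
      simp
  · push Not at h1
    left
    unfold nl
    rw [sum_congr rfl fun x _ => if_neg (h1 x)]
    simp

theorem nr_cases (Y : Finset (ZMod N ⊕ ZMod N)) :
    nr Y = 0 ∨ nr Y = N ∨ ∃ a b : ZMod N, (.inr a : ZMod N ⊕ ZMod N) ∈ Y ∧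
      (.inr b : ZMod N ⊕ ZMod N) ∉ Y := by
  by_cases h1 : ∃ a : ZMod N, (.inr a : ZMod N ⊕ ZMod N) ∈ Y
  · by_cases h2 : ∃ b : ZMod N, (.inr b : ZMod N ⊕ ZMod N) ∉ Y
    · obtain ⟨a, ha⟩ := h1
      obtain ⟨b, hb⟩ := h2
      exact Or.inr (Or.inr ⟨a, b, ha, hb⟩)
    · push Not at h2
      right; left
      unfold nr
      rw [sum_congr rfl fun x _ => if_pos (h2 x)]
      simp
  · push Not at h1
    left
    unfold nr
    rw [sum_congr rfl fun x _ => if_neg (h1 x)]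
    simp

theorem dd_perm (hN : 2 < N) [DecidableRel (permGraph N f).Adj]
    (Y : Finset (ZMod N ⊕ ZMod N)) :
    dd (permGraph N f) Y =
      (∑ x : ZMod N, ∑ y : ZMod N, if (y = x + 1 ∨ x = y + 1) ∧
        (.inl x : ZMod N ⊕ ZMod N) ∈ Y ∧ ¬ (.inl y : ZMod N ⊕ ZMod N) ∈ Y then 1 else 0) +
      (∑ x : ZMod N, ∑ y : ZMod N, if (y = x + 1 ∨ x = y + 1) ∧
        (.inr x : ZMod N ⊕ ZMod N) ∈ Y ∧ ¬ (.inr y : ZMod N ⊕ ZMod N) ∈ Y then 1 else 0) +
      ns f Y := by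
  have h1 : dd (permGraph N f) Y = ∑ u, ∑ v, if (permGraph N f).Adj u v ∧ u ∈ Y ∧ v ∉ Y
      then 1 else 0 := by
    unfold dd
    rw [← sum_filter_add_sum_filter_not univ (fun u => u ∈ Y)]
    have h1 : (univ.filter fun u => u ∈ Y) = Y := by ext u; simp
    have h2 : ∑ u ∈ univ.filter (fun u => ¬ u ∈ Y),
        ∑ v, (if (permGraph N f).Adj u v ∧ u ∈ Y ∧ v ∉ Y then 1 else 0) = 0 := by
      refine sum_eq_zero fun u hu => sum_eq_zero fun v _ => ?_
      rw [mem_filter] at hu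
      rw [if_neg]
      exact fun h => hu.2 h.2.1
    rw [h1, h2, add_zero]
    refine sum_congr rfl fun u hu => ?_
    rw [← sum_add_sum_compl Y (fun v => if (permGraph N f).Adj u v ∧ u ∈ Y ∧ v ∉ Y
      then 1 else 0)]
    have h4 : ∑ v ∈ Y, (if (permGraph N f).Adj u v ∧ u ∈ Y ∧ v ∉ Y then 1 else 0) = 0 := by
      refine sum_eq_zero fun v hv => ?_
      rw [if_neg]
      exact fun h => h.2.2 hv
    rw [h4, zero_add]
    refine sum_congr rfl fun v hv => ?_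
    rw [mem_compl] at hv
    by_cases h : (permGraph N f).Adj u v
    · rw [if_pos h, if_pos ⟨h, hu, hv⟩]
    · rw [if_neg h, if_neg fun h' => h h'.1]
  rw [h1, Fintype.sum_sum_type]
  simp only [Fintype.sum_sum_type]
  rw [sum_add_distrib, sum_add_distrib]
  have hLL : (∑ x : ZMod N, ∑ y : ZMod N, if (permGraph N f).Adj (.inl x) (.inl y) ∧
      (.inl x : ZMod N ⊕ ZMod N) ∈ Y ∧ (.inl y : ZMod N ⊕ ZMod N) ∉ Y then 1 else 0) =
      ∑ x : ZMod N, ∑ y : ZMod N, if (y = x + 1 ∨ x = y + 1) ∧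
        (.inl x : ZMod N ⊕ ZMod N) ∈ Y ∧ ¬ (.inl y : ZMod N ⊕ ZMod N) ∈ Y then 1 else 0 := by
    refine sum_congr rfl fun x _ => sum_congr rfl fun y _ => ?_
    simp only [adj_ll (σ := f) (by omega : 1 < N)]
  have hRR : (∑ x : ZMod N, ∑ y : ZMod N, if (permGraph N f).Adj (.inr x) (.inr y) ∧
      (.inr x : ZMod N ⊕ ZMod N) ∈ Y ∧ (.inr y : ZMod N ⊕ ZMod N) ∉ Y then 1 else 0) =
      ∑ x : ZMod N, ∑ y : ZMod N, if (y = x + 1 ∨ x = y + 1) ∧
        (.inr x : ZMod N ⊕ ZMod N) ∈ Y ∧ ¬ (.inr y : ZMod N ⊕ ZMod N) ∈ Y then 1 else 0 := by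
    refine sum_congr rfl fun x _ => sum_congr rfl fun y _ => ?_
    simp only [adj_rr (σ := f) (by omega : 1 < N)]
  have hLR : (∑ x : ZMod N, ∑ y : ZMod N, if (permGraph N f).Adj (.inl x) (.inr y) ∧
      (.inl x : ZMod N ⊕ ZMod N) ∈ Y ∧ (.inr y : ZMod N ⊕ ZMod N) ∉ Y then 1 else 0) =
      ∑ x : ZMod N, if (.inl x : ZMod N ⊕ ZMod N) ∈ Y ∧
        (.inr (f x) : ZMod N ⊕ ZMod N) ∉ Y then 1 else 0 := by
    refine sum_congr rfl fun x _ => ?_
    rw [sum_eq_single (f x)]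
    · simp only [adj_lr, true_and]
    · intro y _ hy
      rw [if_neg]
      rintro ⟨h2, -⟩
      rw [adj_lr] at h2
      exact hy h2.symm
    · intro h2
      exact absurd (mem_univ _) h2
  have hRL : (∑ x : ZMod N, ∑ y : ZMod N, if (permGraph N f).Adj (.inr x) (.inl y) ∧
      (.inr x : ZMod N ⊕ ZMod N) ∈ Y ∧ (.inl y : ZMod N ⊕ ZMod N) ∉ Y then 1 else 0) =
      ∑ x : ZMod N, if (.inr (f x) : ZMod N ⊕ ZMod N) ∈ Y ∧
        (.inl x : ZMod N ⊕ ZMod N) ∉ Y then 1 else 0 := by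
    rw [← Equiv.sum_comp f]
    refine sum_congr rfl fun x _ => ?_
    rw [sum_eq_single x]
    · simp only [adj_rl, true_and]
    · intro y _ hy
      rw [if_neg]
      rintro ⟨h2, -⟩
      rw [adj_rl] at h2
      exact hy (f.injective h2)
    · intro h2
      exact absurd (mem_univ _) h2
  have hS : ns f Y = (∑ x : ZMod N, if (.inl x : ZMod N ⊕ ZMod N) ∈ Y ∧
        (.inr (f x) : ZMod N ⊕ ZMod N) ∉ Y then 1 else 0) +
      ∑ x : ZMod N, if (.inr (f x) : ZMod N ⊕ ZMod N) ∈ Y ∧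
        (.inl x : ZMod N ⊕ ZMod N) ∉ Y then 1 else 0 := by
    unfold ns
    rw [← sum_add_distrib]
    refine sum_congr rfl fun x _ => ?_
    by_cases h2 : (.inl x : ZMod N ⊕ ZMod N) ∈ Y <;>
      by_cases h3 : (.inr (f x) : ZMod N ⊕ ZMod N) ∈ Y <;> simp [h2, h3]
  rw [hLL, hRR, hLR, hRL, hS]
  ring

/-- The sum of a colouring in which all spokes are bichromatic. -/
theorem sum_le_ns {b : ZMod N ⊕ ZMod N → ℤ} (hb : ∀ v, b v = 1 ∨ b v = -1)
    (hsp : ∀ x, b (.inr (f x)) = - b (.inl x)) (Y : Finset (ZMod N ⊕ ZMod N)) :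
    ∑ v ∈ Y, b v ≤ ns f Y := by
  have h1 : ∑ v ∈ Y, b v = ∑ v : ZMod N ⊕ ZMod N, if v ∈ Y then b v else 0 := by
    rw [← sum_filter]
    congr 1
    ext v
    simp
  rw [h1, Fintype.sum_sum_type, ← Equiv.sum_comp f (fun y =>
    if (.inr y : ZMod N ⊕ ZMod N) ∈ Y then b (.inr y) else 0), ← sum_add_distrib]
  unfold ns
  push_cast
  refine sum_le_sum fun x _ => ?_
  rw [hsp x]
  by_cases h2 : (.inl x : ZMod N ⊕ ZMod N) ∈ Y <;>
    by_cases h3 : (.inr (f x) : ZMod N ⊕ ZMod N) ∈ Y <;>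
    rcases hb (.inl x) with h4 | h4 <;> simp [h2, h3, h4]

theorem no_tight (hN : 5 < N) [DecidableRel (permGraph N f).Adj]
    {Z : ZMod N ⊕ ZMod N → ZMod N ⊕ ZMod N → Prop} [DecidableRel Z] {s t : ZMod N ⊕ ZMod N}
    {b : ZMod N ⊕ ZMod N → ℤ} (hD : NearData (permGraph N f) Z s t b)
    (hsp : ∀ x, b (.inr (f x)) = - b (.inl x)) {Y : Finset (ZMod N ⊕ ZMod N)}
    (hY : Closed (permGraph N f) Z s t b Y) : dd (permGraph N f) Y ≠ 5 := by
  intro h5
  have hreg : ∀ v, (permGraph N f).degree v = 3 := permGraph_regular (by omega)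
  have h1 := hY.dd_eq hreg hD
  have h2 := sum_le_ns (f := f) hD.val hsp Y
  have h3 : 3 ≤ ns f Y := by
    rw [h5] at h1
    push_cast at h1
    omega
  have h4 := dd_perm (f := f) (by omega) Y
  rw [h5] at h4
  have h6 := card_eq_nl_nr Y
  have h7 := nl_le Y
  have h8 := nr_le Y
  have h9 := nl_le_add (f := f) Y
  -- both sides have at least four vertices
  have h10 : 4 ≤ Y.card := by
    have g1 : (permGraph N f).neighborFinset t ⊆ Y := fun v hv =>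
      hY.nbr_t hreg hD ((SimpleGraph.mem_neighborFinset _ _ _).mp hv)
    have g2 : insert t ((permGraph N f).neighborFinset t) ⊆ Y := by
      intro v hv
      rcases mem_insert.mp hv with rfl | hv
      · exact hY.t_mem
      · exact g1 hv
    have g3 := card_le_card g2
    rw [card_insert_of_notMem, SimpleGraph.card_neighborFinset_eq_degree, hreg] at g3
    · exact g3
    · simp
  have h11 : 4 ≤ Yᶜ.card := by
    have g1 : (permGraph N f).neighborFinset s ⊆ Yᶜ := fun v hv =>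
      mem_compl.mpr (hY.nbr_s hD ((SimpleGraph.mem_neighborFinset _ _ _).mp hv))
    have g2 : insert s ((permGraph N f).neighborFinset s) ⊆ Yᶜ := by
      intro v hv
      rcases mem_insert.mp hv with rfl | hv
      · exact mem_compl.mpr hY.s_notMem
      · exact g1 hv
    have g3 := card_le_card g2
    rw [card_insert_of_notMem, SimpleGraph.card_neighborFinset_eq_degree, hreg] at g3
    · exact g3
    · simp
  have h12 : Y.card + Yᶜ.card = 2 * N := by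
    rw [card_add_card_compl, Fintype.card_sum, ZMod.card]
    ring
  set LL := ∑ x : ZMod N, ∑ y : ZMod N, if (y = x + 1 ∨ x = y + 1) ∧
        (.inl x : ZMod N ⊕ ZMod N) ∈ Y ∧ ¬ (.inl y : ZMod N ⊕ ZMod N) ∈ Y then 1 else 0 with hLL
  set RR := ∑ x : ZMod N, ∑ y : ZMod N, if (y = x + 1 ∨ x = y + 1) ∧
        (.inr x : ZMod N ⊕ ZMod N) ∈ Y ∧ ¬ (.inr y : ZMod N ⊕ ZMod N) ∈ Y then 1 else 0 with hRR
  have h13 : nl Y = 0 ∨ nl Y = N ∨ 2 ≤ LL := by
    rcases nl_cases Y with h | h | ⟨a, c, ha, hc⟩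
    · exact Or.inl h
    · exact Or.inr (Or.inl h)
    · exact Or.inr (Or.inr (two_le_rim (by omega) (fun x => (.inl x : ZMod N ⊕ ZMod N) ∈ Y)
        ha hc))
  have h14 : nr Y = 0 ∨ nr Y = N ∨ 2 ≤ RR := by
    rcases nr_cases Y with h | h | ⟨a, c, ha, hc⟩
    · exact Or.inl h
    · exact Or.inr (Or.inl h)
    · exact Or.inr (Or.inr (two_le_rim (by omega) (fun x => (.inr x : ZMod N ⊕ ZMod N) ∈ Y)
        ha hc))
  rcases h13 with h13 | h13 | h13 <;> rcases h14 with h14 | h14 | h14 <;> omega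

theorem flow_fstate (hN : 5 < N) (hcyc : CyclicallyEdgeConnected (permGraph N f) 5)
    {Z : ZMod N ⊕ ZMod N → ZMod N ⊕ ZMod N → Prop} {s t : ZMod N ⊕ ZMod N}
    {b : ZMod N ⊕ ZMod N → ℤ} (hD : NearData (permGraph N f) Z s t b)
    (hsp : ∀ x, ¬ Z (.inl x) (.inr (f x))) : HasFlow (permGraph N f) (9 / 2) := by
  classical
  have hreg : ∀ v, (permGraph N f).degree v = 3 := permGraph_regular (by omega)
  have hsp' : ∀ x, b (.inr (f x)) = - b (.inl x) := fun x =>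
    hD.bip _ _ ((adj_lr _ _).mpr rfl) (hsp x)
  refine hasFlow_nine_halves hreg hD ?_
  intro Y hY h1 h2
  have h3 := hcyc _ h1 h2
  rw [cutSize_coe] at h3
  exact ⟨by omega, no_tight hN hD hsp' hY⟩

end Pool.Agent.Helper19.RG
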