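import Pool.Agent.Helper19.RG.Sym

/-!
The four directions of a side. (Problem MP_d067c8_co.)
-/

namespace Pool.Agent.Helper19.RG

open Finset Pool.Agent.Helper19.CF

section

variable {N : ℕ} [NeZero N] {f : Equiv.Perm (ZMod N)} {M : Finset (ZMod N ⊕ ZMod N)}

theorem add_val (u w : ZMod N) (j : ℕ) (h : (u - w).val = j) : u = w + (j : ZMod N) := by
  rw [← h, ZMod.natCast_zmod_val]
  ring

theorem val_add (w : ZMod N) {j : ℕ} (h : j < N) : (w + (j : ZMod N) - w).val = j := by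
  have h1 : w + (j : ZMod N) - w = j := by ring
  rw [h1, ZMod.val_natCast_of_lt h]

/-- A step inside a side gives a flow. -/
theorem geo_step (hN : 5 < N) (hodd : N % 2 = 1)
    (hcyc : CyclicallyEdgeConnected (permGraph N f) 5) (hrig : Rig f M)
    (hns : ∀ x, (.inl x : ZMod N ⊕ ZMod N) ∈ M → (.inr (f x) : ZMod N ⊕ ZMod N) ∈ M → NoStar f x)
    {c d x0 : ZMod N} {C R : ℕ} (hR : R < N)
    (memA : ∀ x, (.inl x : ZMod N ⊕ ZMod N) ∈ M ↔ 1 ≤ (x - c).val ∧ (x - c).val ≤ C)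
    (memB : ∀ y, (.inr y : ZMod N ⊕ ZMod N) ∈ M ↔ 1 ≤ (y - d).val ∧ (y - d).val ≤ R)
    (other : ∀ x, x ≠ x0 →
      ((.inl x : ZMod N ⊕ ZMod N) ∈ M ↔ (.inr (f x) : ZMod N ⊕ ZMod N) ∈ M))
    {F : ℕ → ℕ} (hF : ∀ i : ℕ, F i = (f (c + i) - d).val) {e : ℕ}
    (hpos : 1 ≤ F e)
    (hlt : F e < F (e + 1)) (htop : F (e + 1) + 1 ≤ R)
    (hst : ¬ (F e ≤ (f x0 - d).val ∧ (f x0 - d).val ≤ F (e + 1) + 1))
    (hmin : ∀ a, 1 ≤ a → a + 1 ≤ C → c + (a : ZMod N) ≠ x0 → c + ((a + 1 : ℕ) : ZMod N) ≠ x0 →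
      F e ≤ F a → F a < F (a + 1) → F (a + 1) ≤ F (e + 1) → a = e)
    (hne : f (c + e - 1) ≠ f (c + ((e + 1 : ℕ) : ZMod N)) + 1) :
    HasFlow (permGraph N f) (9 / 2) := by
  have hfe : f (c + e) = d + (F e : ZMod N) := add_val _ _ _ (hF e).symm
  have hfe1 : f (c + ((e + 1 : ℕ) : ZMod N)) = d + (F (e + 1) : ZMod N) :=
    add_val _ _ _ (hF (e + 1)).symm
  have hcast : c + ((e + 1 : ℕ) : ZMod N) = c + e + 1 := by push_cast; ring
  have hk : (f (c + e + 1) - f (c + e)).val = F (e + 1) - F e := by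
    rw [← hcast, hfe, hfe1]
    have h1 : d + (F (e + 1) : ZMod N) - (d + (F e : ZMod N)) =
        ((F (e + 1) - F e : ℕ) : ZMod N) := by
      rw [Nat.cast_sub hlt.le]
      ring
    rw [h1, ZMod.val_natCast_of_lt (by omega)]
  -- rows between
  have hrow : ∀ x : ZMod N, F e ≤ (f x - d).val → (f x - d).val ≤ F (e + 1) + 1 →
      (.inr (f x) : ZMod N ⊕ ZMod N) ∈ M ∧ (.inl x : ZMod N ⊕ ZMod N) ∈ M ∧ x ≠ x0 := by
    intro x h1 h2
    have h3 : (.inr (f x) : ZMod N ⊕ ZMod N) ∈ M := (memB _).mpr ⟨by omega, by omega⟩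
    have h4 : x ≠ x0 := by
      rintro rfl
      exact hst ⟨h1, h2⟩
    exact ⟨h3, (other x h4).mpr h3, h4⟩
  refine flow_of_step hN hodd hcyc hrig hns (c + e) ?_ ?_ ?_
  · intro j hj
    rw [hk] at hj
    have h1 : f (c + e) + j = d + ((F e + j : ℕ) : ZMod N) := by
      rw [hfe]
      push_cast
      ring
    have h2 : (f (f.symm (f (c + e) + j)) - d).val = F e + j := by
      rw [Equiv.apply_symm_apply, h1, val_add _ (by omega)]
    have h3 := hrow (f.symm (f (c + e) + j)) (by omega) (by omega)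
    rw [Equiv.apply_symm_apply] at h3
    exact ⟨h3.1, h3.2.1⟩
  · intro x h1 h2
    rw [hk] at h2
    have key : ∀ z : ZMod N, (f z - f (c + e)).val ≤ F (e + 1) - F e →
        (f z - d).val = F e + (f z - f (c + e)).val := by
      intro z hz
      have h3 := add_val (f z) (f (c + e)) _ rfl
      have h4 : f z = d + ((F e + (f z - f (c + e)).val : ℕ) : ZMod N) := by
        rw [hfe] at h3 ⊢
        push_cast
        rw [← add_assoc]
        exact h3
      conv_lhs => rw [h4]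
      exact val_add _ (by omega)
    have e1 := key x (by omega)
    have e2 := key (x + 1) h2
    obtain ⟨-, g1, g2⟩ := hrow x (by omega) (by omega)
    obtain ⟨-, g3, g4⟩ := hrow (x + 1) (by omega) (by omega)
    rw [memA] at g1 g3
    have h5 : x - c ≠ -1 := by
      intro h5
      have h6 : x + 1 - c = 0 := by linear_combination h5
      rw [h6, ZMod.val_zero] at g3
      omega
    have h6 : (x + 1 - c).val = (x - c).val + 1 := by
      have h7 : x + 1 - c = (x - c) + 1 := by ring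
      rw [h7, val_succ _ h5]
    have h7 := add_val x c _ rfl
    have h8 : c + (((x - c).val + 1 : ℕ) : ZMod N) = x + 1 := by
      push_cast
      rw [ZMod.natCast_zmod_val]
      ring
    have h9 := hmin (x - c).val g1.1 (by omega) (by rw [← h7]; exact g2) (by rw [h8]; exact g4)
      (by rw [hF (x - c).val, ← h7]; omega)
      (by rw [hF (x - c).val, hF ((x - c).val + 1), ← h7, h8]; omega)
      (by rw [hF ((x - c).val + 1), h8]; omega)
    rw [← h9]
    exact h7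
  · rw [← hcast]
    exact hne

theorem val_flip_nat {w : ZMod N} {K : ℕ} (hK : K ≤ N) (h : w.val ≤ K) (hpos : 0 < w.val) :
    ((K : ZMod N) - w).val = K - w.val := by
  have h1 : (K : ZMod N) - w = ((K - w.val : ℕ) : ZMod N) := by
    rw [Nat.cast_sub h, ZMod.natCast_zmod_val]
  rw [h1, ZMod.val_natCast_of_lt (by omega)]

theorem range_flip {w : ZMod N} {K : ℕ} (hK : K ≤ N) :
    (1 ≤ ((K : ZMod N) - w).val ∧ ((K : ZMod N) - w).val + 1 ≤ K) ↔
      (1 ≤ w.val ∧ w.val + 1 ≤ K) := by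
  have key : ∀ w : ZMod N, (1 ≤ w.val ∧ w.val + 1 ≤ K) →
      (1 ≤ ((K : ZMod N) - w).val ∧ ((K : ZMod N) - w).val + 1 ≤ K) := by
    rintro w ⟨h1, h2⟩
    rw [val_flip_nat hK (by omega) (by omega)]
    omega
  constructor
  · intro h
    have h1 := key _ h
    rw [sub_sub_cancel] at h1
    exact h1
  · exact key w

/-- The coordinates. -/
def cF (f : Equiv.Perm (ZMod N)) (c d : ZMod N) (i : ℕ) : ℕ := (f (c + i) - d).val
def cX (f : Equiv.Perm (ZMod N)) (c d : ZMod N) (j : ℕ) : ℕ := (f.symm (d + j) - c).val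

variable {c d x0 : ZMod N} {m : ℕ}

theorem HA.col (h : HA f M c d x0 m) {i : ℕ} (h1 : 1 ≤ i) (h2 : i ≤ m + 1)
    (h3 : i ≠ (x0 - c).val) :
    c + (i : ZMod N) ≠ x0 ∧ (.inl (c + i) : ZMod N ⊕ ZMod N) ∈ M ∧
      (.inr (f (c + i)) : ZMod N ⊕ ZMod N) ∈ M ∧ 1 ≤ cF f c d i ∧ cF f c d i ≤ m := by
  have hm := h.mN
  have g1 : (c + (i : ZMod N) - c).val = i := val_add _ (by omega)
  have g2 : c + (i : ZMod N) ≠ x0 := by
    intro g
    rw [g] at g1
    exact h3 g1.symm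
  have g3 : (.inl (c + i) : ZMod N ⊕ ZMod N) ∈ M := (h.memA _).mpr (by rw [g1]; omega)
  have g4 := (h.other _ g2).mp g3
  exact ⟨g2, g3, g4, (h.memB _).mp g4⟩

theorem HA.row (h : HA f M c d x0 m) {j : ℕ} (h1 : 1 ≤ j) (h2 : j ≤ m) :
    f.symm (d + j) ≠ x0 ∧ (.inr (d + j) : ZMod N ⊕ ZMod N) ∈ M ∧
      (.inl (f.symm (d + j)) : ZMod N ⊕ ZMod N) ∈ M ∧ 1 ≤ cX f c d j ∧ cX f c d j ≤ m + 1 ∧
      cX f c d j ≠ (x0 - c).val := by
  have hm := h.mN
  have g1 : (d + (j : ZMod N) - d).val = j := val_add _ (by omega)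
  have g3 : (.inr (d + j) : ZMod N ⊕ ZMod N) ∈ M := (h.memB _).mpr (by rw [g1]; omega)
  have g2 : f.symm (d + j) ≠ x0 := by
    intro g
    rw [Equiv.symm_apply_eq] at g
    rw [g] at g3
    exact h.star2 g3
  have g4 : (.inl (f.symm (d + j)) : ZMod N ⊕ ZMod N) ∈ M := by
    rw [h.other _ g2, Equiv.apply_symm_apply]
    exact g3
  have g5 := (h.memA _).mp g4
  refine ⟨g2, g3, g4, g5.1, g5.2, ?_⟩
  intro g6
  apply g2
  have g7 := add_val _ _ _ (show (f.symm (d + j) - c).val = cX f c d j from rfl)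
  rw [g6, ZMod.natCast_zmod_val] at g7
  rw [g7]
  ring

theorem HA.XF (h : HA f M c d x0 m) {i : ℕ} (h1 : 1 ≤ i) (h2 : i ≤ m + 1) :
    cX f c d (cF f c d i) = i := by
  have hm := h.mN
  have g := add_val _ _ _ (show (f (c + i) - d).val = cF f c d i from rfl)
  unfold cX
  rw [← g, Equiv.symm_apply_apply]
  exact val_add _ (by omega)

theorem HA.FX (h : HA f M c d x0 m) {j : ℕ} (h1 : 1 ≤ j) (h2 : j ≤ m) :
    cF f c d (cX f c d j) = j := by
  have hm := h.mN
  have g := add_val _ _ _ (show (f.symm (d + j) - c).val = cX f c d j from rfl)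
  unfold cF
  rw [← g, Equiv.apply_symm_apply]
  exact val_add _ (by omega)

theorem HA.starpos (h : HA f M c d x0 m) :
    (f x0 - d).val = 0 ∨ m < (f x0 - d).val := by
  have h1 : ¬ (1 ≤ (f x0 - d).val ∧ (f x0 - d).val ≤ m) := fun h2 => h.star2 ((h.memB _).mpr h2)
  omega

end

end Pool.Agent.Helper19.RG
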