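import Pool.Agent.Helper19.RG.Main
import Pool.Agent.Helper19.RG.Even

/-!
Cubic graphs with a 2-factor consisting of two chordless cycles are cycle permutation graphs.
(Problem MP_d067c8_co.)
-/

namespace Pool.Agent.Helper19.RG

open SimpleGraph Pool.Agent.Helper19.CF Pool.Agent.Helper19.TT

/-- The two neighbours on the cycle. -/
theorem nb {V : Type*} [Finite V] {H : SimpleGraph V} (hH : ∀ v, (H.neighborSet v).ncard = 2)
    {n : ℕ} (hn : 3 ≤ n) {e : ZMod n → V} (he : Function.Injective e)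
    (hadj : ∀ i, H.Adj (e i) (e (i + 1))) (i j : ZMod n) (h : H.Adj (e i) (e j)) :
    j = i + 1 ∨ i = j + 1 := by
  have : NeZero n := ⟨by omega⟩
  have h1 : e (i + 1) ≠ e (i - 1) := by
    intro h2
    have h3 := he h2
    apply two_ne (N := n) (by omega)
    have : (2 : ZMod n) = (i + 1) - (i - 1) := by ring
    rw [this, h3, sub_self]
  have hsub : ({e (i + 1), e (i - 1)} : Set V) ⊆ H.neighborSet (e i) := by
    rintro x (rfl | hx)
    · exact hadj i
    · rw [Set.mem_singleton_iff] at hx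
      subst hx
      have h2 := hadj (i - 1)
      rw [sub_add_cancel] at h2
      exact h2.symm
  have heq := Set.eq_of_subset_of_ncard_le hsub (by rw [hH, Set.ncard_pair h1])
    (Set.toFinite _)
  have hj : e j ∈ H.neighborSet (e i) := h
  rw [← heq] at hj
  rcases hj with hj | hj
  · exact Or.inl (he hj)
  · right
    rw [Set.mem_singleton_iff] at hj
    rw [he hj]
    ring

theorem exists_iso {V : Type*} [Fintype V] [DecidableEq V] (G H : SimpleGraph V)
    (hG : ∀ v, (G.neighborSet v).ncard = 3) (hHG : H ≤ G)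
    (hH : ∀ v, (H.neighborSet v).ncard = 2) (h2 : Nat.card H.ConnectedComponent = 2)
    (hch : ∀ u v, G.Adj u v → ¬ H.Adj u v → ¬ H.Reachable u v) :
    ∃ N : ℕ, 3 ≤ N ∧ Fintype.card V = 2 * N ∧ (∀ K : H.ConnectedComponent, K.supp.ncard = N) ∧
      ∃ (f : Equiv.Perm (ZMod N)) (φ : permGraph N f ≃g G),
        ∀ x y, ¬ H.Adj (φ (.inl x)) (φ (.inr y)) := by
  classical
  have hcyc : H.IsCycles := fun v _ => hH v
  have hne : ∀ v, (H.neighborSet v).Nonempty := fun v =>
    Set.nonempty_of_ncard_ne_zero (by rw [hH v]; norm_num)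
  -- the third neighbour
  have hthird : ∀ v, ∃ w, (G.Adj v w ∧ ¬ H.Adj v w) ∧ ∀ x, G.Adj v x → ¬ H.Adj v x → x = w := by
    intro v
    have h1 : (G.neighborSet v \ H.neighborSet v).ncard = 1 := by
      have hsub : H.neighborSet v ⊆ G.neighborSet v := fun x hx => hHG hx
      rw [Set.ncard_sdiff hsub, hG v, hH v]
    obtain ⟨w, hw⟩ := Set.ncard_eq_one.mp h1
    have hmem : ∀ c, (G.Adj v c ∧ ¬ H.Adj v c) ↔ c = w := by
      intro c
      have h2 : c ∈ G.neighborSet v \ H.neighborSet v ↔ c = w := by rw [hw]; simp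
      exact h2
    exact ⟨w, (hmem w).mpr rfl, fun x hx1 hx2 => (hmem x).mp ⟨hx1, hx2⟩⟩
  choose μ' hμ1 hμ2 using hthird
  have hμμ : ∀ v, μ' (μ' v) = v := fun v =>
    (hμ2 (μ' v) v (hμ1 v).1.symm (fun h1 => (hμ1 v).2 h1.symm)).symm
  -- the two components
  obtain ⟨K1, K2, hK12, hKK⟩ := Nat.card_eq_two_iff.mp h2
  have hK : ∀ K : H.ConnectedComponent, K = K1 ∨ K = K2 := by
    intro K
    have h3 : K ∈ ({K1, K2} : Set H.ConnectedComponent) := by rw [hKK]; trivial
    exact h3
  have hdisj : ∀ v, v ∈ K1.supp → v ∉ K2.supp := by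
    intro v h1 h2
    exact hK12 (h1.symm.trans h2)
  obtain ⟨v1, hv1⟩ := K1.nonempty_supp
  obtain ⟨n1, hn1, eA, hAinj, hArange, hAadj⟩ := exists_param H hcyc K1 hv1 (hne v1)
  obtain ⟨v2, hv2⟩ := K2.nonempty_supp
  obtain ⟨n2, hn2, eB, hBinj, hBrange, hBadj⟩ := exists_param H hcyc K2 hv2 (hne v2)
  have hAmem : ∀ i, eA i ∈ K1.supp := fun i => by rw [← hArange]; exact ⟨i, rfl⟩
  have hBmem : ∀ i, eB i ∈ K2.supp := fun i => by rw [← hBrange]; exact ⟨i, rfl⟩
  have hAB : ∀ i j, eA i ≠ eB j := fun i j h1 => hdisj _ (hAmem i) (h1 ▸ hBmem j)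
  have hother : ∀ v, H.connectedComponentMk (μ' v) ≠ H.connectedComponentMk v := by
    intro v h1
    exact hch v (μ' v) (hμ1 v).1 (hμ1 v).2 (ConnectedComponent.exact h1).symm
  have hF : ∀ i, ∃ j, eB j = μ' (eA i) := by
    intro i
    have h1 : μ' (eA i) ∈ K2.supp := by
      rcases hK (H.connectedComponentMk (μ' (eA i))) with h3 | h3
      · exfalso
        apply hother (eA i)
        rw [h3]
        exact (hAmem i).symm
      · exact h3
    rw [← hBrange] at h1
    exact h1
  have hF' : ∀ j, ∃ i, eA i = μ' (eB j) := by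
    intro j
    have h1 : μ' (eB j) ∈ K1.supp := by
      rcases hK (H.connectedComponentMk (μ' (eB j))) with h3 | h3
      · exact h3
      · exfalso
        apply hother (eB j)
        rw [h3]
        exact (hBmem j).symm
    rw [← hArange] at h1
    exact h1
  choose F hF1 using hF
  choose F' hF2 using hF'
  have hFF : ∀ i, F' (F i) = i := by
    intro i
    apply hAinj
    rw [hF2, hF1, hμμ]
  have hFF' : ∀ j, F (F' j) = j := by
    intro j
    apply hBinj
    rw [hF1, hF2, hμμ]
  let E : ZMod n1 ≃ ZMod n2 := ⟨F, F', hFF, hFF'⟩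
  have hnn : n1 = n2 := by
    have : NeZero n1 := ⟨by omega⟩
    have : NeZero n2 := ⟨by omega⟩
    have h3 := Fintype.card_congr E
    rwa [ZMod.card, ZMod.card] at h3
  subst hnn
  have : NeZero n1 := ⟨by omega⟩
  have hE : ∀ i, eB (E i) = μ' (eA i) := hF1
  let φ : ZMod n1 ⊕ ZMod n1 → V := Sum.elim eA eB
  have hφinj : Function.Injective φ := by
    rintro (i | i) (j | j) hij
    · exact congrArg _ (hAinj hij)
    · exact absurd hij (hAB i j)
    · exact absurd hij.symm (hAB j i)
    · exact congrArg _ (hBinj hij)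
  have hφsurj : Function.Surjective φ := by
    intro v
    rcases hK (H.connectedComponentMk v) with h3 | h3
    · have h4 : v ∈ K1.supp := h3
      rw [← hArange] at h4
      obtain ⟨i, hi⟩ := h4
      exact ⟨.inl i, hi⟩
    · have h4 : v ∈ K2.supp := h3
      rw [← hBrange] at h4
      obtain ⟨i, hi⟩ := h4
      exact ⟨.inr i, hi⟩
  let Φ : ZMod n1 ⊕ ZMod n1 ≃ V := Equiv.ofBijective φ ⟨hφinj, hφsurj⟩
  have hadjABH : ∀ i j, ¬ H.Adj (eA i) (eB j) := by
    intro i j h4
    have h5 := ConnectedComponent.sound h4.reachable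
    exact hK12 ((hAmem i).symm.trans (h5.trans (hBmem j)))
  refine ⟨n1, hn1, ?_, ?_, E, ⟨Φ, ?_⟩, ?_⟩
  · rw [← Fintype.card_congr Φ, Fintype.card_sum, ZMod.card]
    ring
  · intro K
    rcases hK K with rfl | rfl
    · exact ncard_param hn1 hAinj hArange
    · exact ncard_param hn1 hBinj hBrange
  · have hrim : ∀ {K : H.ConnectedComponent} {e : ZMod n1 → V} (_ : Function.Injective e)
        (_ : ∀ i, H.Adj (e i) (e (i + 1))) (_ : ∀ i, e i ∈ K.supp) (i j : ZMod n1),
        G.Adj (e i) (e j) ↔ (j = i + 1 ∨ i = j + 1) := by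
      intro K e he hadj hm i j
      constructor
      · intro h3
        by_cases h4 : H.Adj (e i) (e j)
        · exact nb hH hn1 he hadj i j h4
        · exfalso
          exact hch _ _ h3 h4 (ConnectedComponent.exact ((hm i).trans (hm j).symm))
      · rintro (rfl | rfl)
        · exact hHG (hadj i)
        · exact (hHG (hadj j)).symm
    have hsp : ∀ i j, G.Adj (eA i) (eB j) ↔ E i = j := by
      intro i j
      constructor
      · intro h3
        have h4 : ¬ H.Adj (eA i) (eB j) := by
          intro h4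
          have h5 := ConnectedComponent.sound h4.reachable
          exact hK12 ((hAmem i).symm.trans (h5.trans (hBmem j)))
        apply hBinj
        rw [hE]
        exact (hμ2 _ _ h3 h4).symm
      · rintro rfl
        rw [hE]
        exact (hμ1 _).1
    rintro (i | i) (j | j)
    · show G.Adj (eA i) (eA j) ↔ _
      rw [hrim hAinj hAadj hAmem, adj_ll (by omega)]
    · show G.Adj (eA i) (eB j) ↔ _
      rw [hsp, adj_lr]
    · show G.Adj (eB i) (eA j) ↔ _
      rw [G.adj_comm, hsp, adj_rl]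
    · show G.Adj (eB i) (eB j) ↔ _
      rw [hrim hBinj hBadj hBmem, adj_rr (by omega)]
  · intro x y
    exact hadjABH x y

end Pool.Agent.Helper19.RG
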