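import Pool.Agent.Helper19.RG.Cert
import Pool.Agent.Helper19.TT.FlowPart
import Pool.Agent.KR56.Rigid.Choice
import Pool.Agent.Helper61.Rigid.Core

/-!
Cycle permutation graphs: assembly.  (Problem MP_d067c8_co.)
-/

namespace Pool.Agent.Helper19.RG

open Pool.Agent.Helper19.CF Pool.Agent.Helper61.Rigid

/-- Some near-perfect matching of `G` has a bipartite complement. -/
def HasZ {V : Type*} (G : SimpleGraph V) : Prop :=
  ∃ Z : G.Subgraph, Z.IsMatching ∧ (∃ s t : V, s ≠ t ∧ Z.verts = {s, t}ᶜ) ∧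
    (G.deleteEdges Z.edgeSet).Colorable 2

theorem hasZ_of_nearData {V : Type*} {G : SimpleGraph V} {Z : V → V → Prop} {s t : V} {b : V → ℤ}
    (h : NearData G Z s t b) : HasZ G := by
  classical
  let M : G.Subgraph :=
    { verts := {s, t}ᶜ
      Adj := Z
      adj_sub := fun hz => h.adj _ _ hz
      edge_vert := by
        rintro v w hz (rfl | hv)
        · exact h.notS _ hz
        · rw [Set.mem_singleton_iff] at hv
          subst hv
          exact h.notT _ hz
      symm := ⟨fun u v hz => h.symm u v hz⟩ }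
  refine ⟨M, ?_, ⟨s, t, h.ne, rfl⟩, ?_⟩
  · intro v hv
    have h1 : v ≠ s := fun h1 => hv (Or.inl h1)
    have h2 : v ≠ t := fun h2 => hv (Or.inr h2)
    exact h.one v h1 h2
  · refine ⟨⟨fun v => if b v = 1 then 0 else 1, ?_⟩⟩
    intro u v huv
    rw [SimpleGraph.deleteEdges_adj] at huv
    have h1 : ¬ Z u v := huv.2
    have h2 := h.bip u v huv.1 h1
    have h3 := h.val u
    show (if b u = 1 then (0 : Fin 2) else 1) ≠ (if b v = 1 then (0 : Fin 2) else 1)
    rcases h3 with h3 | h3
    · rw [h2, h3]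
      simp
    · rw [h2, h3]
      simp

/-- Transport along an isomorphism. -/
theorem nearData_iso {V W : Type*} {G : SimpleGraph V} {G' : SimpleGraph W} (φ : G ≃g G')
    {Z : W → W → Prop} {s t : W} {b : W → ℤ} (h : NearData G' Z s t b) :
    NearData G (fun u v => Z (φ u) (φ v)) (φ.symm s) (φ.symm t) (fun v => b (φ v)) := by
  have hφ : ∀ w, φ (φ.symm w) = w := fun w => φ.apply_symm_apply w
  constructor
  · intro h1
    exact h.ne (φ.symm.injective h1)
  · intro u v hz
    exact h.symm _ _ hz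
  · intro u v hz
    exact φ.map_adj_iff.mp (h.adj _ _ hz)
  · intro v hz
    rw [hφ] at hz
    exact h.notS _ hz
  · intro v hz
    rw [hφ] at hz
    exact h.notT _ hz
  · intro v h1 h2
    have h3 : φ v ≠ s := fun h3 => h1 (by rw [← h3, φ.symm_apply_apply])
    have h4 : φ v ≠ t := fun h4 => h2 (by rw [← h4, φ.symm_apply_apply])
    obtain ⟨w, hw1, hw2⟩ := h.one _ h3 h4
    refine ⟨φ.symm w, ?_, ?_⟩
    · show Z (φ v) (φ (φ.symm w))
      rw [hφ]
      exact hw1
    · intro y hy
      rw [← hw2 _ hy, φ.symm_apply_apply]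
  · intro v
    exact h.val _
  · intro u v huv hz
    exact h.bip _ _ (φ.map_adj_iff.mpr huv) hz
  · show b (φ (φ.symm s)) = 1
    rw [hφ]
    exact h.bs

section perm

variable {N : ℕ} [NeZero N]

/-- The mirror image. -/
def mir (f : Equiv.Perm (ZMod N)) : Equiv.Perm (ZMod N) := f.trans (Equiv.neg (ZMod N))

omit [NeZero N] in
theorem mir_apply (f : Equiv.Perm (ZMod N)) (x : ZMod N) : mir f x = - f x := rfl

omit [NeZero N] in
theorem mir_symm (f : Equiv.Perm (ZMod N)) (y : ZMod N) : (mir f).symm y = f.symm (-y) := rfl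

/-- The permutation graph of the mirror image. -/
def mirIso (hN : 1 < N) (f : Equiv.Perm (ZMod N)) : permGraph N f ≃g permGraph N (mir f) where
  toEquiv := Equiv.sumCongr (Equiv.refl _) (Equiv.neg _)
  map_rel_iff' := by
    rintro (x | x) (y | y)
    · show (permGraph N (mir f)).Adj (.inl x) (.inl y) ↔ _
      rw [adj_ll hN, adj_ll hN]
    · show (permGraph N (mir f)).Adj (.inl x) (.inr (-y)) ↔ _
      rw [adj_lr, adj_lr, mir_apply, neg_inj]
    · show (permGraph N (mir f)).Adj (.inr (-x)) (.inl y) ↔ _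
      rw [adj_rl, adj_rl, mir_apply, neg_inj]
    · show (permGraph N (mir f)).Adj (.inr (-x)) (.inr (-y)) ↔ _
      rw [adj_rr hN, adj_rr hN]
      constructor
      · rintro (h | h)
        · right
          linear_combination h
        · left
          linear_combination h
      · rintro (h | h)
        · right
          rw [h]; ring
        · left
          rw [h]; ring

theorem near_rigid (f : Equiv.Perm (ZMod N))
    (h7 : 7 ≤ N) (hodd : N % 2 = 1) (hr : ∀ i, (f i - f (i + 1)).val % 2 = 1)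
    (hu : ∀ j, (f.symm (j + 1) - f.symm j).val % 2 = 1) :
    ∃ (Z : ZMod N ⊕ ZMod N → ZMod N ⊕ ZMod N → Prop) (s t : ZMod N ⊕ ZMod N)
      (b : ZMod N ⊕ ZMod N → ℤ), NearData (permGraph N f) Z s t b := by
  obtain ⟨e, sig, tau, hH, hf⟩ := Pool.Agent.KR56.Rigid.exists_hyp f h7 hodd hr hu
  obtain ⟨zA, zB, X, cA, cB, s, t, hC⟩ := core N sig tau hH
  exact ⟨_, _, _, _, nearData_of_cert (by omega) hC hH.sig_mem hf⟩

theorem near_rigid_mir 
    (f : Equiv.Perm (ZMod N)) (h7 : 7 ≤ N) (hodd : N % 2 = 1)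
    (hr : ∀ i, (f (i + 1) - f i).val % 2 = 1)
    (hu : ∀ j, (f.symm j - f.symm (j + 1)).val % 2 = 1) :
    ∃ (Z : ZMod N ⊕ ZMod N → ZMod N ⊕ ZMod N → Prop) (s t : ZMod N ⊕ ZMod N)
      (b : ZMod N ⊕ ZMod N → ℤ), NearData (permGraph N f) Z s t b := by
  obtain ⟨Z, s, t, b, h⟩ := near_rigid (mir f) h7 hodd
    (fun i => by
      rw [mir_apply, mir_apply]
      have h1 : -f i - -f (i + 1) = f (i + 1) - f i := by ring
      rw [h1]
      exact hr i)
    (fun j => by
      rw [mir_symm, mir_symm]
      have h1 := hu (-(j + 1))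
      have h2 : -(j + 1) + 1 = -j := by ring
      rw [h2] at h1
      exact h1)
  exact ⟨_, _, _, _, nearData_iso (mirIso (by omega) f) h⟩

/-- No 4-cycle through two spokes. -/
def NoFour (f : Equiv.Perm (ZMod N)) : Prop :=
  ∀ i, f (i + 1) ≠ f i + 1 ∧ f (i + 1) ≠ f i - 1

theorem near_all (f : Equiv.Perm (ZMod N))
    (h7 : 7 ≤ N) (hodd : N % 2 = 1) (h4 : NoFour f) :
    ∃ (Z : ZMod N ⊕ ZMod N → ZMod N ⊕ ZMod N → Prop) (s t : ZMod N ⊕ ZMod N)
      (b : ZMod N ⊕ ZMod N → ℤ), NearData (permGraph N f) Z s t b := by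
  have : Fact (1 < N) := ⟨by omega⟩
  have h11 : (1 : ZMod N) ≠ 0 := one_ne_zero
  have hno4 : ∀ i : ZMod N, ∀ {ε η : ZMod N}, (ε = 1 ∨ ε = -1) → (η = 1 ∨ η = -1) →
      f (i + ε) ≠ f i + η := by
    intro i ε η hε hη h1
    rcases hε with rfl | rfl
    · rcases hη with rfl | rfl
      · exact (h4 i).1 h1
      · exact (h4 i).2 (by rw [h1]; ring)
    · have h2 := h4 (i + -1)
      rw [neg_add_cancel_right] at h2
      rcases hη with rfl | rfl
      · exact h2.2 (by rw [h1]; ring)
      · exact h2.1 (by rw [h1]; ring)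
  have hfne : ∀ i : ZMod N, f (i + 1) - f i ≠ 0 := by
    intro i h1
    rw [sub_eq_zero] at h1
    have h2 := f.injective h1
    exact h11 (by linear_combination h2)
  have hgne : ∀ j : ZMod N, f.symm (j + 1) - f.symm j ≠ 0 := by
    intro j h1
    rw [sub_eq_zero] at h1
    have h2 := f.symm.injective h1
    exact h11 (by linear_combination h2)
  by_cases hP : ∀ i, ((f (i + 1) - f i).val % 2 = (f i - f (i - 1)).val % 2 ∧
      (f.symm (f i + 1) - i).val % 2 = (i - f.symm (f i - 1)).val % 2 ∧
      (f (i + 1) - f i).val % 2 ≠ (f.symm (f i + 1) - i).val % 2)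
  · -- all parities agree
    have hA : ∀ i : ZMod N, (f (i + 1) - f i).val % 2 = (f (0 + 1) - f 0).val % 2 := by
      have h1 : ∀ n : ℕ, (f ((n : ZMod N) + 1) - f n).val % 2 = (f (0 + 1) - f 0).val % 2 := by
        intro n
        induction n with
        | zero => simp
        | succ n ih =>
          have h2 := (hP ((n : ZMod N) + 1)).1
          rw [add_sub_cancel_right] at h2
          rw [Nat.cast_succ, h2, ih]
      intro i
      have h2 := h1 i.val
      rwa [ZMod.natCast_zmod_val] at h2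
    have hB : ∀ j : ZMod N,
        (f.symm (j + 1) - f.symm j).val % 2 = (f.symm (0 + 1) - f.symm 0).val % 2 := by
      have h1 : ∀ n : ℕ, (f.symm ((n : ZMod N) + 1) - f.symm n).val % 2 =
          (f.symm (0 + 1) - f.symm 0).val % 2 := by
        intro n
        induction n with
        | zero => simp
        | succ n ih =>
          have h2 := (hP (f.symm ((n : ZMod N) + 1))).2.1
          rw [f.apply_symm_apply, add_sub_cancel_right] at h2
          rw [Nat.cast_succ, h2, ih]
      intro j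
      have h2 := h1 j.val
      rwa [ZMod.natCast_zmod_val] at h2
    have hAB : (f (0 + 1) - f 0).val % 2 ≠ (f.symm (0 + 1) - f.symm 0).val % 2 := by
      have h1 := (hP 0).2.2
      have h2 := hB (f 0)
      rw [f.symm_apply_apply] at h2
      rw [hA 0, h2] at h1
      exact h1
    have hneg : ∀ w : ZMod N, w ≠ 0 → ((-w).val + w.val) % 2 = 1 := by
      intro w hw
      rw [val_neg' w hw]
      have := ZMod.val_lt w
      omega
    rcases Nat.mod_two_eq_zero_or_one (f (0 + 1) - f 0).val with h0 | h0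
    · refine near_rigid f h7 hodd (fun i => ?_) (fun j => ?_)
      · have h1 := hneg _ (hfne i)
        have h2 := hA i
        rw [neg_sub] at h1
        omega
      · have h2 := hB j
        omega
    · refine near_rigid_mir f h7 hodd (fun i => ?_) (fun j => ?_)
      · have h2 := hA i
        omega
      · have h1 := hneg _ (hgne j)
        have h2 := hB j
        rw [neg_sub] at h1
        omega
  · push Not at hP
    obtain ⟨i, hi⟩ := hP
    have hpar : ¬ ((f (i + 1) - f i).val % 2 = (f i - f (i - 1)).val % 2 ∧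
        (f.symm (f i + 1) - i).val % 2 = (i - f.symm (f i - 1)).val % 2 ∧
        (f (i + 1) - f i).val % 2 ≠ (f.symm (f i + 1) - i).val % 2) := by
      rintro ⟨h1, h2, h3⟩
      exact h3 (hi h1 h2)
    have hgood : ∃ ε η : ZMod N, Good f i ε η := by
      have e1 : (1 : ZMod N) = 1 ∨ (1 : ZMod N) = -1 := Or.inl rfl
      have e2 : (-1 : ZMod N) = 1 ∨ (-1 : ZMod N) = -1 := Or.inr rfl
      by_cases c1 : (f (i + 1) - f i).val % 2 = 1 ∧ (f.symm (f i + 1) - i).val % 2 = 1
      · exact ⟨1, 1, e1, e1, by rw [one_mul]; exact c1.1, by rw [one_mul]; exact c1.2,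
          hno4 i e1 e1⟩
      by_cases c2 : (f (i + 1) - f i).val % 2 = 0 ∧ (i - f.symm (f i - 1)).val % 2 = 0
      · refine ⟨1, -1, e1, e2, ?_, ?_, hno4 i e1 e2⟩
        · rw [neg_mul, one_mul]
          exact neg_parity hodd (hfne i) c2.1
        · have h1 : (1 : ZMod N) * (f.symm (f i + -1) - i) = -(i - f.symm (f i - 1)) := by
            rw [← sub_eq_add_neg]; ring
          rw [h1]
          refine neg_parity hodd ?_ c2.2
          rw [sub_ne_zero]
          intro h
          have h2 := f.symm_apply_eq.mp h.symm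
          simp at h2
      by_cases c3 : (f i - f (i - 1)).val % 2 = 0 ∧ (f.symm (f i + 1) - i).val % 2 = 0
      · refine ⟨-1, 1, e2, e1, ?_, ?_, hno4 i e2 e1⟩
        · have h1 : (1 : ZMod N) * (f (i + -1) - f i) = -(f i - f (i - 1)) := by
            rw [← sub_eq_add_neg]; ring
          rw [h1]
          refine neg_parity hodd ?_ c3.1
          rw [sub_ne_zero]
          intro h
          have h2 := f.injective h
          exact h11 (by linear_combination h2)
        · rw [neg_mul, one_mul]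
          refine neg_parity hodd ?_ c3.2
          rw [sub_ne_zero]
          intro h
          have h2 := f.symm_apply_eq.mp h
          simp at h2
      · have c4 : (f i - f (i - 1)).val % 2 = 1 ∧ (i - f.symm (f i - 1)).val % 2 = 1 := by
          omega
        refine ⟨-1, -1, e2, e2, ?_, ?_, hno4 i e2 e2⟩
        · have h1 : (-1 : ZMod N) * (f (i + -1) - f i) = f i - f (i - 1) := by
            rw [← sub_eq_add_neg]; ring
          rw [h1]
          exact c4.1
        · have h1 : (-1 : ZMod N) * (f.symm (f i + -1) - i) = i - f.symm (f i - 1) := by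
            rw [← sub_eq_add_neg]; ring
          rw [h1]
          exact c4.2
    obtain ⟨ε, η, hg⟩ := hgood
    exact ⟨_, _, _, _, nearData_of_good (by omega) hodd hg⟩

theorem hasZ_perm (f : Equiv.Perm (ZMod N))
    (h7 : 7 ≤ N) (hodd : N % 2 = 1) (h4 : NoFour f) : HasZ (permGraph N f) := by
  obtain ⟨Z, s, t, b, h⟩ := near_all f h7 hodd h4
  exact hasZ_of_nearData h

theorem noFour_of_cyc (f : Equiv.Perm (ZMod N)) (h5 : 5 ≤ N)
    (hcyc : CyclicallyEdgeConnected (permGraph N f) 5) : NoFour f := by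
  intro i
  have e1 : (1 : ZMod N) = 1 ∨ (1 : ZMod N) = -1 := Or.inl rfl
  have e2 : (-1 : ZMod N) = 1 ∨ (-1 : ZMod N) = -1 := Or.inr rfl
  refine ⟨no_four h5 hcyc e1 e1, ?_⟩
  have h1 := no_four h5 hcyc (a := i) e1 e2
  rwa [← sub_eq_add_neg] at h1

theorem flow_perm (f : Equiv.Perm (ZMod N)) (h7 : 7 ≤ N)
    (hodd : N % 2 = 1) (hcyc : CyclicallyEdgeConnected (permGraph N f) 5)
    (hcut5 : ∀ S : Set (ZMod N ⊕ ZMod N), HasCycleIn (permGraph N f) S →
      HasCycleIn (permGraph N f) Sᶜ → cutSize (permGraph N f) S = 5 →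
      S.ncard = 5 ∨ Sᶜ.ncard = 5) :
    circularFlowNumber (permGraph N f) ≤ 9 / 2 := by
  classical
  obtain ⟨Z, hZ1, ⟨s, t, hst, hv⟩, hbip⟩ :=
    hasZ_perm f h7 hodd (noFour_of_cyc f (by omega) hcyc)
  exact TT.flow_part (permGraph N f) (permGraph_regular (by omega)) Z hZ1 s t hst hv hbip hcyc
    hcut5

end perm

end Pool.Agent.Helper19.RG
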