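import Pool.Agent.Helper19.CF.Perm

/-!
From an alternating path of spokes and rim edges to the near-perfect matching of a cycle
permutation graph. (Problem MP_d067c8_co.)
-/

namespace Pool.Agent.Helper19.RG

open Pool.Agent.Helper19.CF

/-- A path through the spokes `q a, q (a + 1), ..., q b` of the permutation graph of `σ`;
consecutive spokes `q i, q (i + 1)` are joined by an edge of the first rim if `i` is even and by
an edge of the second rim if `i` is odd.  The colours `cA`, `cB` of the two rims are proper except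
at edges of the path, and different at the ends of the spokes of the path. -/
structure QZ {N : ℕ} (σ : Equiv.Perm (ZMod N)) (a b : ℤ) (q : ℤ → ZMod N)
    (cA cB : ZMod N → Bool) : Prop where
  le : a ≤ b
  inj : ∀ i i', a ≤ i → i ≤ b → a ≤ i' → i' ≤ b → q i = q i' → i = i'
  adjA : ∀ i, a ≤ i → i + 1 ≤ b → i % 2 = 0 → q (i + 1) = q i + 1 ∨ q i = q (i + 1) + 1
  adjB : ∀ i, a ≤ i → i + 1 ≤ b → i % 2 = 1 →
    σ (q (i + 1)) = σ (q i) + 1 ∨ σ (q i) = σ (q (i + 1)) + 1
  col : ∀ i, a ≤ i → i ≤ b → cA (q i) ≠ cB (σ (q i))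
  mA : ∀ x, cA x = cA (x + 1) → ∃ i, a ≤ i ∧ i + 1 ≤ b ∧ i % 2 = 0 ∧
    ((q i = x ∧ q (i + 1) = x + 1) ∨ (q i = x + 1 ∧ q (i + 1) = x))
  mB : ∀ y, cB y = cB (y + 1) → ∃ i, a ≤ i ∧ i + 1 ≤ b ∧ i % 2 = 1 ∧
    ((σ (q i) = y ∧ σ (q (i + 1)) = y + 1) ∨ (σ (q i) = y + 1 ∧ σ (q (i + 1)) = y))

/-- Partner index on the first rim. -/
def pa (i : ℤ) : ℤ := if i % 2 = 0 then i + 1 else i - 1

/-- Partner index on the second rim. -/
def pb (i : ℤ) : ℤ := if i % 2 = 1 then i + 1 else i - 1

theorem pa_pa (i : ℤ) : pa (pa i) = i := by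
  unfold pa
  split_ifs <;> omega

theorem pb_pb (i : ℤ) : pb (pb i) = i := by
  unfold pb
  split_ifs <;> omega

/-- The matching. -/
def qZ {N : ℕ} (σ : Equiv.Perm (ZMod N)) (a b : ℤ) (q : ℤ → ZMod N) :
    ZMod N ⊕ ZMod N → ZMod N ⊕ ZMod N → Prop
  | .inl x, .inl y => ∃ i, a ≤ i ∧ i ≤ b ∧ a ≤ pa i ∧ pa i ≤ b ∧ x = q i ∧ y = q (pa i)
  | .inr x, .inr y => ∃ i, a ≤ i ∧ i ≤ b ∧ a ≤ pb i ∧ pb i ≤ b ∧ x = σ (q i) ∧ y = σ (q (pb i))
  | .inl x, .inr y => σ x = y ∧ ∀ i, a ≤ i → i ≤ b → x ≠ q i
  | .inr y, .inl x => σ x = y ∧ ∀ i, a ≤ i → i ≤ b → x ≠ q i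

/-- The colour of a vertex. -/
def qC {N : ℕ} (cA cB : ZMod N → Bool) : ZMod N ⊕ ZMod N → Bool
  | .inl x => cA x
  | .inr y => cB y

/-- The end at `q b`. -/
def endB {N : ℕ} (σ : Equiv.Perm (ZMod N)) (q : ℤ → ZMod N) (b : ℤ) : ZMod N ⊕ ZMod N :=
  if b % 2 = 0 then .inl (q b) else .inr (σ (q b))

/-- The end at `q a`. -/
def endA {N : ℕ} (σ : Equiv.Perm (ZMod N)) (q : ℤ → ZMod N) (a : ℤ) : ZMod N ⊕ ZMod N :=
  if a % 2 = 0 then .inr (σ (q a)) else .inl (q a)

section

variable {N : ℕ} {σ : Equiv.Perm (ZMod N)} {a b : ℤ} {q : ℤ → ZMod N} {cA cB : ZMod N → Bool}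

theorem qZ_symm (u v : ZMod N ⊕ ZMod N) (h : qZ σ a b q u v) : qZ σ a b q v u := by
  rcases u with x | x <;> rcases v with y | y
  · obtain ⟨i, h1, h2, h3, h4, h5, h6⟩ := h
    exact ⟨pa i, h3, h4, by rw [pa_pa]; exact h1, by rw [pa_pa]; exact h2, h6,
      by rw [pa_pa]; exact h5⟩
  · exact h
  · exact h
  · obtain ⟨i, h1, h2, h3, h4, h5, h6⟩ := h
    exact ⟨pb i, h3, h4, by rw [pb_pb]; exact h1, by rw [pb_pb]; exact h2, h6,
      by rw [pb_pb]; exact h5⟩

theorem nearData_of_QZ (hN : 2 < N) (h : QZ σ a b q cA cB) :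
    NearData (permGraph N σ) (qZ σ a b q) (endB σ q b) (endA σ q a)
      (fun v => if qC cA cB v = qC cA cB (endB σ q b) then 1 else -1) := by
  have hle := h.le
  constructor
  · -- the two ends are different
    unfold endA endB
    rcases Int.emod_two_eq_zero_or_one a with ha | ha <;>
      rcases Int.emod_two_eq_zero_or_one b with hb | hb
    · simp [ha, hb]
    · simp only [hb, ha, one_ne_zero, if_false, if_true, ne_eq, Sum.inr.injEq]
      intro h1
      have h2 := h.inj b a hle le_rfl le_rfl hle (σ.injective h1)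
      omega
    · simp only [hb, ha, one_ne_zero, if_false, if_true, ne_eq, Sum.inl.injEq]
      intro h1
      have h2 := h.inj b a hle le_rfl le_rfl hle h1
      omega
    · simp [ha, hb]
  · exact qZ_symm
  · rintro (x | x) (y | y) hz
    · rw [adj_ll (by omega)]
      obtain ⟨i, h1, h2, h3, h4, h5, h6⟩ := hz
      rw [h5, h6]
      unfold pa at h3 h4 ⊢
      split_ifs at h3 h4 ⊢ with h7
      · exact h.adjA i h1 h4 h7
      · have h8 := h.adjA (i - 1) h3 (by omega) (by omega)
        rw [sub_add_cancel] at h8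
        exact h8.symm
    · rw [adj_lr]; exact hz.1
    · rw [adj_rl]; exact hz.1
    · rw [adj_rr (by omega)]
      obtain ⟨i, h1, h2, h3, h4, h5, h6⟩ := hz
      rw [h5, h6]
      unfold pb at h3 h4 ⊢
      split_ifs at h3 h4 ⊢ with h7
      · exact h.adjB i h1 h4 h7
      · have h8 := h.adjB (i - 1) h3 (by omega) (by omega)
        rw [sub_add_cancel] at h8
        exact h8.symm
  · intro v hz
    unfold endB at hz
    rcases Int.emod_two_eq_zero_or_one b with hb | hb
    · rw [if_pos hb] at hz
      rcases v with y | y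
      · obtain ⟨i, h1, h2, h3, h4, h5, h6⟩ := hz
        have h7 := h.inj b i hle le_rfl h1 h2 h5
        subst h7
        unfold pa at h4
        rw [if_pos hb] at h4
        omega
      · exact hz.2 b hle le_rfl rfl
    · rw [if_neg (by omega)] at hz
      rcases v with y | y
      · have h1 := hz.1
        exact hz.2 b hle le_rfl (σ.injective h1)
      · obtain ⟨i, h1, h2, h3, h4, h5, h6⟩ := hz
        have h7 := h.inj b i hle le_rfl h1 h2 (σ.injective h5)
        subst h7
        unfold pb at h4
        rw [if_pos hb] at h4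
        omega
  · intro v hz
    unfold endA at hz
    rcases Int.emod_two_eq_zero_or_one a with ha | ha
    · rw [if_pos ha] at hz
      rcases v with y | y
      · have h1 := hz.1
        exact hz.2 a le_rfl hle (σ.injective h1)
      · obtain ⟨i, h1, h2, h3, h4, h5, h6⟩ := hz
        have h7 := h.inj a i le_rfl hle h1 h2 (σ.injective h5)
        subst h7
        unfold pb at h3
        rw [if_neg (by omega)] at h3
        omega
    · rw [if_neg (by omega)] at hz
      rcases v with y | y
      · obtain ⟨i, h1, h2, h3, h4, h5, h6⟩ := hz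
        have h7 := h.inj a i le_rfl hle h1 h2 h5
        subst h7
        unfold pa at h3
        rw [if_neg (by omega)] at h3
        omega
      · exact hz.2 a le_rfl hle rfl
  · rintro (x | x) hs ht
    · by_cases hx : ∃ i, a ≤ i ∧ i ≤ b ∧ x = q i
      · obtain ⟨i, h1, h2, rfl⟩ := hx
        have h3 : a ≤ pa i ∧ pa i ≤ b := by
          unfold pa
          unfold endA endB at *
          split_ifs with h3
          · refine ⟨by omega, ?_⟩
            by_contra h4
            have h5 : i = b := by omega
            subst h5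
            rw [if_pos h3] at hs
            exact hs rfl
          · refine ⟨?_, by omega⟩
            by_contra h4
            have h5 : i = a := by omega
            subst h5
            rw [if_neg h3] at ht
            exact ht rfl
        refine ⟨.inl (q (pa i)), ⟨i, h1, h2, h3.1, h3.2, rfl, rfl⟩, ?_⟩
        rintro (y | y) hy
        · obtain ⟨i', g1, g2, g3, g4, g5, g6⟩ := hy
          have g7 := h.inj i i' h1 h2 g1 g2 g5
          subst g7
          rw [g6]
        · exact absurd rfl (hy.2 i h1 h2)
      · push Not at hx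
        refine ⟨.inr (σ x), ⟨rfl, fun i h1 h2 => hx i h1 h2⟩, ?_⟩
        rintro (y | y) hy
        · obtain ⟨i', g1, g2, g3, g4, g5, g6⟩ := hy
          exact absurd g5 (hx i' g1 g2)
        · rw [hy.1]
    · by_cases hx : ∃ i, a ≤ i ∧ i ≤ b ∧ x = σ (q i)
      · obtain ⟨i, h1, h2, rfl⟩ := hx
        have h3 : a ≤ pb i ∧ pb i ≤ b := by
          unfold pb
          unfold endA endB at *
          split_ifs with h3
          · refine ⟨by omega, ?_⟩
            by_contra h4
            have h5 : i = b := by omega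
            subst h5
            rw [if_neg (by omega)] at hs
            exact hs rfl
          · refine ⟨?_, by omega⟩
            by_contra h4
            have h5 : i = a := by omega
            subst h5
            rw [if_pos (by omega)] at ht
            exact ht rfl
        refine ⟨.inr (σ (q (pb i))), ⟨i, h1, h2, h3.1, h3.2, rfl, rfl⟩, ?_⟩
        rintro (y | y) hy
        · have h4 := hy.1
          exact absurd (σ.injective h4) (hy.2 i h1 h2)
        · obtain ⟨i', g1, g2, g3, g4, g5, g6⟩ := hy
          have g7 := h.inj i i' h1 h2 g1 g2 (σ.injective g5)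
          subst g7
          rw [g6]
      · push Not at hx
        refine ⟨.inl (σ.symm x), ⟨by simp, fun i h1 h2 h3 => hx i h1 h2 (by rw [← h3]; simp)⟩, ?_⟩
        rintro (y | y) hy
        · rw [← hy.1]; simp
        · obtain ⟨i', g1, g2, g3, g4, g5, g6⟩ := hy
          exact absurd g5 (hx i' g1 g2)
  · intro v
    by_cases h1 : qC cA cB v = qC cA cB (endB σ q b)
    · left; exact if_pos h1
    · right; exact if_neg h1
  · -- the colouring is proper outside the matching
    have key : ∀ u v, (permGraph N σ).Adj u v → ¬ qZ σ a b q u v →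
        qC cA cB u ≠ qC cA cB v := by
      have kA : ∀ x, ¬ qZ σ a b q (.inl x) (.inl (x + 1)) → cA x ≠ cA (x + 1) := by
        intro x hz h1
        obtain ⟨i, g1, g2, g3, g4⟩ := h.mA x h1
        rcases g4 with g4 | g4
        · apply hz
          refine ⟨i, g1, by omega, ?_, ?_, g4.1.symm, ?_⟩
          · unfold pa; rw [if_pos g3]; omega
          · unfold pa; rw [if_pos g3]; omega
          · unfold pa; rw [if_pos g3]; exact g4.2.symm
        · apply hz
          have g5 : pa (i + 1) = i := by
            unfold pa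
            rw [if_neg (by omega)]
            omega
          refine ⟨i + 1, by omega, g2, ?_, ?_, g4.2.symm, ?_⟩
          · rw [g5]; exact g1
          · rw [g5]; omega
          · rw [g5]; exact g4.1.symm
      have kB : ∀ x, ¬ qZ σ a b q (.inr x) (.inr (x + 1)) → cB x ≠ cB (x + 1) := by
        intro x hz h1
        obtain ⟨i, g1, g2, g3, g4⟩ := h.mB x h1
        rcases g4 with g4 | g4
        · apply hz
          refine ⟨i, g1, by omega, ?_, ?_, g4.1.symm, ?_⟩
          · unfold pb; rw [if_pos g3]; omega
          · unfold pb; rw [if_pos g3]; omega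
          · unfold pb; rw [if_pos g3]; exact g4.2.symm
        · apply hz
          have g5 : pb (i + 1) = i := by
            unfold pb
            rw [if_neg (by omega)]
            omega
          refine ⟨i + 1, by omega, g2, ?_, ?_, g4.2.symm, ?_⟩
          · rw [g5]; exact g1
          · rw [g5]; omega
          · rw [g5]; exact g4.1.symm
      have kS : ∀ x, ¬ qZ σ a b q (.inl x) (.inr (σ x)) → cA x ≠ cB (σ x) := by
        intro x hz
        by_contra h1
        apply hz
        refine ⟨rfl, fun i g1 g2 g3 => ?_⟩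
        rw [g3] at h1
        exact h.col i g1 g2 h1
      rintro (x | x) (y | y) hadj hz
      · rw [adj_ll (by omega)] at hadj
        rcases hadj with rfl | rfl
        · exact kA x hz
        · exact (kA y (fun h1 => hz (qZ_symm _ _ h1))).symm
      · rw [adj_lr] at hadj
        subst hadj
        exact kS x hz
      · rw [adj_rl] at hadj
        subst hadj
        exact (kS y (fun h1 => hz (qZ_symm _ _ h1))).symm
      · rw [adj_rr (by omega)] at hadj
        rcases hadj with rfl | rfl
        · exact kB x hz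
        · exact (kB y (fun h1 => hz (qZ_symm _ _ h1))).symm
    intro u v hadj hz
    have h1 := key u v hadj hz
    show (if qC cA cB v = _ then (1 : ℤ) else -1) = -(if qC cA cB u = _ then (1 : ℤ) else -1)
    revert h1
    cases qC cA cB u <;> cases qC cA cB v <;> cases qC cA cB (endB σ q b) <;> simp
  · show (if _ = _ then (1 : ℤ) else -1) = 1
    rw [if_pos rfl]

end

end Pool.Agent.Helper19.RG
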