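import Pool.Agent.Helper19.RG.Assembly
import Pool.Agent.Helper64.M7.ExFree
import Pool.Agent.Helper26.M7.Rows4

/-!
The rows of the proof from its two last parts. (Problem MP_d067c8_co.)
-/

namespace Pool.Agent.Helper19.RG

open Finset Pool.Agent.Helper19.CF

variable {N : ℕ} [NeZero N]

theorem rows_of
    (H9 : ∀ (g : Equiv.Perm (ZMod N)) (c d : ZMod N), Bad g → M7 g c d →
      ∀ X : Finset (ZMod N ⊕ ZMod N), Side g X → X.card = 9 → ¬ m7 c d ⊆ X)
    (HF : (∀ (g : Equiv.Perm (ZMod N)), Bad g → ∀ X Y : Finset (ZMod N ⊕ ZMod N), Side g X →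
        X.card = 9 → Side g Y → Y.card = 7 → ¬ Y ⊆ X) →
      ∀ (f : Equiv.Perm (ZMod N)) (S : Finset (ZMod N ⊕ ZMod N)) (c d : ZMod N), Bad f →
        Min9 f S → Free f S c d → False) : Rows N := by
  have hnine : ∀ g : Equiv.Perm (ZMod N), Bad g → ∀ X Y : Finset (ZMod N ⊕ ZMod N), Side g X →
      X.card = 9 → Side g Y → Y.card = 7 → ¬ Y ⊆ X := fun g hg X Y h1 h2 h3 h4 =>
    no_nine_of H9 hg h1 h2 h3 h4
  refine ⟨H9, ?_, hw1_all, hw1'_all hnine⟩
  intro g S hb hS Y hY x hx hc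
  obtain ⟨f', s, c, d, hfree, -, -⟩ := exists_free hb (hnine g hb) hS hY hx hc
  exact HF hnine f' (im s.φ S) c d (hb.iso s.φ) (hS.im s.φ) hfree

end Pool.Agent.Helper19.RG
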