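import Pool.Agent.Helper19.RG.Rows
import Pool.Agent.Helper26.M7.C0
import Pool.Agent.Helper46.M7.NoFree
import Pool.Agent.Helper61.M7.Nine3

/-!
The rows of the proof from the word `W0`. (Problem MP_d067c8_co.)
-/

namespace Pool.Agent.Helper19.RG

open Finset Pool.Agent.Helper19.CF

variable {N : ℕ} [NeZero N]

theorem rows_of_w0
    (H : ∀ (g : Equiv.Perm (ZMod N)) (c d : ZMod N), Bad g → M7 g c d →
      (g.symm (g c - 1) - c).val % 2 = 1 → Pool.Agent.Helper59.RG.W0 g c d) : Rows N := by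
  have hW : Pool.Agent.Helper61.M7.W0 N := by
    intro g hg hF hw
    obtain ⟨X, p, q, r, s, -, -, -, -, -, h1, -, h2, -⟩ := H g 0 0 hg hF.m7 (by
      rw [sub_zero]; exact hw)
    exact ⟨X, h1, by rw [zero_sub] at h2; exact h2⟩
  refine rows_of (fun g c d hg hm X hX h9 =>
    Pool.Agent.Helper61.M7.no_nine_of hW hg hm hX h9) ?_
  intro h1 f S c d hb hS hf
  exact Pool.Agent.Helper46.M7.no_free_of H (fun g c d hg hm hw => M7.c0 hg hm hw) hb h1 hS hf

end Pool.Agent.Helper19.RG
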