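import Pool.Agent.Helper19.RG.Arcs
import Pool.Agent.Helper19.RG.Cert
import Pool.Agent.KR56.Rigid.Choice
import Pool.Agent.Helper61.RigidL.Final

/-!
A local certificate at a side whose spokes are in no nontrivial 5-edge-cut gives a flow.
(Problem MP_d067c8_co.)
-/

namespace Pool.Agent.Helper19.RG

open Finset Pool.Agent.Helper19.CF Pool.Agent.Helper61.Rigid Pool.Agent.Helper61.RigidL

section

variable {N : ℕ} [NeZero N] {f : Equiv.Perm (ZMod N)}

open Pool.Agent.KR56.Rigid in
/-- The local hypotheses of helper61. -/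
theorem hypL_of (hN : 5 < N) (hodd : N % 2 = 1) {M : Finset (ZMod N ⊕ ZMod N)} (hrig : Rig f M)
    (e : ZMod N)
    (hrows : ∀ j : ℕ, j ≤ sig f e 1 + 1 → (.inr (f e + j) : ZMod N ⊕ ZMod N) ∈ M ∧
      (.inl (f.symm (f e + j)) : ZMod N ⊕ ZMod N) ∈ M)
    (hmin : ∀ x, (f x - f e).val < (f (x + 1) - f e).val →
      (f (x + 1) - f e).val ≤ (f (e + 1) - f e).val → x = e) :
    HypL N (sig f e) (tau f e) := by
  have hA : ∀ a : ℕ, (sig f e a ≤ sig f e 1 + 1 ∨ sig f e (a + 1) ≤ sig f e 1 + 1) →
      rr f (e + a) % 2 = 1 := by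
    intro a ha
    apply hrig.hA
    have key : ∀ a : ℕ, sig f e a ≤ sig f e 1 + 1 → (.inl (e + a) : ZMod N ⊕ ZMod N) ∈ M := by
      intro a ha
      have h1 := (hrows _ ha).2
      rw [← f_eq, Equiv.symm_apply_apply] at h1
      exact h1
    rcases ha with ha | ha
    · exact Or.inl (key a ha)
    · right
      have := key (a + 1) ha
      push_cast at this
      rw [← add_assoc] at this
      exact this
  have hB : ∀ b : ℕ, b ≤ sig f e 1 + 1 →
      (f.symm (f e + b + 1) - f.symm (f e + b)).val % 2 = 1 := fun b hb =>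
    hrig.hB _ (Or.inl (hrows b hb).1)
  have h0 : sig f e 0 = N := by
    unfold sig
    rw [Nat.cast_zero, add_zero, sub_self]
    exact pos_eq (by omega) (le_refl _) (ZMod.natCast_self N)
  have h0' : tau f e 0 = N := by
    unfold tau
    rw [Nat.cast_zero, add_zero, Equiv.symm_apply_apply, sub_self]
    exact pos_eq (by omega) (le_refl _) (ZMod.natCast_self N)
  have hle : ∀ a, sig f e a ≤ N := fun a => pos_le _
  have hle' : ∀ a, tau f e a ≤ N := fun a => pos_le _
  have h1le : ∀ a, 1 ≤ sig f e a := fun a => pos_one_le _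
  have hval : ∀ a : ℕ, sig f e a < N → (f (e + a) - f e).val = sig f e a := by
    intro a ha
    have h1 : f (e + a) - f e = (sig f e a : ZMod N) := by
      rw [f_eq]
      ring
    rw [h1, ZMod.val_natCast_of_lt ha]
  have h1N : sig f e 1 < N := by
    rcases Nat.lt_or_ge (sig f e 1) N with h | h
    · exact h
    · exfalso
      have h1 := (hle 1).antisymm h
      have h2 := f_eq (f := f) (e := e) 1
      rw [h1, ZMod.natCast_self, add_zero] at h2
      have h3 := f.injective h2
      have : Fact (1 < N) := ⟨by omega⟩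
      exact one_ne_zero (α := ZMod N) (by push_cast at h3; linear_combination h3)
  constructor
  · omega
  · exact hodd
  · exact fun a _ _ => ⟨pos_one_le _, pos_le _⟩
  · exact fun a _ _ => ⟨pos_one_le _, pos_le _⟩
  · exact fun a h1 h2 => tau_sig h1 h2
  · exact fun b h1 h2 => sig_tau h1 h2
  · exact sig_self
  · intro a _ _ h3 h4
    have h1 := sig_step (f := f) (e := e) (by omega) a
    have h2 := hA a (Or.inr (by omega))
    have h5 := rr_lt (f := f) (e + a)
    omega
  · intro a _ _ h3 h4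
    have h1 := sig_step (f := f) (e := e) (by omega) a
    have h2 := hA a (Or.inl h4)
    omega
  · intro b _ _ h3 h4
    have h1 := tau_step (f := f) (e := e) b
    have h2 := hB b (by omega)
    have h5 := ZMod.val_lt (f.symm (f e + b + 1) - f.symm (f e + b))
    omega
  · intro b _ _ h3 h4
    have h1 := tau_step (f := f) (e := e) b
    have h2 := hB b (by omega)
    omega
  · have h1 := sig_step (f := f) (e := e) (by omega) 0
    rw [zero_add] at h1
    have h2 := hA 0 (Or.inr (by rw [zero_add]; omega))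
    have h3 := rr_lt (f := f) (e + (0 : ℕ))
    have h4 := hle 1
    omega
  · have h1 := tau_step (f := f) (e := e) 0
    rw [zero_add] at h1
    have h2 := hB 0 (by omega)
    have h3 := hle' 1
    have h4 := ZMod.val_lt (f.symm (f e + (0 : ℕ) + 1) - f.symm (f e + (0 : ℕ)))
    omega
  · intro a h1 h2 h3
    by_contra h4
    have h5 := hval a (by omega)
    have h6 := hval (a + 1) (by omega)
    have h7 : e + ((a + 1 : ℕ) : ZMod N) = e + a + 1 := by push_cast; ring
    rw [h7] at h6
    have h8 := hval 1 h1N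
    rw [Nat.cast_one] at h8
    have h9 := hmin (e + a) (by rw [h5, h6]; exact h3) (by rw [h6, h8]; omega)
    have h10 : (a : ZMod N) = 0 := by simpa using h9
    have h11 := congrArg ZMod.val h10
    rw [ZMod.val_natCast_of_lt h2, ZMod.val_zero] at h11
    omega

/-- A step as in helper61's core theorem gives a flow. -/
theorem flow_of_step (hN : 5 < N) (hodd : N % 2 = 1)
    (hcyc : CyclicallyEdgeConnected (permGraph N f) 5) {M : Finset (ZMod N ⊕ ZMod N)}
    (hrig : Rig f M)
    (hns : ∀ x, (.inl x : ZMod N ⊕ ZMod N) ∈ M → (.inr (f x) : ZMod N ⊕ ZMod N) ∈ M → NoStar f x)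
    (e : ZMod N)
    (hrows : ∀ j : ℕ, j ≤ (f (e + 1) - f e).val + 1 →
      (.inr (f e + j) : ZMod N ⊕ ZMod N) ∈ M ∧
      (.inl (f.symm (f e + j)) : ZMod N ⊕ ZMod N) ∈ M)
    (hmin : ∀ x, (f x - f e).val < (f (x + 1) - f e).val →
      (f (x + 1) - f e).val ≤ (f (e + 1) - f e).val → x = e)
    (hne : f (e - 1) ≠ f (e + 1) + 1) : HasFlow (permGraph N f) (9 / 2) := by
  classical
  have hF : Fact (1 < N) := ⟨by omega⟩
  have hs1 : Pool.Agent.KR56.Rigid.sig f e 1 = (f (e + 1) - f e).val := by
    unfold Pool.Agent.KR56.Rigid.sig Pool.Agent.KR56.Rigid.pos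
    rw [Nat.cast_one, if_neg]
    rw [sub_eq_zero]
    intro h
    have := f.injective h
    exact one_ne_zero (α := ZMod N) (by linear_combination this)
  have hH := hypL_of hN hodd hrig e (by rw [hs1]; exact hrows) hmin
  have hfe : ∀ a : ℕ, f (e + a) = f e + Pool.Agent.KR56.Rigid.sig f e a := fun a =>
    Pool.Agent.KR56.Rigid.f_eq a
  have hE0 : Pool.Agent.KR56.Rigid.sig f e (N - 1) ≠ Pool.Agent.KR56.Rigid.sig f e 1 + 1 := by
    intro h
    apply hne
    have h1 := hfe (N - 1)
    have h2 := hfe 1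
    rw [h] at h1
    have h3 : ((N - 1 : ℕ) : ZMod N) = -1 := by
      rw [Nat.cast_sub (by omega), Nat.cast_one, ZMod.natCast_self, zero_sub]
    rw [h3] at h1
    rw [Nat.cast_one] at h2
    rw [sub_eq_add_neg, h1, h2]
    push_cast
    ring
  obtain ⟨zA, zB, X, cA, cB, s, t, hC, hlow, hend⟩ := coreLP hH hE0
  have hD := nearData_of_cert (by omega) hC hH.sig_mem (fun a _ _ => hfe a)
  have hreg : ∀ v, (permGraph N f).degree v = 3 := permGraph_regular (by omega)
  refine hasFlow_nine_halves hreg hD ?_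
  intro Y hY h1 h2
  have h3 := hcyc _ h1 h2
  rw [cutSize_coe] at h3
  refine ⟨by omega, fun h5 => ?_⟩
  obtain ⟨h7, h7'⟩ := not_thin hN hcyc hD hY h5
  have hside : Side f Y := ⟨by rw [cutSize_coe]; exact h5, h7, h7'⟩
  obtain ⟨s1, s2, s3⟩ := shape hN h5 (by omega) (by omega)
  obtain ⟨x0, hx0, hother⟩ := star s3
  have hZ : ∀ u v, cZ f e zA zB X u v → (u ∈ Y ↔ v ∈ Y) := by
    intro u v hz
    constructor
    · intro hu
      by_contra hv
      exact (hY.out u hu v hv (hD.adj _ _ hz)).1 hz
    · intro hv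
      by_contra hu
      exact (hY.out v hv u hu (hD.adj _ _ hz).symm).1 (hD.symm _ _ hz)
  have hpr := pos_range e x0
  have hps := pos_spec e x0
  have hX : X (pos e x0) := by
    by_contra hX
    exact hx0 (hZ (.inl x0) (.inr (f x0)) ⟨rfl, hX⟩)
  -- the crossing spoke is not in `M`
  have hnotM : ¬ ((.inl x0 : ZMod N ⊕ ZMod N) ∈ M ∧ (.inr (f x0) : ZMod N ⊕ ZMod N) ∈ M) := by
    rintro ⟨g1, g2⟩
    exact hx0 (hns x0 g1 g2 Y hside)
  have hrow : ∀ j : ℕ, j ≤ (f (e + 1) - f e).val + 1 → f x0 ≠ f e + j := by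
    intro j hj h
    obtain ⟨g1, g2⟩ := hrows j hj
    rw [← h] at g1 g2
    rw [Equiv.symm_apply_apply] at g2
    exact hnotM ⟨g2, g1⟩
  have hnend : ¬ (pos e x0 = s.2 ∨ pos e x0 = t.2) := by
    intro hc
    have hnx : ∀ (g : ZMod N) (a : ℕ), g + (nx N a : ZMod N) = g + a + 1 := by
      intro g a
      unfold nx
      split_ifs with h
      · rw [h]; simp
      · push_cast; ring
    have key := hend (pos e x0) hc (fun a => (.inl (e + a) : ZMod N ⊕ ZMod N) ∈ Y)
      (fun b => (.inr (f e + b) : ZMod N ⊕ ZMod N) ∈ Y)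
      (by
        intro a g1 g2 g3
        rw [hnx]
        exact hZ _ _ (Or.inl ⟨rfl, by rw [pos_unique e (e + a) a g1 g2 rfl]; exact g3⟩))
      (by
        intro b g1 g2 g3
        rw [hnx]
        exact hZ _ _ (Or.inl ⟨rfl, by rw [pos_unique (f e) (f e + b) b g1 g2 rfl]; exact g3⟩))
      (by
        intro a g1 g2 _ g3
        rw [← hfe a]
        apply hother
        intro g4
        apply g3
        rw [← g4]
        exact (pos_unique e (e + a) a g1 g2 rfl).symm)
    obtain ⟨⟨x, hx⟩, ⟨y, hy⟩⟩ := jump_both hN hD hY h5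
    have htwo : ∀ x : ZMod N, x ≠ x + 1 + 1 := by
      intro x h
      apply two_ne (N := N) (by omega)
      linear_combination -h
    have hzA : ∀ x : ZMod N, cZ f e zA zB X (.inl x) (.inl (x + 1)) → zA (pos e x) := by
      intro x hz
      rcases hz with hz | hz
      · exact hz.2
      · exact absurd hz.1 (htwo x)
    have hzB : ∀ x : ZMod N, cZ f e zA zB X (.inr x) (.inr (x + 1)) → zB (pos (f e) x) := by
      intro x hz
      rcases hz with hz | hz
      · exact hz.2
      · exact absurd hz.1 (htwo x)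
    rcases key with ⟨k1, k2⟩ | ⟨k1, k2⟩
    · rcases hy with ⟨g1, g2⟩ | ⟨g1, g2⟩
      · have g3 := k1 _ (pos_range e y).1 (pos_range e y).2 (hzA y g1)
        rw [pos_spec] at g3
        exact g2 g3
      · have g3 := k2 _ (pos_range (f e) y).1 (pos_range (f e) y).2 (hzB y g1)
        rw [pos_spec] at g3
        exact g2 g3
    · rcases hx with ⟨g1, g2⟩ | ⟨g1, g2⟩
      · have g3 := k1 _ (pos_range e x).1 (pos_range e x).2 (hzA x g1)
        rw [pos_spec] at g3
        exact g3 g2
      · have g3 := k2 _ (pos_range (f e) x).1 (pos_range (f e) x).2 (hzB x g1)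
        rw [pos_spec] at g3
        exact g3 g2
  rcases hlow _ hpr.1 hpr.2 hX with h | h | h | h
  · exact hnend (Or.inl h)
  · exact hnend (Or.inr h)
  · apply hrow 0 (by omega)
    rw [h, ZMod.natCast_self, add_zero] at hps
    rw [← hps, Nat.cast_zero, add_zero]
  · rw [hs1] at h
    apply hrow _ h
    rw [← hfe, hps]

end

end Pool.Agent.Helper19.RG
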