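import Pool.Agent.Helper19.RG.Block

/-!
The last step: a minimal side with at least nine vertices whose inner spokes are in no
nontrivial 5-edge-cut. (Problem MP_d067c8_co.)
-/

namespace Pool.Agent.Helper19.RG

open Finset Pool.Agent.Helper19.CF

section

variable {N : ℕ} [NeZero N] {f : Equiv.Perm (ZMod N)} {M S : Finset (ZMod N ⊕ ZMod N)}
  {c d x0 : ZMod N} {m : ℕ}

theorem tm_mir (hb : Bad f) {x : ZMod N} (h : TP f x) : TM (mir f) x := by
  have hN := hb.hN
  have hodd := hb.hodd
  have hF : Fact (1 < N) := ⟨by omega⟩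
  have n1 : x + 1 ≠ x := fun h => one_ne_zero (α := ZMod N) (by linear_combination h)
  have n2 : x - 1 ≠ x := fun h => one_ne_zero (α := ZMod N) (by linear_combination -h)
  have n3 : f x + 1 ≠ f x := fun h => one_ne_zero (α := ZMod N) (by linear_combination h)
  have n4 : f x - 1 ≠ f x := fun h => one_ne_zero (α := ZMod N) (by linear_combination -h)
  have f1 := val_flip hodd (u := f x) (v := f (x + 1)) fun h => n1 (f.injective h).symm
  have f2 := val_flip hodd (u := f (x - 1)) (v := f x) fun h => n2 (f.injective h)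
  have f3 := val_flip hodd (u := f.symm (f x + 1)) (v := x) fun h => by
    rw [Equiv.symm_apply_eq] at h
    exact n3 h
  have f4 := val_flip hodd (u := x) (v := f.symm (f x - 1)) fun h => by
    have h' := h.symm
    rw [Equiv.symm_apply_eq] at h'
    exact n4 h'
  obtain ⟨h1, h2, h3, h4⟩ := h
  have e1 : - f x - -f (x + 1) = f (x + 1) - f x := by ring
  have e2 : - f (x - 1) - -f x = f x - f (x - 1) := by ring
  have e3 : -(-f x + 1) = f x - 1 := by ring
  have e4 : -(-f x - 1) = f x + 1 := by ring
  refine ⟨?_, ?_, ?_, ?_⟩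
  · rw [mir_apply, mir_apply, e1]
    omega
  · rw [mir_apply, mir_apply, e2]
    omega
  · rw [mir_symm, mir_apply, e3]
    omega
  · rw [mir_symm, mir_apply, e4]
    omega

theorem HA.mir (hN : 1 < N) (h : HA f M c d x0 m) :
    HA (mir f) (im (mirIso hN f) M) c (-d - ((m + 1 : ℕ) : ZMod N)) x0 m := by
  have hm := h.mN
  constructor
  · exact h.m3
  · exact h.mN
  · rw [← h.card]
    exact card_map _
  · intro x
    rw [mir_inl, h.memA]
  · intro y
    rw [mir_inr, h.memB]
    have a1 : y - (-d - ((m + 1 : ℕ) : ZMod N)) = ((m + 1 : ℕ) : ZMod N) - (-y - d) := by ring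
    rw [a1]
    have a2 := range_flip (N := N) (w := -y - d) (K := m + 1) (by omega)
    omega
  · rw [mir_inl]
    exact h.star1
  · rw [mir_inr, mir_apply, neg_neg]
    exact h.star2
  · intro x hx
    rw [mir_inl, mir_inr, mir_apply, neg_neg]
    exact h.other _ hx

theorem caseB (hb : Bad f) (hns : NS f M) (hM : Side f M)
    (h : HA f M c d x0 m) (hm4 : 4 ≤ m) (h7 : ∀ Y, Side f Y → Y.card = 7 → ¬ Y ⊆ M) : False := by
  have hN := hb.hN
  have hN1 : 1 < N := by omega
  rcases types hb hns h with ht | ht
  · exact rigid_false hb hns hM (rig_of_TM (by omega) hb.cyc hM h ht) h hm4 h7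
  · have hb' := hb.iso (mirIso hN1 f)
    have hM' := hM.im (mirIso hN1 f)
    have h' := h.mir hN1
    refine rigid_false hb' (hns.im (mirSym hN1 f)) hM' (rig_of_TM (by omega) hb'.cyc hM' h' ?_)
      h' hm4 ?_
    · intro y hy
      change (.inr y : ZMod N ⊕ ZMod N) ∈ im (mirIso hN1 f) M at hy
      rw [mir_inr] at hy
      rw [mir_symm]
      exact tm_mir hb (ht _ hy)
    · intro Y hY h7' hsub
      refine h7 _ (hY.im (mirIso hN1 f).symm) ?_ ?_
      · rw [← h7']
        exact card_map _
      · intro v hv
        rw [mem_im'] at hv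
        have h3 : (mirIso hN1 f).symm.symm v ∈ im (mirIso hN1 f) M := hsub hv
        rw [mem_im'] at h3
        have h2 : (mirIso hN1 f).symm ((mirIso hN1 f).symm.symm v) = v :=
          (mirIso hN1 f).symm.apply_symm_apply v
        rwa [h2] at h3

theorem card_odd (hb : Bad f) (hS : Side f S) : S.card % 2 = 1 := by
  classical
  have h := parity (permGraph N f) (permGraph_regular (by have := hb.hN; omega)) S
  rw [hS.dd] at h
  omega

/-- The last step. -/
theorem step4 (hb : Bad f) (hS : Min9 f S) (hns : NS f S)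
    (hframe : ∀ g : Equiv.Perm (ZMod N), Bad g → ∀ Y : Finset (ZMod N ⊕ ZMod N), Side g Y →
      Y.card = 7 → ∃ (f' : Equiv.Perm (ZMod N)) (s : Sym g f') (c d : ZMod N), M7 f' c d ∧
        im s.φ Y = m7 c d)
    (hnine : ∀ g : Equiv.Perm (ZMod N), Bad g → ∀ X Y : Finset (ZMod N ⊕ ZMod N), Side g X →
      X.card = 9 → Side g Y → Y.card = 7 → ¬ Y ⊆ X)
    (hw1 : ∀ (g : Equiv.Perm (ZMod N)) (c d : ZMod N), Bad g → M7 g c d →
      (g (g.symm (d + 3) - 1) - (d + 3)).val % 2 = 0 → NoStar g (c - 1) → NoStar g (c - 2) →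
      NoStar g (g.symm (d + 3)) → False)
    (hw1' : ∀ (g : Equiv.Perm (ZMod N)) (c d : ZMod N), Bad g → M7 g c d →
      (d - 1 - g (g.symm (d - 1) + 1)).val % 2 = 0 → NoStar g (c + 1) → NoStar g (c - 1) →
      NoStar g (c - 2) → NoStar g (g.symm (d - 1)) → False) : False := by
  have hN := hb.hN
  have hN1 : 1 < N := by omega
  by_cases h7 : ∀ Y, Side f Y → Y.card = 7 → ¬ Y ⊆ S
  · rcases side_cases' (by omega) hS.side with ⟨c, d, x0, m, h⟩ | ⟨x0, h1, h2, h3⟩
    · have := hS.nine
      have := h.card
      exact caseB hb hns hS.side h (by omega) h7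
    · -- rotate
      have hb' := hb.iso (rotIso hN1 f)
      have hS' := hS.im (rotIso hN1 f)
      have h7' : ∀ Y, Side (rot f) Y → Y.card = 7 → ¬ Y ⊆ im (rotIso hN1 f) S := by
        intro Y hY h7'' hsub
        refine h7 _ (hY.im (rotIso hN1 f).symm) ?_ ?_
        · rw [← h7'']
          exact card_map _
        · intro v hv
          rw [mem_im'] at hv
          have := hsub hv
          rw [mem_im'] at this
          have h2 : (rotIso hN1 f).symm ((rotIso hN1 f).symm.symm v) = v :=
            (rotIso hN1 f).symm.apply_symm_apply v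
          rwa [h2] at this
      have a1 : (.inl (f x0) : ZMod N ⊕ ZMod N) ∈ im (rotIso hN1 f) S := by
        rw [rot_inl]; exact h2
      have a2 : (.inr (rot f (f x0)) : ZMod N ⊕ ZMod N) ∉ im (rotIso hN1 f) S := by
        rw [rot_inr, rot_apply, neg_neg, Equiv.symm_apply_apply]; exact h1
      rcases side_cases' (by omega) hS'.side with ⟨c, d, x0', m, h⟩ | ⟨x0', h1', h2', h3'⟩
      · have := hS'.nine
        have := h.card
        exact caseB hb' (hns.im (rotSym hN1 f)) hS'.side h (by omega) h7'
      · by_cases hx : f x0 = x0'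
        · rw [hx] at a1
          exact h1' a1
        · exact a2 ((h3' _ hx).mp a1)
  · push Not at h7
    obtain ⟨Y, hY, hY7, hYS⟩ := h7
    obtain ⟨f', s, c, d, hm, him⟩ := hframe f hb Y hY hY7
    have hb' := hb.iso s.φ
    have hS' := hS.im s.φ
    have hns' := hns.im s
    have hsub : m7 c d ⊆ im s.φ S := by
      rw [← him]
      intro v hv
      rw [mem_im'] at hv ⊢
      exact hYS hv
    generalize im s.φ S = S' at hS' hns' hsub
    have hA : ∀ x, (x = c - 2 ∨ x = c - 1 ∨ x = c ∨ x = c + 1) →
        (.inl x : ZMod N ⊕ ZMod N) ∈ S' := fun x hx => hsub ((mem_m7_l hN x).mpr hx)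
    have hB : ∀ y, (y = d ∨ y = d + 1 ∨ y = d + 2) →
        (.inr y : ZMod N ⊕ ZMod N) ∈ S' := fun y hy => hsub ((mem_m7_r hN y).mpr hy)
    have hF : Fact (1 < N) := ⟨hN1⟩
    have one0 : (1 : ZMod N) ≠ 0 := one_ne_zero
    have two0 : (2 : ZMod N) ≠ 0 := two_ne (N := N) (by omega)
    have hout : (.inr (f' c) : ZMod N ⊕ ZMod N) ∉ m7 c d := by
      rw [mem_m7_r hN]
      rintro (h | h | h)
      · rw [← hm.b] at h
        exact one0 (by linear_combination (f'.injective h))
      · rw [← hm.g] at h
        exact one0 (by linear_combination -(f'.injective h))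
      · rw [← hm.a] at h
        exact two0 (by linear_combination (f'.injective h))
    have hin : (.inl c : ZMod N ⊕ ZMod N) ∈ m7 c d := (mem_m7_l hN c).mpr (by tauto)
    have hc : (.inr (f' c) : ZMod N ⊕ ZMod N) ∉ S' := by
      intro h
      exact hout ((hns'.noStar (hsub hin) h _ (hm.side hN).1).mp hin)
    have hcard : 11 ≤ S'.card := by
      have h1 := card_odd hb' hS'.side
      have h2 := hS'.nine
      have h3 : S'.card ≠ 9 := fun h =>
        hnine f' hb' S' (m7 c d) hS'.side h (hm.side hN).1 (hm.side hN).2 hsub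
      omega
    rcases side_cases' (by omega) hS'.side with ⟨c0, d0, x0, m, h⟩ | ⟨x0, h1, h2, h3⟩
    · have hx0 : c = x0 := by
        by_contra hne
        exact hc ((h.other c hne).mp (hsub hin))
      subst hx0
      have hmc := h.card
      have hmN := h.mN
      have hTP : ∀ y, (.inr y : ZMod N ⊕ ZMod N) ∈ S' → TP f' (f'.symm y) := by
        rcases types hb' hns' h with ht | ht
        · exfalso
          have h1 := ht d (hB d (Or.inl rfl))
          rw [← hm.b, Equiv.symm_apply_apply] at h1
          have h2 := h1.2.1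
          have e1 : c - 1 - 1 = c - 2 := by ring
          have e2 : d + 2 - d = ((2 : ℕ) : ZMod N) := by push_cast; ring
          rw [e1, hm.a, hm.b, e2, ZMod.val_natCast_of_lt (by omega)] at h2
          omega
        · exact ht
      have n1 : NoStar f' (c - 1) :=
        hns'.noStar (hA _ (by tauto)) (by rw [hm.b]; exact hB _ (by tauto))
      have n2 : NoStar f' (c - 2) :=
        hns'.noStar (hA _ (by tauto)) (by rw [hm.a]; exact hB _ (by tauto))
      have n0 : NoStar f' (c + 1) :=
        hns'.noStar (hA _ (by tauto)) (by rw [hm.g]; exact hB _ (by tauto))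
      have hrow : ∀ y, (.inr y : ZMod N ⊕ ZMod N) ∈ S' → NoStar f' (f'.symm y) := by
        intro y hy
        have h1 : f'.symm y ≠ c := by
          intro h1
          rw [Equiv.symm_apply_eq] at h1
          rw [h1] at hy
          exact hc hy
        have h2 := h.other _ h1
        rw [Equiv.apply_symm_apply] at h2
        exact hns'.noStar (h2.mpr hy) (by rw [Equiv.apply_symm_apply]; exact hy)
      have hor : (.inr (d + 3) : ZMod N ⊕ ZMod N) ∈ S' ∨
          (.inr (d - 1) : ZMod N ⊕ ZMod N) ∈ S' := by
        by_contra hcon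
        push Not at hcon
        obtain ⟨g1, g2⟩ := hcon
        have g3 := hB d (Or.inl rfl)
        rw [h.memB] at g1 g2 g3
        have hne : d - d0 ≠ 0 := by
          intro h0
          rw [h0, ZMod.val_zero] at g3
          omega
        have e1 : d - 1 - d0 = (d - d0) - 1 := by ring
        rw [e1, val_sub_one (by omega), if_neg hne] at g2
        have e2 : d + 3 - d0 = (((d - d0).val + 3 : ℕ) : ZMod N) := by
          push_cast
          rw [ZMod.natCast_zmod_val]
          ring
        rw [e2, ZMod.val_natCast_of_lt (by omega)] at g1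
        omega
      rcases hor with hor | hor
      · refine hw1 f' c d hb' hm ?_ n1 n2 (hrow _ hor)
        have h1 := (hTP _ hor).2.1
        rw [Equiv.apply_symm_apply] at h1
        exact h1
      · refine hw1' f' c d hb' hm ?_ n0 n1 n2 (hrow _ hor)
        have h1 := (hTP _ hor).1
        rw [Equiv.apply_symm_apply] at h1
        exact h1
    · have hx0 : c ≠ x0 := by
        rintro rfl
        exact h1 (hsub hin)
      exact hc ((h3 c hx0).mp (hsub hin))

end

end Pool.Agent.Helper19.RG
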