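import Pool.Agent.Helper19.RG.M7

/-!
Symmetries which map spokes to spokes. (Problem MP_d067c8_co.)
-/

namespace Pool.Agent.Helper19.RG

open Finset Pool.Agent.Helper19.CF

section

variable {N : ℕ} [NeZero N]

/-- An isomorphism which maps spokes to spokes. -/
structure Sym (f f' : Equiv.Perm (ZMod N)) where
  φ : permGraph N f ≃g permGraph N f'
  sp : ∀ u v, spk f u v ↔ spk f' (φ u) (φ v)

def Sym.refl (f : Equiv.Perm (ZMod N)) : Sym f f := ⟨SimpleGraph.Iso.refl, fun _ _ => Iff.rfl⟩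

def Sym.trans {f f' f'' : Equiv.Perm (ZMod N)} (s : Sym f f') (t : Sym f' f'') : Sym f f'' :=
  ⟨s.φ.trans t.φ, fun u v => (s.sp u v).trans (t.sp _ _)⟩

def Sym.symm {f f' : Equiv.Perm (ZMod N)} (s : Sym f f') : Sym f' f :=
  ⟨s.φ.symm, fun u v => by
    rw [s.sp (s.φ.symm u) (s.φ.symm v), s.φ.apply_symm_apply, s.φ.apply_symm_apply]⟩

def rotSym (hN : 1 < N) (f : Equiv.Perm (ZMod N)) : Sym f (rot f) :=
  ⟨rotIso hN f, by
    rintro (u | u) (v | v)
    · exact Iff.rfl
    · show f u = v ↔ rot f v = -u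
      rw [rot_apply, neg_inj, Equiv.symm_apply_eq]
      exact eq_comm
    · show f v = u ↔ rot f u = -v
      rw [rot_apply, neg_inj, Equiv.symm_apply_eq]
      exact eq_comm
    · exact Iff.rfl⟩

def halfSym (hN : 1 < N) (f : Equiv.Perm (ZMod N)) : Sym f (half f) :=
  ⟨halfIso hN f, by
    rintro (u | u) (v | v)
    · exact Iff.rfl
    · show f u = v ↔ half f (-u) = -v
      rw [half_apply, neg_inj, neg_neg]
    · show f v = u ↔ half f (-v) = -u
      rw [half_apply, neg_inj, neg_neg]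
    · exact Iff.rfl⟩

def mirSym (hN : 1 < N) (f : Equiv.Perm (ZMod N)) : Sym f (mir f) :=
  ⟨mirIso hN f, by
    rintro (u | u) (v | v)
    · exact Iff.rfl
    · show f u = v ↔ mir f u = -v
      rw [mir_apply, neg_inj]
    · show f v = u ↔ mir f v = -u
      rw [mir_apply, neg_inj]
    · exact Iff.rfl⟩

variable {f f' : Equiv.Perm (ZMod N)} {S : Finset (ZMod N ⊕ ZMod N)}

/-- The set is crossed by no nontrivial 5-edge-cut in a spoke with both ends in the set. -/
def Inner (f : Equiv.Perm (ZMod N)) (S : Finset (ZMod N ⊕ ZMod N)) (x : ZMod N) : Prop :=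
  (.inl x : ZMod N ⊕ ZMod N) ∈ S ∧ (.inr (f x) : ZMod N ⊕ ZMod N) ∈ S

/-- An inclusion-minimal side with at least nine vertices. -/
structure Min9 (f : Equiv.Perm (ZMod N)) (S : Finset (ZMod N ⊕ ZMod N)) : Prop where
  side : Side f S
  nine : 9 ≤ S.card
  min : ∀ X ⊆ S, Side f X → 9 ≤ X.card → X = S

theorem Min9.im (φ : permGraph N f ≃g permGraph N f') (h : Min9 f S) : Min9 f' (im φ S) := by
  have hback : ∀ X, RG.im φ (RG.im φ.symm X) = X := by
    intro X
    ext v
    rw [mem_im', mem_im']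
    show φ (φ.symm v) ∈ X ↔ v ∈ X
    rw [φ.apply_symm_apply]
  have hc : ∀ {g g' : Equiv.Perm (ZMod N)} (ψ : permGraph N g ≃g permGraph N g')
      (X : Finset (ZMod N ⊕ ZMod N)), (RG.im ψ X).card = X.card := fun ψ X => card_map _
  refine ⟨h.side.im φ, by rw [hc]; exact h.nine, ?_⟩
  intro X hX hs h9
  have h1 : RG.im φ.symm X ⊆ S := by
    intro v hv
    rw [mem_im'] at hv
    have := hX hv
    rw [mem_im'] at this
    have h2 : φ.symm (φ.symm.symm v) = v := φ.symm.apply_symm_apply v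
    rwa [h2] at this
  have h2 := h.min _ h1 (hs.im φ.symm) (by rw [hc]; exact h9)
  rw [← h2, hback]

/-- A free seven-vertex side in the frame: its star spoke and its spokes `b`, `g` are inner. -/
structure Free (f : Equiv.Perm (ZMod N)) (S : Finset (ZMod N ⊕ ZMod N)) (c d : ZMod N) :
    Prop where
  m : M7 f c d
  e : Inner f S c
  b : Inner f S (c - 1)
  g : Inner f S (c + 1)

end

end Pool.Agent.Helper19.RG
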