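import Pool.Agent.Helper19.RG.Fstate
import Pool.Agent.Helper19.RG.Cuts
import Pool.Agent.Helper19.TT.FlowPart

/-!
Tight 5-edge-cuts of near-perfect matchings of cycle permutation graphs: both sides contain a
rim edge of the matching.  (Problem MP_d067c8_co.)
-/

namespace Pool.Agent.Helper19.RG

open Finset Pool.Agent.Helper19.CF

section cyc

variable {N : ℕ} [NeZero N]

theorem inner_sum (hN : 2 < N) (P : ZMod N → Prop) [DecidablePred P] (x : ZMod N) :
    (∑ y, if (y = x + 1 ∨ x = y + 1) ∧ P x ∧ ¬ P y then 1 else 0) =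
      (if P x ∧ ¬ P (x + 1) then 1 else 0) + (if P x ∧ ¬ P (x - 1) then 1 else 0) := by
  have hne : x + 1 ≠ x - 1 := by
    intro h
    apply two_ne (N := N) hN
    linear_combination h
  have h1 : ∀ y, (if (y = x + 1 ∨ x = y + 1) ∧ P x ∧ ¬ P y then 1 else 0) =
      (if y = x + 1 then (if P x ∧ ¬ P (x + 1) then 1 else 0) else 0) +
      (if y = x - 1 then (if P x ∧ ¬ P (x - 1) then 1 else 0) else 0) := by
    intro y
    have h2 : x = y + 1 ↔ y = x - 1 := by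
      constructor
      · intro h; rw [h]; ring
      · intro h; rw [h]; ring
    by_cases h3 : y = x + 1
    · subst h3
      simp [hne]
    · by_cases h4 : y = x - 1
      · subst h4
        have h5 : x - 1 ≠ x + 1 := h3
        simp [h5]
      · simp only [h3, h4, h2, false_or, false_and, if_false, add_zero]
  rw [sum_congr rfl fun y _ => h1 y, sum_add_distrib]
  simp

theorem rim_sum (hN : 2 < N) (P : ZMod N → Prop) [DecidablePred P] (c : ZMod N → ℤ) (κ : ℤ)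
    (h1 : ∀ x, P x → P (x + 1) → c (x + 1) = - c x)
    (h2 : ∀ x, P x → ¬ P (x + 1) → c x = κ) (h3 : ∀ x, ¬ P x → P (x + 1) → c (x + 1) = κ) :
    2 * ∑ x, (if P x then c x else 0) =
      κ * ((∑ x, ∑ y, if (y = x + 1 ∨ x = y + 1) ∧ P x ∧ ¬ P y then 1 else 0 : ℕ) : ℤ) := by
  have e1 : ∑ x, (if P x then c x else 0) = ∑ x : ZMod N, (if P (x + 1) then c (x + 1) else 0) :=
    (Equiv.sum_comp (Equiv.addRight (1 : ZMod N)) fun x => if P x then c x else 0).symm
  have e2 : 2 * ∑ x, (if P x then c x else 0) =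
      ∑ x : ZMod N, ((if P x then c x else 0) + (if P (x + 1) then c (x + 1) else 0)) := by
    rw [sum_add_distrib, ← e1]
    ring
  have e3 : (∑ x : ZMod N, if P x ∧ ¬ P (x - 1) then 1 else 0) =
      ∑ x : ZMod N, if P (x + 1) ∧ ¬ P x then 1 else 0 := by
    rw [← Equiv.sum_comp (Equiv.addRight (1 : ZMod N))]
    refine sum_congr rfl fun x _ => ?_
    simp
  have e4 : (∑ x, ∑ y, if (y = x + 1 ∨ x = y + 1) ∧ P x ∧ ¬ P y then 1 else 0) =
      ∑ x : ZMod N, ((if P x ∧ ¬ P (x + 1) then 1 else 0) +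
        (if P (x + 1) ∧ ¬ P x then 1 else 0)) := by
    rw [sum_congr rfl fun x _ => inner_sum hN P x, sum_add_distrib, e3, ← sum_add_distrib]
  rw [e2, e4, Nat.cast_sum, mul_sum]
  refine sum_congr rfl fun x _ => ?_
  by_cases hx : P x <;> by_cases hx1 : P (x + 1)
  · simp [hx, hx1, h1 x hx hx1]
  · simp [hx, hx1, h2 x hx hx1]
  · simp [hx, hx1, h3 x hx hx1]
  · simp [hx, hx1]

end cyc

variable {N : ℕ} [NeZero N] {f : Equiv.Perm (ZMod N)}

/-- The number of edges of the rims leaving `Y`. -/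
def la (Y : Finset (ZMod N ⊕ ZMod N)) : ℕ :=
  ∑ x : ZMod N, ∑ y : ZMod N, if (y = x + 1 ∨ x = y + 1) ∧
    (.inl x : ZMod N ⊕ ZMod N) ∈ Y ∧ ¬ (.inl y : ZMod N ⊕ ZMod N) ∈ Y then 1 else 0
def ra (Y : Finset (ZMod N ⊕ ZMod N)) : ℕ :=
  ∑ x : ZMod N, ∑ y : ZMod N, if (y = x + 1 ∨ x = y + 1) ∧
    (.inr x : ZMod N ⊕ ZMod N) ∈ Y ∧ ¬ (.inr y : ZMod N ⊕ ZMod N) ∈ Y then 1 else 0

/-- The shape of the 5-edge-cuts. -/
theorem shape (hN : 5 < N) [DecidableRel (permGraph N f).Adj]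
    {Y : Finset (ZMod N ⊕ ZMod N)} (h5 : dd (permGraph N f) Y = 5) (h10 : 4 ≤ Y.card)
    (h11 : 4 ≤ Yᶜ.card) : la Y = 2 ∧ ra Y = 2 ∧ ns f Y = 1 := by
  have hreg : ∀ v, (permGraph N f).degree v = 3 := permGraph_regular (by omega)
  have h4 := dd_perm (f := f) (by omega) Y
  rw [h5] at h4
  have h6 := card_eq_nl_nr Y
  have h7 := nl_le Y
  have h8 := nr_le Y
  have h9 := nl_le_add (f := f) Y
  have hp := parity (permGraph N f) hreg Y
  rw [h5] at hp
  have h12 : Y.card + Yᶜ.card = 2 * N := by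
    rw [card_add_card_compl, Fintype.card_sum, ZMod.card]
    ring
  have hla : la Y = ∑ x : ZMod N, ∑ y : ZMod N, if (y = x + 1 ∨ x = y + 1) ∧
        (.inl x : ZMod N ⊕ ZMod N) ∈ Y ∧ ¬ (.inl y : ZMod N ⊕ ZMod N) ∈ Y then 1 else 0 := rfl
  have hra : ra Y = ∑ x : ZMod N, ∑ y : ZMod N, if (y = x + 1 ∨ x = y + 1) ∧
        (.inr x : ZMod N ⊕ ZMod N) ∈ Y ∧ ¬ (.inr y : ZMod N ⊕ ZMod N) ∈ Y then 1 else 0 := rfl
  rw [← hla, ← hra] at h4
  have h13 : nl Y = 0 ∨ nl Y = N ∨ 2 ≤ la Y := by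
    rcases nl_cases Y with h | h | ⟨a, c, ha, hc⟩
    · exact Or.inl h
    · exact Or.inr (Or.inl h)
    · exact Or.inr (Or.inr (two_le_rim (by omega) (fun x => (.inl x : ZMod N ⊕ ZMod N) ∈ Y)
        ha hc))
  have h14 : nr Y = 0 ∨ nr Y = N ∨ 2 ≤ ra Y := by
    rcases nr_cases Y with h | h | ⟨a, c, ha, hc⟩
    · exact Or.inl h
    · exact Or.inr (Or.inl h)
    · exact Or.inr (Or.inr (two_le_rim (by omega) (fun x => (.inr x : ZMod N ⊕ ZMod N) ∈ Y)
        ha hc))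
  rcases h13 with h13 | h13 | h13 <;> rcases h14 with h14 | h14 | h14 <;> omega

theorem sum_split (b : ZMod N ⊕ ZMod N → ℤ) (Y : Finset (ZMod N ⊕ ZMod N)) :
    ∑ v ∈ Y, b v = (∑ x : ZMod N, if (.inl x : ZMod N ⊕ ZMod N) ∈ Y then b (.inl x) else 0) +
      ∑ x : ZMod N, if (.inr x : ZMod N ⊕ ZMod N) ∈ Y then b (.inr x) else 0 := by
  have h1 : ∑ v ∈ Y, b v = ∑ v : ZMod N ⊕ ZMod N, if v ∈ Y then b v else 0 := by
    rw [← sum_filter]
    congr 1
    ext v
    simp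
  rw [h1, Fintype.sum_sum_type]

/-- A side of a tight 5-edge-cut contains a rim edge of the matching. -/
theorem jump (hN : 5 < N) [DecidableRel (permGraph N f).Adj]
    {Z : ZMod N ⊕ ZMod N → ZMod N ⊕ ZMod N → Prop} {b : ZMod N ⊕ ZMod N → ℤ}
    (hbip : ∀ u v, (permGraph N f).Adj u v → ¬ Z u v → b v = - b u)
    {S : Finset (ZMod N ⊕ ZMod N)} (h5 : dd (permGraph N f) S = 5) (h10 : 4 ≤ S.card)
    (h11 : 4 ≤ Sᶜ.card) {κ : ℤ} (hκ : κ ≠ 0)
    (hout : ∀ u ∈ S, ∀ v ∉ S, (permGraph N f).Adj u v → b u = κ)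
    (hsum : ∑ v ∈ S, b v = 3 * κ) :
    ∃ x, (Z (.inl x) (.inl (x + 1)) ∧ (.inl x : ZMod N ⊕ ZMod N) ∈ S) ∨
      (Z (.inr x) (.inr (x + 1)) ∧ (.inr x : ZMod N ⊕ ZMod N) ∈ S) := by
  by_contra hcon
  push Not at hcon
  obtain ⟨s1, s2, -⟩ := shape hN h5 h10 h11
  have hl : ∀ x : ZMod N, (permGraph N f).Adj (.inl x) (.inl (x + 1)) := fun x =>
    (adj_ll (by omega) _ _).mpr (Or.inl rfl)
  have hr : ∀ x : ZMod N, (permGraph N f).Adj (.inr x) (.inr (x + 1)) := fun x =>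
    (adj_rr (by omega) _ _).mpr (Or.inl rfl)
  have e1 := rim_sum (N := N) (by omega) (fun x => (.inl x : ZMod N ⊕ ZMod N) ∈ S)
    (fun x => b (.inl x)) κ
    (fun x hx _ => hbip _ _ (hl x) fun hz => (hcon x).1 hz hx)
    (fun x hx hx1 => hout _ hx _ hx1 (hl x))
    (fun x hx hx1 => hout _ hx1 _ hx (hl x).symm)
  have e2 := rim_sum (N := N) (by omega) (fun x => (.inr x : ZMod N ⊕ ZMod N) ∈ S)
    (fun x => b (.inr x)) κ
    (fun x hx _ => hbip _ _ (hr x) fun hz => (hcon x).2 hz hx)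
    (fun x hx hx1 => hout _ hx _ hx1 (hr x))
    (fun x hx hx1 => hout _ hx1 _ hx (hr x).symm)
  have e3 := sum_split b S
  unfold la at s1
  unfold ra at s2
  rw [s1] at e1
  rw [s2] at e2
  rw [hsum] at e3
  apply hκ
  push_cast at e1 e2
  linarith

variable {Z : ZMod N ⊕ ZMod N → ZMod N ⊕ ZMod N → Prop} {s t : ZMod N ⊕ ZMod N}
  {b : ZMod N ⊕ ZMod N → ℤ}

theorem closed_card [DecidableRel (permGraph N f).Adj] (hN : 5 < N)
    (hD : NearData (permGraph N f) Z s t b) {Y : Finset (ZMod N ⊕ ZMod N)}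
    (hY : Closed (permGraph N f) Z s t b Y) : 4 ≤ Y.card ∧ 4 ≤ Yᶜ.card := by
  classical
  have hreg : ∀ v, (permGraph N f).degree v = 3 := permGraph_regular (by omega)
  have h10 : 4 ≤ Y.card := by
    have g2 : insert t ((permGraph N f).neighborFinset t) ⊆ Y := by
      intro v hv
      rcases mem_insert.mp hv with rfl | hv
      · exact hY.t_mem
      · exact hY.nbr_t hreg hD ((SimpleGraph.mem_neighborFinset _ _ _).mp hv)
    have g3 := card_le_card g2
    rw [card_insert_of_notMem, SimpleGraph.card_neighborFinset_eq_degree, hreg] at g3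
    · exact g3
    · simp
  have h11 : 4 ≤ Yᶜ.card := by
    have g2 : insert s ((permGraph N f).neighborFinset s) ⊆ Yᶜ := by
      intro v hv
      rcases mem_insert.mp hv with rfl | hv
      · exact mem_compl.mpr hY.s_notMem
      · exact mem_compl.mpr (hY.nbr_s hD ((SimpleGraph.mem_neighborFinset _ _ _).mp hv))
    have g3 := card_le_card g2
    rw [card_insert_of_notMem, SimpleGraph.card_neighborFinset_eq_degree, hreg] at g3
    · exact g3
    · simp
  exact ⟨h10, h11⟩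

/-- Both sides of a tight 5-edge-cut contain a rim edge of the matching. -/
theorem jump_both [DecidableRel (permGraph N f).Adj] (hN : 5 < N)
    (hD : NearData (permGraph N f) Z s t b) {Y : Finset (ZMod N ⊕ ZMod N)}
    (hY : Closed (permGraph N f) Z s t b Y) (h5 : dd (permGraph N f) Y = 5) :
    (∃ x, (Z (.inl x) (.inl (x + 1)) ∧ (.inl x : ZMod N ⊕ ZMod N) ∈ Y) ∨
      (Z (.inr x) (.inr (x + 1)) ∧ (.inr x : ZMod N ⊕ ZMod N) ∈ Y)) ∧
    (∃ x, (Z (.inl x) (.inl (x + 1)) ∧ (.inl x : ZMod N ⊕ ZMod N) ∉ Y) ∨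
      (Z (.inr x) (.inr (x + 1)) ∧ (.inr x : ZMod N ⊕ ZMod N) ∉ Y)) := by
  classical
  have hreg : ∀ v, (permGraph N f).degree v = 3 := permGraph_regular (by omega)
  obtain ⟨h10, h11⟩ := closed_card hN hD hY
  have h1 := hY.dd_eq hreg hD
  rw [h5] at h1
  push_cast at h1
  have h2 : ∑ v ∈ Y, b v = 3 := by omega
  have h3 : ∑ v ∈ Y, b v + ∑ v ∈ Yᶜ, b v = 0 := by
    rw [sum_add_sum_compl, (balanced hreg hD).2]
  constructor
  · exact jump hN hD.bip h5 h10 h11 (κ := 1) one_ne_zero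
      (fun u hu v hv huv => (hY.out u hu v hv huv).2) (by rw [h2]; rfl)
  · obtain ⟨x, hx⟩ := jump (f := f) hN hD.bip (S := Yᶜ) (by rw [dd_compl]; exact h5) h11
      (by rw [compl_compl]; exact h10) (κ := -1) (by norm_num)
      (fun u hu v hv huv => by
        rw [mem_compl] at hu
        rw [notMem_compl] at hv
        obtain ⟨g1, g2⟩ := hY.out v hv u hu huv.symm
        rw [hD.bip v u huv.symm g1, g2]) (by omega)
    refine ⟨x, ?_⟩
    rcases hx with ⟨g1, g2⟩ | ⟨g1, g2⟩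
    · exact Or.inl ⟨g1, mem_compl.mp g2⟩
    · exact Or.inr ⟨g1, mem_compl.mp g2⟩

/-- No tight 5-edge-cut has a side with five vertices. -/
theorem not_thin [DecidableRel (permGraph N f).Adj] (hN : 5 < N)
    (hcyc : CyclicallyEdgeConnected (permGraph N f) 5)
    (hD : NearData (permGraph N f) Z s t b) {Y : Finset (ZMod N ⊕ ZMod N)}
    (hY : Closed (permGraph N f) Z s t b Y) (h5 : dd (permGraph N f) Y = 5) :
    7 ≤ Y.card ∧ 7 ≤ Yᶜ.card := by
  classical
  have hreg : ∀ v, (permGraph N f).degree v = 3 := permGraph_regular (by omega)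
  obtain ⟨h10, h11⟩ := closed_card hN hD hY
  obtain ⟨h1, h2⟩ := hY.cycles hreg hD (by omega)
  have hp := parity (permGraph N f) hreg Y
  have hp' := parity (permGraph N f) hreg Yᶜ
  rw [dd_compl] at hp'
  have hcompl : HasCycleIn (permGraph N f) ((Yᶜ : Finset (ZMod N ⊕ ZMod N)) : Set _)ᶜ := by
    rw [coe_compl, compl_compl]
    exact h1
  constructor
  · by_contra hcon
    have h6 : Y.card = 5 := by omega
    obtain ⟨x, hx, y, hy, g1, g2, g3⟩ := TT.tri (permGraph N f) hD.symm hD.adj hY.t_mem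
      (fun v hv => hY.nbr_t hreg hD hv) hD.notT
      (fun v hv hvt => hD.one v (fun h => hY.s_notMem (h ▸ hv)) hvt)
      (fun v hv w hvw => by
        by_contra hw
        exact (hY.out v hv w hw (hD.adj _ _ hvw)).1 hvw) h6 (hreg t)
    exact TT.no_tri (permGraph N f) hreg hcyc h2 hY.t_mem hx hy g1 g2 g3
  · by_contra hcon
    have h6 : Yᶜ.card = 5 := by omega
    obtain ⟨x, hx, y, hy, g1, g2, g3⟩ := TT.tri (permGraph N f) hD.symm hD.adj
      (mem_compl.mpr hY.s_notMem)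
      (fun v hv => mem_compl.mpr (hY.nbr_s hD hv)) hD.notS
      (fun v hv hvt => hD.one v hvt (fun h => mem_compl.mp hv (h ▸ hY.t_mem)))
      (fun v hv w hvw => by
        rw [mem_compl] at hv ⊢
        intro hw
        exact (hY.out w hw v hv (hD.adj _ _ hvw).symm).1 (hD.symm _ _ hvw)) h6 (hreg s)
    exact TT.no_tri (permGraph N f) hreg hcyc hcompl (mem_compl.mpr hY.s_notMem) hx hy g1 g2 g3

/-- If no tight 5-edge-cut crosses `M` and all rim edges of the matching meet `M`, there is a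
flow. -/
theorem flow_touch (hN : 5 < N) (hcyc : CyclicallyEdgeConnected (permGraph N f) 5)
    (hD : NearData (permGraph N f) Z s t b) (M : Finset (ZMod N ⊕ ZMod N))
    (hM : ∀ Y : Finset (ZMod N ⊕ ZMod N), [DecidableRel (permGraph N f).Adj] →
      dd (permGraph N f) Y = 5 → 7 ≤ Y.card → 7 ≤ Yᶜ.card → M ⊆ Y ∨ M ⊆ Yᶜ)
    (hA : ∀ x, Z (.inl x) (.inl (x + 1)) → (.inl x : ZMod N ⊕ ZMod N) ∈ M ∨
      (.inl (x + 1) : ZMod N ⊕ ZMod N) ∈ M)
    (hB : ∀ x, Z (.inr x) (.inr (x + 1)) → (.inr x : ZMod N ⊕ ZMod N) ∈ M ∨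
      (.inr (x + 1) : ZMod N ⊕ ZMod N) ∈ M) : HasFlow (permGraph N f) (9 / 2) := by
  classical
  have hreg : ∀ v, (permGraph N f).degree v = 3 := permGraph_regular (by omega)
  refine hasFlow_nine_halves hreg hD ?_
  intro Y hY h1 h2
  have h3 := hcyc _ h1 h2
  rw [cutSize_coe] at h3
  refine ⟨by omega, fun h5 => ?_⟩
  obtain ⟨h7, h7'⟩ := not_thin hN hcyc hD hY h5
  obtain ⟨⟨x, hx⟩, ⟨y, hy⟩⟩ := jump_both hN hD hY h5
  have hin : ∀ u v, Z u v → u ∈ Y → v ∈ Y := by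
    intro u v hz hu
    by_contra hv
    exact (hY.out u hu v hv (hD.adj _ _ hz)).1 hz
  rcases hM Y h5 h7 h7' with hMY | hMY
  · rcases hy with ⟨g1, g2⟩ | ⟨g1, g2⟩
    · rcases hA y g1 with g3 | g3
      · exact g2 (hMY g3)
      · exact g2 (hin _ _ (hD.symm _ _ g1) (hMY g3))
    · rcases hB y g1 with g3 | g3
      · exact g2 (hMY g3)
      · exact g2 (hin _ _ (hD.symm _ _ g1) (hMY g3))
  · rcases hx with ⟨g1, g2⟩ | ⟨g1, g2⟩
    · rcases hA x g1 with g3 | g3
      · exact mem_compl.mp (hMY g3) g2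
      · exact mem_compl.mp (hMY g3) (hin _ _ g1 g2)
    · rcases hB x g1 with g3 | g3
      · exact mem_compl.mp (hMY g3) g2
      · exact mem_compl.mp (hMY g3) (hin _ _ g1 g2)

/-- A minimal nontrivial side is not crossed by nontrivial 5-edge-cuts, if no side has seven
vertices. -/
theorem uncrossed {V : Type*} [Fintype V] [DecidableEq V] (G : SimpleGraph V)
    [DecidableRel G.Adj] (hreg : ∀ v, G.degree v = 3) (hcyc : CyclicallyEdgeConnected G 5)
    {M : Finset V} (hM : dd G M = 5) (hM7 : 9 ≤ M.card) (hM7' : 7 ≤ Mᶜ.card)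
    (hmin : ∀ X ⊆ M, dd G X = 5 → 7 ≤ X.card → X = M)
    (hno : ∀ X : Finset V, dd G X = 5 → X.card ≠ 7)
    {Y : Finset V} (hY : dd G Y = 5) (hY7 : 7 ≤ Y.card) (hY7' : 7 ≤ Yᶜ.card) :
    M ⊆ Y ∨ M ⊆ Yᶜ := by
  have hYc : dd G Yᶜ = 5 := by rw [dd_compl]; exact hY
  have pM := parity G hreg M
  have c1 : (M ∩ Y).card + (M \ Y).card = M.card := card_inter_add_card_sdiff M Y
  have c2 : M ∩ Yᶜ = M \ Y := by
    ext x
    simp
  rcases Nat.mod_two_eq_zero_or_one (M ∩ Y).card with h | h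
  · rcases uncross G hreg hcyc M Yᶜ hM hYc (by omega) hM7' hY7' (by rw [compl_compl]; exact hY7)
      hmin (by rw [c2]; omega) with h1 | ⟨h1, h2, -⟩
    · exact Or.inr h1
    · exfalso
      have c3 : (M ∩ Yᶜ).card + (M \ Yᶜ).card = M.card := card_inter_add_card_sdiff M Yᶜ
      have c4 : (Yᶜ ∩ M).card + (Yᶜ \ M).card = Yᶜ.card := card_inter_add_card_sdiff Yᶜ M
      rw [inter_comm] at c4
      have h3 := hno Yᶜ hYc
      omega
  · rcases uncross G hreg hcyc M Y hM hY (by omega) hM7' hY7 hY7' hmin h with h1 | ⟨h1, h2, -⟩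
    · exact Or.inl h1
    · exfalso
      have c4 : (Y ∩ M).card + (Y \ M).card = Y.card := card_inter_add_card_sdiff Y M
      rw [inter_comm] at c4
      have h3 := hno Y hY
      omega

end Pool.Agent.Helper19.RG
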