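import Pool.Agent.Helper19.RG.Near
import Pool.Agent.Helper19.RG.Arc

/-!
Words with one monochromatic edge on each rim, and the 5-edge-cuts killing them.
(Problem MP_d067c8_co.)
-/

namespace Pool.Agent.Helper19.RG

open Finset Pool.Agent.Helper19.CF

section par

variable {N : ℕ} [NeZero N]

/-- Parities along a rim of odd length. -/
theorem val_sub_one (hN : 1 < N) (x : ZMod N) :
    (x - 1).val = if x = 0 then N - 1 else x.val - 1 := by
  split_ifs with h
  · rw [h, zero_sub]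
    exact val_neg_one' hN
  · have h1 : x - 1 ≠ -1 := fun h2 => h (by linear_combination h2)
    have h3 := val_succ (x - 1) h1
    rw [sub_add_cancel] at h3
    omega

theorem mono_iff (hN : 1 < N) (hodd : N % 2 = 1) (p x : ZMod N) :
    ((x - p - 1).val + (x + 1 - p - 1).val) % 2 = 0 ↔ x = p := by
  have h1 : x + 1 - p - 1 = x - p := by ring
  rw [h1, val_sub_one hN]
  constructor
  · intro h
    by_contra h2
    rw [if_neg (sub_ne_zero.mpr h2)] at h
    have h3 : (x - p).val ≠ 0 := by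
      rw [Ne, ZMod.val_eq_zero, sub_eq_zero]
      exact h2
    omega
  · intro h
    rw [if_pos (by rw [h, sub_self]), h, sub_self, ZMod.val_zero]
    omega

end par

/-- The condition on the spokes of a word. -/
structure Wd {N : ℕ} (σ : Equiv.Perm (ZMod N)) (a b : ℤ) (q : ℤ → ZMod N) (p r : ZMod N)
    (ip ir : ℤ) : Prop where
  inj : ∀ i i', a ≤ i → i ≤ b → a ≤ i' → i' ≤ b → q i = q i' → i = i'
  adjA : ∀ i, a ≤ i → i + 1 ≤ b → i % 2 = 0 → q (i + 1) = q i + 1 ∨ q i = q (i + 1) + 1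
  adjB : ∀ i, a ≤ i → i + 1 ≤ b → i % 2 = 1 →
    σ (q (i + 1)) = σ (q i) + 1 ∨ σ (q i) = σ (q (i + 1)) + 1
  hp1 : a ≤ ip
  hp2 : ip + 1 ≤ b
  hp3 : ip % 2 = 0
  hp : (q ip = p ∧ q (ip + 1) = p + 1) ∨ (q ip = p + 1 ∧ q (ip + 1) = p)
  hr1 : a ≤ ir
  hr2 : ir + 1 ≤ b
  hr3 : ir % 2 = 1
  hr : (σ (q ir) = r ∧ σ (q (ir + 1)) = r + 1) ∨ (σ (q ir) = r + 1 ∧ σ (q (ir + 1)) = r)
  col : ∃ e : ℕ, ∀ i, a ≤ i → i ≤ b →
    ((q i - p - 1).val + (σ (q i) - r - 1).val) % 2 = e % 2

/-- The colours. -/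
def wA {N : ℕ} (p : ZMod N) (x : ZMod N) : Bool := decide ((x - p - 1).val % 2 = 0)

def wB {N : ℕ} (r : ZMod N) (e : ℕ) (y : ZMod N) : Bool :=
  decide (((y - r - 1).val + e + 1) % 2 = 0)

section

variable {N : ℕ} [NeZero N] {σ : Equiv.Perm (ZMod N)} {a b : ℤ} {q : ℤ → ZMod N}
  {p r : ZMod N} {ip ir : ℤ}

theorem wA_mono (hN : 1 < N) (hodd : N % 2 = 1) (x : ZMod N) :
    wA p x = wA p (x + 1) ↔ x = p := by
  rw [← mono_iff hN hodd p x]
  unfold wA
  rw [decide_eq_decide]
  omega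

theorem wB_mono (hN : 1 < N) (hodd : N % 2 = 1) (e : ℕ) (x : ZMod N) :
    wB r e x = wB r e (x + 1) ↔ x = r := by
  rw [← mono_iff hN hodd r x]
  unfold wB
  rw [decide_eq_decide]
  omega

theorem Wd.qz (hN : 1 < N) (hodd : N % 2 = 1) (h : Wd σ a b q p r ip ir) :
    ∃ e : ℕ, QZ σ a b q (wA p) (wB r e) := by
  obtain ⟨e, he⟩ := h.col
  refine ⟨e, ?_⟩
  constructor
  · have := h.hp1
    have := h.hp2
    omega
  · exact h.inj
  · exact h.adjA
  · exact h.adjB
  · intro i h1 h2
    have h3 := he i h1 h2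
    unfold wA wB
    rw [Ne, decide_eq_decide]
    omega
  · intro x hx
    rw [wA_mono hN hodd] at hx
    subst hx
    exact ⟨ip, h.hp1, h.hp2, h.hp3, h.hp⟩
  · intro x hx
    rw [wB_mono hN hodd] at hx
    subst hx
    exact ⟨ir, h.hr1, h.hr2, h.hr3, h.hr⟩

end

/-- A side of a nontrivial 5-edge-cut. -/
structure Side {N : ℕ} (f : Equiv.Perm (ZMod N)) (Y : Finset (ZMod N ⊕ ZMod N)) [NeZero N] :
    Prop where
  cut : cutSize (permGraph N f) (Y : Set (ZMod N ⊕ ZMod N)) = 5
  seven : 7 ≤ Y.card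
  seven' : 7 ≤ Yᶜ.card

section side

variable {N : ℕ} [NeZero N] {f : Equiv.Perm (ZMod N)} {Y : Finset (ZMod N ⊕ ZMod N)}

theorem Side.dd [DecidableRel (permGraph N f).Adj] (h : Side f Y) :
    dd (permGraph N f) Y = 5 := by
  rw [← cutSize_coe]
  exact h.cut

theorem Side.compl (h : Side f Y) : Side f Yᶜ := by
  classical
  refine ⟨?_, h.seven', by rw [compl_compl]; exact h.seven⟩
  rw [cutSize_coe, dd_compl]
  exact h.dd

/-- The numbers of vertices of the two rims. -/
def nA (Y : Finset (ZMod N ⊕ ZMod N)) : ℕ :=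
  (univ.filter fun x : ZMod N => (.inl x : ZMod N ⊕ ZMod N) ∈ Y).card
def nB (Y : Finset (ZMod N ⊕ ZMod N)) : ℕ :=
  (univ.filter fun x : ZMod N => (.inr x : ZMod N ⊕ ZMod N) ∈ Y).card

/-- Parity of a rim part without a monochromatic edge. -/
theorem rim_odd (hN : 2 < N) (P : ZMod N → Prop) [DecidablePred P] (c : ZMod N → ℤ)
    {κ : ℤ} (hκ : κ = 1 ∨ κ = -1) (hc : ∀ x, c x = 1 ∨ c x = -1)
    (h1 : ∀ x, P x → P (x + 1) → c (x + 1) ≠ c x)
    (h2 : ∀ x, P x → ¬ P (x + 1) → c x = κ) (h3 : ∀ x, ¬ P x → P (x + 1) → c (x + 1) = κ)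
    (h4 : (∑ x, ∑ y, if (y = x + 1 ∨ x = y + 1) ∧ P x ∧ ¬ P y then 1 else 0) = 2) :
    (univ.filter P).card % 2 = 1 := by
  have h5 := rim_sum hN P c κ (fun x g1 g2 => by
    have h := h1 x g1 g2
    rcases hc x with g | g <;> rcases hc (x + 1) with g' | g' <;> omega)
    h2 h3
  rw [h4] at h5
  push_cast at h5
  have h6 : (∑ x, (if P x then c x else 0) - (univ.filter P).card) % 2 = 0 := by
    have h7 : ∀ s : Finset (ZMod N), (∑ x ∈ s, (if P x then c x else 0) -
        ((s.filter P).card : ℤ)) % 2 = 0 := by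
      intro s
      induction s using Finset.induction_on with
      | empty => simp
      | insert x s hx ih =>
        rw [sum_insert hx, filter_insert]
        split_ifs with hP
        · rw [card_insert_of_notMem (by simp [hx])]
          push_cast
          rcases hc x with h | h <;> rw [h] <;> omega
        · omega
    exact h7 univ
  rcases hκ with h | h <;> rw [h] at h5 <;> omega

/-- The entry and the exit of the `i`-th spoke. -/
def ent (f : Equiv.Perm (ZMod N)) (q : ℤ → ZMod N) (i : ℤ) : ZMod N ⊕ ZMod N :=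
  if i % 2 = 0 then .inr (f (q i)) else .inl (q i)
def ext (f : Equiv.Perm (ZMod N)) (q : ℤ → ZMod N) (i : ℤ) : ZMod N ⊕ ZMod N :=
  if i % 2 = 0 then .inl (q i) else .inr (f (q i))

variable {a b : ℤ} {q : ℤ → ZMod N} {p r : ZMod N} {ip ir : ℤ}

/-- What a killing cut of a word looks like. -/
structure Kill (f : Equiv.Perm (ZMod N)) (a b : ℤ) (q : ℤ → ZMod N) (p r : ZMod N)
    (ip ir : ℤ) (e : ℕ) (Y : Finset (ZMod N ⊕ ZMod N)) (k : ℤ) : Prop where
  side : Side f Y
  ak : a ≤ k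
  kb : k ≤ b
  between : (ip < k ∧ k ≤ ir) ∨ (ir < k ∧ k ≤ ip)
  other : ∀ x, x ≠ q k → ((.inl x : ZMod N ⊕ ZMod N) ∈ Y ↔ (.inr (f x) : ZMod N ⊕ ZMod N) ∈ Y)
  entIn : ∀ i, a ≤ i → i ≤ k → ent f q i ∈ Y
  exIn : ∀ i, a ≤ i → i < k → ext f q i ∈ Y
  entOut : ∀ i, k < i → i ≤ b → ent f q i ∉ Y
  exOut : ∀ i, k ≤ i → i ≤ b → ext f q i ∉ Y
  parA : nA Y % 2 = 1 ↔ k ≤ ip
  parB : nB Y % 2 = 1 ↔ k ≤ ir
  heavy : (k % 2 = 0 → nB Y = nA Y + 1) ∧ (k % 2 = 1 → nA Y = nB Y + 1)
  bd : ∀ u ∈ Y, ∀ v ∉ Y, (permGraph N f).Adj u v →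
    qC (wA p) (wB r e) u = qC (wA p) (wB r e) (endB f q b)

theorem card_star {x0 : ZMod N}
    (h1 : (.inl x0 : ZMod N ⊕ ZMod N) ∈ Y) (h2 : (.inr (f x0) : ZMod N ⊕ ZMod N) ∉ Y)
    (h3 : ∀ x, x ≠ x0 → ((.inl x : ZMod N ⊕ ZMod N) ∈ Y ↔ (.inr (f x) : ZMod N ⊕ ZMod N) ∈ Y)) :
    nA Y = nB Y + 1 := by
  classical
  have h4 : nB Y = (univ.filter fun x : ZMod N => (.inr (f x) : ZMod N ⊕ ZMod N) ∈ Y).card := by
    unfold nB
    refine (card_bij (fun x _ => f x) ?_ ?_ ?_).symm
    · intro x hx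
      simpa using hx
    · intro x _ y _ h
      exact f.injective h
    · intro y hy
      refine ⟨f.symm y, ?_, by simp⟩
      simpa using hy
  rw [h4]
  unfold nA
  have h5 : (univ.filter fun x : ZMod N => (.inl x : ZMod N ⊕ ZMod N) ∈ Y) =
      insert x0 (univ.filter fun x : ZMod N => (.inr (f x) : ZMod N ⊕ ZMod N) ∈ Y) := by
    ext x
    simp only [mem_filter, mem_univ, true_and, mem_insert]
    by_cases hx : x = x0
    · subst hx
      simp [h1]
    · simp only [hx, false_or]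
      exact h3 x hx
  rw [h5, card_insert_of_notMem]
  simp [h2]

theorem card_star' {x0 : ZMod N}
    (h1 : (.inl x0 : ZMod N ⊕ ZMod N) ∉ Y) (h2 : (.inr (f x0) : ZMod N ⊕ ZMod N) ∈ Y)
    (h3 : ∀ x, x ≠ x0 → ((.inl x : ZMod N ⊕ ZMod N) ∈ Y ↔ (.inr (f x) : ZMod N ⊕ ZMod N) ∈ Y)) :
    nB Y = nA Y + 1 := by
  classical
  have h4 : nB Y = (univ.filter fun x : ZMod N => (.inr (f x) : ZMod N ⊕ ZMod N) ∈ Y).card := by
    unfold nB
    refine (card_bij (fun x _ => f x) ?_ ?_ ?_).symm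
    · intro x hx
      simpa using hx
    · intro x _ y _ h
      exact f.injective h
    · intro y hy
      refine ⟨f.symm y, ?_, by simp⟩
      simpa using hy
  rw [h4]
  unfold nA
  have h5 : (univ.filter fun x : ZMod N => (.inr (f x) : ZMod N ⊕ ZMod N) ∈ Y) =
      insert x0 (univ.filter fun x : ZMod N => (.inl x : ZMod N ⊕ ZMod N) ∈ Y) := by
    ext x
    simp only [mem_filter, mem_univ, true_and, mem_insert]
    by_cases hx : x = x0
    · subst hx
      simp [h2]
    · simp only [hx, false_or]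
      exact (h3 x hx).symm
  rw [h5, card_insert_of_notMem]
  simp [h1]

theorem nA_compl : nA Yᶜ = N - nA Y := by
  classical
  unfold nA
  have h := card_filter_add_card_filter_not (s := (univ : Finset (ZMod N)))
    (fun x : ZMod N => (.inl x : ZMod N ⊕ ZMod N) ∈ Y)
  rw [card_univ, ZMod.card] at h
  simp only [mem_compl]
  omega

theorem nB_compl : nB Yᶜ = N - nB Y := by
  classical
  unfold nB
  have h := card_filter_add_card_filter_not (s := (univ : Finset (ZMod N)))
    (fun x : ZMod N => (.inr x : ZMod N ⊕ ZMod N) ∈ Y)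
  rw [card_univ, ZMod.card] at h
  simp only [mem_compl]
  omega

theorem nA_le : nA Y ≤ N := by
  unfold nA
  refine (card_le_card (filter_subset _ _)).trans ?_
  rw [card_univ, ZMod.card]

theorem nB_le : nB Y ≤ N := by
  unfold nB
  refine (card_le_card (filter_subset _ _)).trans ?_
  rw [card_univ, ZMod.card]

/-- A word is killed by a nontrivial 5-edge-cut, or there is a flow. -/
theorem Wd.kill (hN : 5 < N) (hodd : N % 2 = 1)
    (hcyc : CyclicallyEdgeConnected (permGraph N f) 5)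
    (hno : ¬ HasFlow (permGraph N f) (9 / 2)) (h : Wd f a b q p r ip ir) :
    ∃ (e : ℕ) (Y : Finset (ZMod N ⊕ ZMod N)) (k : ℤ), Kill f a b q p r ip ir e Y k := by
  classical
  obtain ⟨e, hq⟩ := h.qz (by omega) hodd
  have hD := nearData_of_QZ (by omega) hq
  have hreg : ∀ v, (permGraph N f).degree v = 3 := permGraph_regular (by omega)
  refine ⟨e, ?_⟩
  by_contra hcon
  apply hno
  refine hasFlow_nine_halves hreg hD ?_
  intro Y hY h1 h2
  have h3 := hcyc _ h1 h2
  rw [cutSize_coe] at h3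
  refine ⟨by omega, fun h5 => ?_⟩
  apply hcon
  obtain ⟨h7, h7'⟩ := not_thin hN hcyc hD hY h5
  have hside : Side f Y := ⟨by rw [cutSize_coe]; exact h5, h7, h7'⟩
  obtain ⟨s1, s2, s3⟩ := shape hN h5 (by omega) (by omega)
  obtain ⟨x0, hx0, hother⟩ := star s3
  have hab := hq.le
  -- edges of the matching do not cross
  have hZ : ∀ u v, qZ f a b q u v → (u ∈ Y ↔ v ∈ Y) := by
    intro u v hz
    constructor
    · intro hu
      by_contra hv
      exact (hY.out u hu v hv (hD.adj _ _ hz)).1 hz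
    · intro hv
      by_contra hu
      exact (hY.out v hv u hu (hD.adj _ _ hz).symm).1 (hD.symm _ _ hz)
  -- the crossing spoke is in the word
  have hk : ∃ k, a ≤ k ∧ k ≤ b ∧ x0 = q k := by
    by_contra hk
    push Not at hk
    exact hx0 (hZ (.inl x0) (.inr (f x0)) ⟨rfl, hk⟩)
  obtain ⟨k, hak, hkb, rfl⟩ := hk
  refine ⟨Y, k, ?_⟩
  have hsp : ∀ i, a ≤ i → i ≤ b → i ≠ k → (ent f q i ∈ Y ↔ ext f q i ∈ Y) := by
    intro i g1 g2 g3
    have g4 := hother (q i) fun g5 => g3 (hq.inj i k g1 g2 hak hkb g5)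
    unfold ent ext
    split_ifs
    · exact g4.symm
    · exact g4
  have hrim : ∀ i, a ≤ i → i + 1 ≤ b → (ext f q i ∈ Y ↔ ent f q (i + 1) ∈ Y) := by
    intro i g1 g2
    unfold ent ext
    rcases Int.emod_two_eq_zero_or_one i with g3 | g3
    · rw [if_pos g3, if_neg (by omega)]
      apply hZ
      refine ⟨i, g1, by omega, ?_, ?_, rfl, ?_⟩ <;> unfold pa <;> rw [if_pos g3] <;> omega
    · rw [if_neg (by omega), if_pos (by omega)]
      apply hZ
      refine ⟨i, g1, by omega, ?_, ?_, rfl, ?_⟩ <;> unfold pb <;> rw [if_pos g3] <;> omega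
  have hta : ent f q a ∈ Y := by
    have := hY.t_mem
    unfold endA at this
    unfold ent
    exact this
  have hsb : ext f q b ∉ Y := by
    have := hY.s_notMem
    unfold endB at this
    unfold ext
    exact this
  have hentIn : ∀ i, a ≤ i → i ≤ k → ent f q i ∈ Y := by
    intro i hi
    induction i, hi using Int.leInduction with
    | base => exact fun _ => hta
    | succ i hi ih =>
      intro g1
      exact (hrim i hi (by omega)).mp ((hsp i hi (by omega) (by omega)).mp (ih (by omega)))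
  have hexIn : ∀ i, a ≤ i → i < k → ext f q i ∈ Y := fun i g1 g2 =>
    (hsp i g1 (by omega) (by omega)).mp (hentIn i g1 (by omega))
  have hexOut : ∀ i, i ≤ b → k ≤ i → ext f q i ∉ Y := by
    intro i hi
    induction i, hi using Int.leInductionDown with
    | base => exact fun _ => hsb
    | pred i hi ih =>
      intro g1 g2
      have g3 := (hrim (i - 1) (by omega) (by omega)).mp g2
      rw [sub_add_cancel] at g3
      exact ih (by omega) ((hsp i (by omega) hi (by omega)).mp g3)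
  have hentOut : ∀ i, k < i → i ≤ b → ent f q i ∉ Y := fun i g1 g2 g3 =>
    hexOut i g2 (by omega) ((hsp i (by omega) g2 (by omega)).mp g3)
  -- the monochromatic edges
  have hpY : (ip < k → (.inl p : ZMod N ⊕ ZMod N) ∈ Y ∧ (.inl (p + 1) : ZMod N ⊕ ZMod N) ∈ Y) ∧
      (k ≤ ip → (.inl p : ZMod N ⊕ ZMod N) ∉ Y ∧ (.inl (p + 1) : ZMod N ⊕ ZMod N) ∉ Y) := by
    have g1 : ext f q ip = .inl (q ip) := by unfold ext; rw [if_pos h.hp3]
    have g2 : ent f q (ip + 1) = .inl (q (ip + 1)) := by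
      unfold ent
      have := h.hp3
      rw [if_neg (by omega)]
    constructor
    · intro g3
      have g4 := hexIn ip h.hp1 g3
      have g5 := hentIn (ip + 1) (by have := h.hp1; omega) (by omega)
      rw [g1] at g4
      rw [g2] at g5
      rcases h.hp with ⟨g6, g7⟩ | ⟨g6, g7⟩
      · rw [g6] at g4
        rw [g7] at g5
        exact ⟨g4, g5⟩
      · rw [g6] at g4
        rw [g7] at g5
        exact ⟨g5, g4⟩
    · intro g3
      have g4 := hexOut ip (by have := h.hp2; omega) g3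
      have g5 := hentOut (ip + 1) (by omega) h.hp2
      rw [g1] at g4
      rw [g2] at g5
      rcases h.hp with ⟨g6, g7⟩ | ⟨g6, g7⟩
      · rw [g6] at g4
        rw [g7] at g5
        exact ⟨g4, g5⟩
      · rw [g6] at g4
        rw [g7] at g5
        exact ⟨g5, g4⟩
  have hrY : (ir < k → (.inr r : ZMod N ⊕ ZMod N) ∈ Y ∧ (.inr (r + 1) : ZMod N ⊕ ZMod N) ∈ Y) ∧
      (k ≤ ir → (.inr r : ZMod N ⊕ ZMod N) ∉ Y ∧ (.inr (r + 1) : ZMod N ⊕ ZMod N) ∉ Y) := by
    have g1 : ext f q ir = .inr (f (q ir)) := by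
      unfold ext
      have := h.hr3
      rw [if_neg (by omega)]
    have g2 : ent f q (ir + 1) = .inr (f (q (ir + 1))) := by
      unfold ent
      have := h.hr3
      rw [if_pos (by omega)]
    constructor
    · intro g3
      have g4 := hexIn ir h.hr1 g3
      have g5 := hentIn (ir + 1) (by have := h.hr1; omega) (by omega)
      rw [g1] at g4
      rw [g2] at g5
      rcases h.hr with ⟨g6, g7⟩ | ⟨g6, g7⟩
      · rw [g6] at g4
        rw [g7] at g5
        exact ⟨g4, g5⟩
      · rw [g6] at g4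
        rw [g7] at g5
        exact ⟨g5, g4⟩
    · intro g3
      have g4 := hexOut ir (by have := h.hr2; omega) g3
      have g5 := hentOut (ir + 1) (by omega) h.hr2
      rw [g1] at g4
      rw [g2] at g5
      rcases h.hr with ⟨g6, g7⟩ | ⟨g6, g7⟩
      · rw [g6] at g4
        rw [g7] at g5
        exact ⟨g4, g5⟩
      · rw [g6] at g4
        rw [g7] at g5
        exact ⟨g5, g4⟩
  -- parities
  have hb := hD.val
  have hl : ∀ x : ZMod N, (permGraph N f).Adj (.inl x) (.inl (x + 1)) := fun x =>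
    (adj_ll (by omega) _ _).mpr (Or.inl rfl)
  have hr : ∀ x : ZMod N, (permGraph N f).Adj (.inr x) (.inr (x + 1)) := fun x =>
    (adj_rr (by omega) _ _).mpr (Or.inl rfl)
  have hmA : ∀ x : ZMod N, x ≠ p →
      (if qC (wA p) (wB r e) (.inl (x + 1)) = qC (wA p) (wB r e) (endB f q b)
        then (1 : ℤ) else -1) ≠
      (if qC (wA p) (wB r e) (.inl x) = qC (wA p) (wB r e) (endB f q b)
        then (1 : ℤ) else -1) := by
    intro x hx
    have g1 : wA p x ≠ wA p (x + 1) := fun g2 => hx ((wA_mono (by omega) hodd x).mp g2)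
    show (if wA p (x + 1) = _ then (1 : ℤ) else -1) ≠ (if wA p x = _ then (1 : ℤ) else -1)
    revert g1
    cases wA p x <;> cases wA p (x + 1) <;> cases qC (wA p) (wB r e) (endB f q b) <;> simp
  have hmB : ∀ x : ZMod N, x ≠ r →
      (if qC (wA p) (wB r e) (.inr (x + 1)) = qC (wA p) (wB r e) (endB f q b)
        then (1 : ℤ) else -1) ≠
      (if qC (wA p) (wB r e) (.inr x) = qC (wA p) (wB r e) (endB f q b)
        then (1 : ℤ) else -1) := by
    intro x hx
    have g1 : wB r e x ≠ wB r e (x + 1) := fun g2 => hx ((wB_mono (by omega) hodd e x).mp g2)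
    show (if wB r e (x + 1) = _ then (1 : ℤ) else -1) ≠ (if wB r e x = _ then (1 : ℤ) else -1)
    revert g1
    cases wB r e x <;> cases wB r e (x + 1) <;> cases qC (wA p) (wB r e) (endB f q b) <;> simp
  have s1' := s1
  have s2' := s2
  have s1c : la Yᶜ = 2 := by
    have := shape (f := f) hN (Y := Yᶜ) (by rw [dd_compl]; exact h5) (by omega)
      (by rw [compl_compl]; omega)
    exact this.1
  have s2c : ra Yᶜ = 2 := by
    have := shape (f := f) hN (Y := Yᶜ) (by rw [dd_compl]; exact h5) (by omega)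
      (by rw [compl_compl]; omega)
    exact this.2.1
  have hout' : ∀ u ∈ Yᶜ, ∀ v ∉ Yᶜ, (permGraph N f).Adj u v →
      (if qC (wA p) (wB r e) u = qC (wA p) (wB r e) (endB f q b) then (1 : ℤ) else -1) = -1 := by
    intro u hu v hv huv
    rw [mem_compl] at hu
    rw [notMem_compl] at hv
    obtain ⟨g1, g2⟩ := hY.out v hv u hu huv.symm
    have g3 := hD.bip v u huv.symm g1
    rw [g2] at g3
    exact g3
  have pA1 : k ≤ ip → nA Y % 2 = 1 := by
    intro g1
    refine rim_odd (by omega) (fun x => (.inl x : ZMod N ⊕ ZMod N) ∈ Y)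
      (fun x => if qC (wA p) (wB r e) (.inl x) = qC (wA p) (wB r e) (endB f q b) then 1 else -1)
      (κ := 1) (Or.inl rfl) (fun x => hb _) ?_ ?_ ?_ s1
    · intro x g2 g3
      apply hmA
      rintro rfl
      exact (hpY.2 g1).1 g2
    · intro x g2 g3
      exact (hY.out _ g2 _ g3 (hl x)).2
    · intro x g2 g3
      exact (hY.out _ g3 _ g2 (hl x).symm).2
  have pA2 : ip < k → nA Yᶜ % 2 = 1 := by
    intro g1
    refine rim_odd (by omega) (fun x => (.inl x : ZMod N ⊕ ZMod N) ∈ Yᶜ)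
      (fun x => if qC (wA p) (wB r e) (.inl x) = qC (wA p) (wB r e) (endB f q b) then 1 else -1)
      (κ := -1) (Or.inr rfl) (fun x => hb _) ?_ ?_ ?_ s1c
    · intro x g2 g3
      apply hmA
      rintro rfl
      exact mem_compl.mp g2 (hpY.1 g1).1
    · intro x g2 g3
      exact hout' _ g2 _ g3 (hl x)
    · intro x g2 g3
      exact hout' _ g3 _ g2 (hl x).symm
  have pB1 : k ≤ ir → nB Y % 2 = 1 := by
    intro g1
    refine rim_odd (by omega) (fun x => (.inr x : ZMod N ⊕ ZMod N) ∈ Y)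
      (fun x => if qC (wA p) (wB r e) (.inr x) = qC (wA p) (wB r e) (endB f q b) then 1 else -1)
      (κ := 1) (Or.inl rfl) (fun x => hb _) ?_ ?_ ?_ s2
    · intro x g2 g3
      apply hmB
      rintro rfl
      exact (hrY.2 g1).1 g2
    · intro x g2 g3
      exact (hY.out _ g2 _ g3 (hr x)).2
    · intro x g2 g3
      exact (hY.out _ g3 _ g2 (hr x).symm).2
  have pB2 : ir < k → nB Yᶜ % 2 = 1 := by
    intro g1
    refine rim_odd (by omega) (fun x => (.inr x : ZMod N ⊕ ZMod N) ∈ Yᶜ)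
      (fun x => if qC (wA p) (wB r e) (.inr x) = qC (wA p) (wB r e) (endB f q b) then 1 else -1)
      (κ := -1) (Or.inr rfl) (fun x => hb _) ?_ ?_ ?_ s2c
    · intro x g2 g3
      apply hmB
      rintro rfl
      exact mem_compl.mp g2 (hrY.1 g1).1
    · intro x g2 g3
      exact hout' _ g2 _ g3 (hr x)
    · intro x g2 g3
      exact hout' _ g3 _ g2 (hr x).symm
  rw [nA_compl] at pA2
  rw [nB_compl] at pB2
  have lA := nA_le (Y := Y)
  have lB := nB_le (Y := Y)
  have hheavy : (k % 2 = 0 → nB Y = nA Y + 1) ∧ (k % 2 = 1 → nA Y = nB Y + 1) := by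
    have g1 := hentIn k hak le_rfl
    have g2 := hexOut k hkb le_rfl
    unfold ent at g1
    unfold ext at g2
    constructor
    · intro g3
      rw [if_pos g3] at g1 g2
      exact card_star' g2 g1 hother
    · intro g3
      rw [if_neg (by omega)] at g1 g2
      exact card_star g1 g2 hother
  have hpar : nA Y % 2 = 1 ∨ nB Y % 2 = 1 := by
    rcases Int.emod_two_eq_zero_or_one k with g | g
    · have := hheavy.1 g
      omega
    · have := hheavy.2 g
      omega
  have hpar' : ¬ (nA Y % 2 = 1 ∧ nB Y % 2 = 1) := by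
    rcases Int.emod_two_eq_zero_or_one k with g | g
    · have := hheavy.1 g
      omega
    · have := hheavy.2 g
      omega
  have parA : nA Y % 2 = 1 ↔ k ≤ ip := by
    constructor
    · intro g
      by_contra g1
      have := pA2 (by omega)
      omega
    · exact pA1
  have parB : nB Y % 2 = 1 ↔ k ≤ ir := by
    constructor
    · intro g
      by_contra g1
      have := pB2 (by omega)
      omega
    · exact pB1
  refine ⟨hside, hak, hkb, ?_, hother, hentIn, hexIn, hentOut, fun i g1 g2 => hexOut i g2 g1,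
    parA, parB, hheavy, ?_⟩
  · rw [parA, parB] at hpar hpar'
    omega
  · intro u hu v hv huv
    have g1 := (hY.out u hu v hv huv).2
    by_contra g2
    rw [if_neg g2] at g1
    norm_num at g1

end side

end Pool.Agent.Helper19.RG
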