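import Pool.Agent.Helper19.RG.Word

/-!
Words with any number of monochromatic edges, and the 5-edge-cuts killing them.
(Problem MP_d067c8_co.)
-/

namespace Pool.Agent.Helper19.RG

open Finset Pool.Agent.Helper19.CF

section par

variable {N : ℕ} [NeZero N]

theorem rim_sum' (hN : 2 < N) (P : ZMod N → Prop) [DecidablePred P] (c : ZMod N → ℤ) (κ : ℤ)
    (h1 : ∀ x, P x → P (x + 1) → c (x + 1) ≠ c x → c (x + 1) = - c x)
    (h2 : ∀ x, P x → ¬ P (x + 1) → c x = κ) (h3 : ∀ x, ¬ P x → P (x + 1) → c (x + 1) = κ) :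
    2 * ∑ x, (if P x then c x else 0) =
      κ * ((∑ x, ∑ y, if (y = x + 1 ∨ x = y + 1) ∧ P x ∧ ¬ P y then 1 else 0 : ℕ) : ℤ) +
      2 * ∑ x, (if P x ∧ P (x + 1) ∧ c (x + 1) = c x then c x else 0) := by
  have e1 : ∑ x, (if P x then c x else 0) = ∑ x : ZMod N, (if P (x + 1) then c (x + 1) else 0) :=
    (Equiv.sum_comp (Equiv.addRight (1 : ZMod N)) fun x => if P x then c x else 0).symm
  have e2 : 2 * ∑ x, (if P x then c x else 0) =
      ∑ x : ZMod N, ((if P x then c x else 0) + (if P (x + 1) then c (x + 1) else 0)) := by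
    rw [sum_add_distrib, ← e1]
    ring
  have e3 : (∑ x : ZMod N, if P x ∧ ¬ P (x - 1) then 1 else 0) =
      ∑ x : ZMod N, if P (x + 1) ∧ ¬ P x then 1 else 0 := by
    rw [← Equiv.sum_comp (Equiv.addRight (1 : ZMod N))]
    refine sum_congr rfl fun x _ => ?_
    simp
  have e4 : (∑ x, ∑ y, if (y = x + 1 ∨ x = y + 1) ∧ P x ∧ ¬ P y then 1 else 0) =
      ∑ x : ZMod N, ((if P x ∧ ¬ P (x + 1) then 1 else 0) +
        (if P (x + 1) ∧ ¬ P x then 1 else 0)) := by
    rw [sum_congr rfl fun x _ => inner_sum hN P x, sum_add_distrib, e3, ← sum_add_distrib]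
  rw [e2, e4, Nat.cast_sum, mul_sum, mul_sum, ← sum_add_distrib]
  refine sum_congr rfl fun x _ => ?_
  by_cases hx : P x <;> by_cases hx1 : P (x + 1)
  · by_cases hm : c (x + 1) = c x
    · simp [hx, hx1, hm]
      ring
    · rw [if_pos hx, if_pos hx1, if_neg (fun h => h.2 hx1), if_neg (fun h => h.2 hx),
        if_neg (fun h => hm h.2.2), h1 x hx hx1 hm]
      simp
  · simp [hx, hx1, h2 x hx hx1]
  · simp [hx, hx1, h3 x hx hx1]
  · simp [hx, hx1]

theorem sum_par (c : ZMod N → ℤ) (hc : ∀ x, c x = 1 ∨ c x = -1) (P : ZMod N → Prop)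
    [DecidablePred P] :
    (∑ x, (if P x then c x else 0) - ((univ.filter P).card : ℤ)) % 2 = 0 := by
  have h7 : ∀ s : Finset (ZMod N), (∑ x ∈ s, (if P x then c x else 0) -
      ((s.filter P).card : ℤ)) % 2 = 0 := by
    intro s
    induction s using Finset.induction_on with
    | empty => simp
    | insert x s hx ih =>
      rw [sum_insert hx, filter_insert]
      split_ifs with hP
      · rw [card_insert_of_notMem (by simp [hx])]
        push_cast
        rcases hc x with h | h <;> rw [h] <;> omega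
      · omega
  exact h7 univ

/-- Parity of a rim part. -/
theorem rim_par (hN : 2 < N) (P : ZMod N → Prop) [DecidablePred P] (c : ZMod N → ℤ)
    {κ : ℤ} (hκ : κ = 1 ∨ κ = -1) (hc : ∀ x, c x = 1 ∨ c x = -1)
    (h2 : ∀ x, P x → ¬ P (x + 1) → c x = κ) (h3 : ∀ x, ¬ P x → P (x + 1) → c (x + 1) = κ)
    (h4 : (∑ x, ∑ y, if (y = x + 1 ∨ x = y + 1) ∧ P x ∧ ¬ P y then 1 else 0) = 2) :
    ((univ.filter P).card +
      (univ.filter fun x => P x ∧ P (x + 1) ∧ c (x + 1) = c x).card) % 2 = 1 := by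
  have h5 := rim_sum' hN P c κ (fun x _ _ h => by
    rcases hc x with g | g <;> rcases hc (x + 1) with g' | g' <;> omega)
    h2 h3
  rw [h4] at h5
  push_cast at h5
  have h6 := sum_par c hc P
  have h7 := sum_par c hc fun x => P x ∧ P (x + 1) ∧ c (x + 1) = c x
  rcases hκ with h | h <;> rw [h] at h5 <;> omega

end par

section side

variable {N : ℕ} [NeZero N] {f : Equiv.Perm (ZMod N)} {Y : Finset (ZMod N ⊕ ZMod N)}
  {a b : ℤ} {q : ℤ → ZMod N} {cA cB : ZMod N → Bool}

/-- What a killing cut of a word looks like: `q k` is the spoke of the cut, the part of the word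
before it lies in `Y`, the part behind it outside. -/
structure KillQ (f : Equiv.Perm (ZMod N)) (a b : ℤ) (q : ℤ → ZMod N) (cA cB : ZMod N → Bool)
    (Y : Finset (ZMod N ⊕ ZMod N)) (k : ℤ) : Prop where
  side : Side f Y
  ak : a ≤ k
  kb : k ≤ b
  other : ∀ x, x ≠ q k → ((.inl x : ZMod N ⊕ ZMod N) ∈ Y ↔ (.inr (f x) : ZMod N ⊕ ZMod N) ∈ Y)
  entIn : ∀ i, a ≤ i → i ≤ k → ent f q i ∈ Y
  exIn : ∀ i, a ≤ i → i < k → ext f q i ∈ Y
  entOut : ∀ i, k < i → i ≤ b → ent f q i ∉ Y
  exOut : ∀ i, k ≤ i → i ≤ b → ext f q i ∉ Y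
  heavy : (k % 2 = 0 → nB Y = nA Y + 1) ∧ (k % 2 = 1 → nA Y = nB Y + 1)
  parA : (nA Y + (univ.filter fun x : ZMod N => cA x = cA (x + 1) ∧
    (.inl x : ZMod N ⊕ ZMod N) ∈ Y).card) % 2 = 1
  parB : (nB Y + (univ.filter fun x : ZMod N => cB x = cB (x + 1) ∧
    (.inr x : ZMod N ⊕ ZMod N) ∈ Y).card) % 2 = 1
  bd : ∀ u ∈ Y, ∀ v ∉ Y, (permGraph N f).Adj u v → qC cA cB u = qC cA cB (endB f q b)

/-- A step of the word on the first rim lies inside or outside. -/
theorem KillQ.stepA {k : ℤ} (h : KillQ f a b q cA cB Y k) {i : ℤ} (h1 : a ≤ i) (h2 : i + 1 ≤ b)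
    (h3 : i % 2 = 0) : ((.inl (q i) : ZMod N ⊕ ZMod N) ∈ Y ↔ i < k) ∧
      ((.inl (q (i + 1)) : ZMod N ⊕ ZMod N) ∈ Y ↔ i < k) := by
  have g1 : ext f q i = .inl (q i) := by unfold ext; rw [if_pos h3]
  have g2 : ent f q (i + 1) = .inl (q (i + 1)) := by
    unfold ent
    rw [if_neg (by omega)]
  rw [← g1, ← g2]
  constructor
  · constructor
    · intro g
      by_contra g3
      exact h.exOut i (by omega) (by omega) g
    · exact fun g => h.exIn i h1 g
  · constructor
    · intro g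
      by_contra g3
      exact h.entOut (i + 1) (by omega) (by omega) g
    · exact fun g => h.entIn (i + 1) (by omega) (by omega)

/-- A step of the word on the second rim lies inside or outside. -/
theorem KillQ.stepB {k : ℤ} (h : KillQ f a b q cA cB Y k) {i : ℤ} (h1 : a ≤ i) (h2 : i + 1 ≤ b)
    (h3 : i % 2 = 1) : ((.inr (f (q i)) : ZMod N ⊕ ZMod N) ∈ Y ↔ i < k) ∧
      ((.inr (f (q (i + 1))) : ZMod N ⊕ ZMod N) ∈ Y ↔ i < k) := by
  have g1 : ext f q i = .inr (f (q i)) := by unfold ext; rw [if_neg (by omega)]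
  have g2 : ent f q (i + 1) = .inr (f (q (i + 1))) := by
    unfold ent
    rw [if_pos (by omega)]
  rw [← g1, ← g2]
  constructor
  · constructor
    · intro g
      by_contra g3
      exact h.exOut i (by omega) (by omega) g
    · exact fun g => h.exIn i h1 g
  · constructor
    · intro g
      by_contra g3
      exact h.entOut (i + 1) (by omega) (by omega) g
    · exact fun g => h.entIn (i + 1) (by omega) (by omega)

/-- The cut spoke. -/
theorem KillQ.cut {k : ℤ} (h : KillQ f a b q cA cB Y k) :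
    (k % 2 = 0 → (.inr (f (q k)) : ZMod N ⊕ ZMod N) ∈ Y ∧ (.inl (q k) : ZMod N ⊕ ZMod N) ∉ Y) ∧
    (k % 2 = 1 → (.inl (q k) : ZMod N ⊕ ZMod N) ∈ Y ∧
      (.inr (f (q k)) : ZMod N ⊕ ZMod N) ∉ Y) := by
  have g1 := h.entIn k h.ak le_rfl
  have g2 := h.exOut k le_rfl h.kb
  unfold ent at g1
  unfold ext at g2
  constructor
  · intro g3
    rw [if_pos g3] at g1 g2
    exact ⟨g1, g2⟩
  · intro g3
    rw [if_neg (by omega)] at g1 g2
    exact ⟨g1, g2⟩

/-- A word is killed by a nontrivial 5-edge-cut, or there is a flow. -/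
theorem QZ.kill (hN : 5 < N) (hcyc : CyclicallyEdgeConnected (permGraph N f) 5)
    (hno : ¬ HasFlow (permGraph N f) (9 / 2)) (hq : QZ f a b q cA cB) :
    ∃ (Y : Finset (ZMod N ⊕ ZMod N)) (k : ℤ), KillQ f a b q cA cB Y k := by
  classical
  have hD := nearData_of_QZ (by omega) hq
  have hreg : ∀ v, (permGraph N f).degree v = 3 := permGraph_regular (by omega)
  by_contra hcon
  apply hno
  refine hasFlow_nine_halves hreg hD ?_
  intro Y hY h1 h2
  have h3 := hcyc _ h1 h2
  rw [cutSize_coe] at h3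
  refine ⟨by omega, fun h5 => ?_⟩
  apply hcon
  obtain ⟨h7, h7'⟩ := not_thin hN hcyc hD hY h5
  have hside : Side f Y := ⟨by rw [cutSize_coe]; exact h5, h7, h7'⟩
  obtain ⟨s1, s2, s3⟩ := shape hN h5 (by omega) (by omega)
  obtain ⟨x0, hx0, hother⟩ := star s3
  have hab := hq.le
  -- edges of the matching do not cross
  have hZ : ∀ u v, qZ f a b q u v → (u ∈ Y ↔ v ∈ Y) := by
    intro u v hz
    constructor
    · intro hu
      by_contra hv
      exact (hY.out u hu v hv (hD.adj _ _ hz)).1 hz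
    · intro hv
      by_contra hu
      exact (hY.out v hv u hu (hD.adj _ _ hz).symm).1 (hD.symm _ _ hz)
  -- the crossing spoke is in the word
  have hk : ∃ k, a ≤ k ∧ k ≤ b ∧ x0 = q k := by
    by_contra hk
    push Not at hk
    exact hx0 (hZ (.inl x0) (.inr (f x0)) ⟨rfl, hk⟩)
  obtain ⟨k, hak, hkb, rfl⟩ := hk
  refine ⟨Y, k, ?_⟩
  have hsp : ∀ i, a ≤ i → i ≤ b → i ≠ k → (ent f q i ∈ Y ↔ ext f q i ∈ Y) := by
    intro i g1 g2 g3
    have g4 := hother (q i) fun g5 => g3 (hq.inj i k g1 g2 hak hkb g5)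
    unfold ent ext
    split_ifs
    · exact g4.symm
    · exact g4
  have hrim : ∀ i, a ≤ i → i + 1 ≤ b → (ext f q i ∈ Y ↔ ent f q (i + 1) ∈ Y) := by
    intro i g1 g2
    unfold ent ext
    rcases Int.emod_two_eq_zero_or_one i with g3 | g3
    · rw [if_pos g3, if_neg (by omega)]
      apply hZ
      refine ⟨i, g1, by omega, ?_, ?_, rfl, ?_⟩ <;> unfold pa <;> rw [if_pos g3] <;> omega
    · rw [if_neg (by omega), if_pos (by omega)]
      apply hZ
      refine ⟨i, g1, by omega, ?_, ?_, rfl, ?_⟩ <;> unfold pb <;> rw [if_pos g3] <;> omega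
  have hta : ent f q a ∈ Y := by
    have := hY.t_mem
    unfold endA at this
    unfold ent
    exact this
  have hsb : ext f q b ∉ Y := by
    have := hY.s_notMem
    unfold endB at this
    unfold ext
    exact this
  have hentIn : ∀ i, a ≤ i → i ≤ k → ent f q i ∈ Y := by
    intro i hi
    induction i, hi using Int.leInduction with
    | base => exact fun _ => hta
    | succ i hi ih =>
      intro g1
      exact (hrim i hi (by omega)).mp ((hsp i hi (by omega) (by omega)).mp (ih (by omega)))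
  have hexIn : ∀ i, a ≤ i → i < k → ext f q i ∈ Y := fun i g1 g2 =>
    (hsp i g1 (by omega) (by omega)).mp (hentIn i g1 (by omega))
  have hexOut : ∀ i, i ≤ b → k ≤ i → ext f q i ∉ Y := by
    intro i hi
    induction i, hi using Int.leInductionDown with
    | base => exact fun _ => hsb
    | pred i hi ih =>
      intro g1 g2
      have g3 := (hrim (i - 1) (by omega) (by omega)).mp g2
      rw [sub_add_cancel] at g3
      exact ih (by omega) ((hsp i (by omega) hi (by omega)).mp g3)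
  have hentOut : ∀ i, k < i → i ≤ b → ent f q i ∉ Y := fun i g1 g2 g3 =>
    hexOut i g2 (by omega) ((hsp i (by omega) g2 (by omega)).mp g3)
  -- parities
  have hb := hD.val
  have hl : ∀ x : ZMod N, (permGraph N f).Adj (.inl x) (.inl (x + 1)) := fun x =>
    (adj_ll (by omega) _ _).mpr (Or.inl rfl)
  have hr : ∀ x : ZMod N, (permGraph N f).Adj (.inr x) (.inr (x + 1)) := fun x =>
    (adj_rr (by omega) _ _).mpr (Or.inl rfl)
  -- monochromatic edges are in the matching
  have hmZA : ∀ x : ZMod N, cA x = cA (x + 1) →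
      ((.inl x : ZMod N ⊕ ZMod N) ∈ Y ↔ (.inl (x + 1) : ZMod N ⊕ ZMod N) ∈ Y) := by
    intro x hx
    obtain ⟨i, g1, g2, g3, g4⟩ := hq.mA x hx
    have key : (.inl (q i) : ZMod N ⊕ ZMod N) ∈ Y ↔ (.inl (q (i + 1)) : ZMod N ⊕ ZMod N) ∈ Y := by
      have := hrim i g1 g2
      unfold ent ext at this
      rw [if_pos g3, if_neg (by omega)] at this
      exact this
    rcases g4 with ⟨e1, e2⟩ | ⟨e1, e2⟩
    · rw [e1, e2] at key; exact key
    · rw [e1, e2] at key; exact key.symm
  have hmZB : ∀ x : ZMod N, cB x = cB (x + 1) →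
      ((.inr x : ZMod N ⊕ ZMod N) ∈ Y ↔ (.inr (x + 1) : ZMod N ⊕ ZMod N) ∈ Y) := by
    intro x hx
    obtain ⟨i, g1, g2, g3, g4⟩ := hq.mB x hx
    have key : (.inr (f (q i)) : ZMod N ⊕ ZMod N) ∈ Y ↔
        (.inr (f (q (i + 1))) : ZMod N ⊕ ZMod N) ∈ Y := by
      have := hrim i g1 g2
      unfold ent ext at this
      rw [if_neg (by omega), if_pos (by omega)] at this
      exact this
    rcases g4 with ⟨e1, e2⟩ | ⟨e1, e2⟩
    · rw [e1, e2] at key; exact key
    · rw [e1, e2] at key; exact key.symm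
  have hcolA : ∀ x : ZMod N,
      ((if qC cA cB (.inl (x + 1)) = qC cA cB (endB f q b) then (1 : ℤ) else -1) =
      (if qC cA cB (.inl x) = qC cA cB (endB f q b) then (1 : ℤ) else -1)) ↔
        cA x = cA (x + 1) := by
    intro x
    show ((if cA (x + 1) = _ then (1 : ℤ) else -1) = (if cA x = _ then (1 : ℤ) else -1)) ↔ _
    cases cA x <;> cases cA (x + 1) <;> cases qC cA cB (endB f q b) <;> simp
  have hcolB : ∀ x : ZMod N,
      ((if qC cA cB (.inr (x + 1)) = qC cA cB (endB f q b) then (1 : ℤ) else -1) =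
      (if qC cA cB (.inr x) = qC cA cB (endB f q b) then (1 : ℤ) else -1)) ↔
        cB x = cB (x + 1) := by
    intro x
    show ((if cB (x + 1) = _ then (1 : ℤ) else -1) = (if cB x = _ then (1 : ℤ) else -1)) ↔ _
    cases cB x <;> cases cB (x + 1) <;> cases qC cA cB (endB f q b) <;> simp
  have pA : (nA Y + (univ.filter fun x : ZMod N => cA x = cA (x + 1) ∧
      (.inl x : ZMod N ⊕ ZMod N) ∈ Y).card) % 2 = 1 := by
    have g := rim_par (by omega) (fun x => (.inl x : ZMod N ⊕ ZMod N) ∈ Y)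
      (fun x => if qC cA cB (.inl x) = qC cA cB (endB f q b) then 1 else -1)
      (κ := 1) (Or.inl rfl) (fun x => hb _)
      (fun x g2 g3 => (hY.out _ g2 _ g3 (hl x)).2)
      (fun x g2 g3 => (hY.out _ g3 _ g2 (hl x).symm).2) s1
    have e : (univ.filter fun x : ZMod N => cA x = cA (x + 1) ∧
        (.inl x : ZMod N ⊕ ZMod N) ∈ Y) =
        univ.filter fun x : ZMod N => (.inl x : ZMod N ⊕ ZMod N) ∈ Y ∧
          (.inl (x + 1) : ZMod N ⊕ ZMod N) ∈ Y ∧
          (if qC cA cB (.inl (x + 1)) = qC cA cB (endB f q b) then (1 : ℤ) else -1) =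
          (if qC cA cB (.inl x) = qC cA cB (endB f q b) then (1 : ℤ) else -1) := by
      ext x
      simp only [mem_filter, mem_univ, true_and]
      rw [hcolA x]
      constructor
      · rintro ⟨g1, g2⟩
        exact ⟨g2, (hmZA x g1).mp g2, g1⟩
      · rintro ⟨g1, g2, g3⟩
        exact ⟨g3, g1⟩
    rw [e]
    exact g
  have pB : (nB Y + (univ.filter fun x : ZMod N => cB x = cB (x + 1) ∧
      (.inr x : ZMod N ⊕ ZMod N) ∈ Y).card) % 2 = 1 := by
    have g := rim_par (by omega) (fun x => (.inr x : ZMod N ⊕ ZMod N) ∈ Y)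
      (fun x => if qC cA cB (.inr x) = qC cA cB (endB f q b) then 1 else -1)
      (κ := 1) (Or.inl rfl) (fun x => hb _)
      (fun x g2 g3 => (hY.out _ g2 _ g3 (hr x)).2)
      (fun x g2 g3 => (hY.out _ g3 _ g2 (hr x).symm).2) s2
    have e : (univ.filter fun x : ZMod N => cB x = cB (x + 1) ∧
        (.inr x : ZMod N ⊕ ZMod N) ∈ Y) =
        univ.filter fun x : ZMod N => (.inr x : ZMod N ⊕ ZMod N) ∈ Y ∧
          (.inr (x + 1) : ZMod N ⊕ ZMod N) ∈ Y ∧
          (if qC cA cB (.inr (x + 1)) = qC cA cB (endB f q b) then (1 : ℤ) else -1) =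
          (if qC cA cB (.inr x) = qC cA cB (endB f q b) then (1 : ℤ) else -1) := by
      ext x
      simp only [mem_filter, mem_univ, true_and]
      rw [hcolB x]
      constructor
      · rintro ⟨g1, g2⟩
        exact ⟨g2, (hmZB x g1).mp g2, g1⟩
      · rintro ⟨g1, g2, g3⟩
        exact ⟨g3, g1⟩
    rw [e]
    exact g
  have hheavy : (k % 2 = 0 → nB Y = nA Y + 1) ∧ (k % 2 = 1 → nA Y = nB Y + 1) := by
    have g1 := hentIn k hak le_rfl
    have g2 := hexOut k hkb le_rfl
    unfold ent at g1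
    unfold ext at g2
    constructor
    · intro g3
      rw [if_pos g3] at g1 g2
      exact card_star' g2 g1 hother
    · intro g3
      rw [if_neg (by omega)] at g1 g2
      exact card_star g1 g2 hother
  refine ⟨hside, hak, hkb, hother, hentIn, hexIn, hentOut, fun i g1 g2 => hexOut i g2 g1,
    hheavy, pA, pB, ?_⟩
  intro u hu v hv huv
  have g1 := (hY.out u hu v hv huv).2
  by_contra g2
  rw [if_neg g2] at g1
  norm_num at g1

end side

end Pool.Agent.Helper19.RG
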